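import Pool.Agent.Lib.CIR.Defs

/-!
# CIR.Bas: basic facts on the covering `E` and on lifts
-/

set_option autoImplicit false

open Set
open scoped ContDiff Manifold

namespace Pool.Agent.CIR

/-! ### The covering -/

theorem E_eq_iff {x y : ℝ} : E x = E y ↔ ∃ m : ℤ, x = y + m := by
  unfold E
  rw [Circle.exp_eq_exp]
  have h2 : (2 * Real.pi) ≠ 0 := by positivity
  constructor
  · rintro ⟨m, hm⟩
    exact ⟨m, by field_simp at hm; linarith⟩
  · rintro ⟨m, hm⟩
    exact ⟨m, by rw [hm]; ring⟩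

theorem E_add (x y : ℝ) : E (x + y) = E x * E y := by
  unfold E
  rw [mul_add, Circle.exp_add]

theorem E_zero : E 0 = 1 := by simp [E]

theorem E_neg (x : ℝ) : E (-x) = (E x)⁻¹ := by
  rw [eq_inv_iff_mul_eq_one, ← E_add, neg_add_cancel, E_zero]

theorem E_sub (x y : ℝ) : E (x - y) = E x / E y := by
  rw [sub_eq_add_neg, E_add, E_neg, div_eq_mul_inv]

theorem E_int (m : ℤ) : E m = 1 := by
  rw [← E_zero, E_eq_iff]
  exact ⟨m, by ring⟩

theorem E_add_int (x : ℝ) (m : ℤ) : E (x + m) = E x := E_eq_iff.2 ⟨m, rfl⟩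

theorem E_sub_int (x : ℝ) (m : ℤ) : E (x - m) = E x := E_eq_iff.2 ⟨-m, by push_cast; ring⟩

theorem E_add_one (x : ℝ) : E (x + 1) = E x := by
  have := E_add_int x 1
  rwa [Int.cast_one] at this

theorem continuous_E : Continuous E := by
  unfold E
  fun_prop

theorem E_surj : Function.Surjective E := by
  intro z
  refine ⟨Complex.arg z / (2 * Real.pi), ?_⟩
  unfold E
  have h2 : (2 * Real.pi) * (Complex.arg z / (2 * Real.pi)) = Complex.arg z := by
    have : Real.pi ≠ 0 := Real.pi_ne_zero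
    field_simp
  rw [h2, Circle.exp_arg]

/-- `h` is the rotation by `α`. -/
def IsRot (α : ℝ) (h : Circle → Circle) : Prop := ∀ z, h z = E α * z

/-! ### Lifts of degree one -/

theorem Pos.cont {F : ℝ → ℝ} (h : Pos F) : Continuous F := h.1

theorem Pos.strictMono {F : ℝ → ℝ} (h : Pos F) : StrictMono F := h.2.1

theorem Pos.add_one {F : ℝ → ℝ} (h : Pos F) (x : ℝ) : F (x + 1) = F x + 1 := h.2.2 x

/-- The bundled lift of Mathlib. -/
def Pos.cdl {F : ℝ → ℝ} (h : Pos F) : CircleDeg1Lift where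
  toFun := F
  monotone' := h.strictMono.monotone
  map_add_one' := h.add_one

theorem Pos.cdl_coe {F : ℝ → ℝ} (h : Pos F) : ⇑h.cdl = F := rfl

theorem Pos.add_int {F : ℝ → ℝ} (h : Pos F) (x : ℝ) (m : ℤ) : F (x + m) = F x + m :=
  h.cdl.map_add_int x m

theorem Pos.sub_int {F : ℝ → ℝ} (h : Pos F) (x : ℝ) (m : ℤ) : F (x - m) = F x - m :=
  h.cdl.map_sub_int x m

theorem pos_id : Pos (fun x => x) := ⟨continuous_id, strictMono_id, fun _ => rfl⟩

theorem Pos.comp {F G : ℝ → ℝ} (hF : Pos F) (hG : Pos G) : Pos (fun x => F (G x)) :=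
  ⟨hF.1.comp hG.1, hF.2.1.comp hG.2.1, fun x => by
    show F (G (x + 1)) = F (G x) + 1
    rw [hG.add_one, hF.add_one]⟩

theorem Pos.iter {F : ℝ → ℝ} (hF : Pos F) (n : ℕ) : Pos F^[n] := by
  induction n with
  | zero => exact pos_id
  | succ n ih =>
    rw [Function.iterate_succ']
    exact hF.comp ih

theorem Pos.add_const {F : ℝ → ℝ} (hF : Pos F) (c : ℝ) : Pos (fun x => F x + c) :=
  ⟨hF.1.add continuous_const, fun _ _ h => by
    have := hF.2.1 h
    show _ + c < _ + c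
    linarith, fun x => by
    show F (x + 1) + c = F x + c + 1
    rw [hF.add_one]
    ring⟩

theorem Pos.surj {F : ℝ → ℝ} (h : Pos F) : Function.Surjective F :=
  h.cdl.continuous_iff_surjective.1 h.1

theorem Pos.bij {F : ℝ → ℝ} (h : Pos F) : Function.Bijective F := ⟨h.2.1.injective, h.surj⟩

/-- The order isomorphism. -/
noncomputable def Pos.oi {F : ℝ → ℝ} (h : Pos F) : ℝ ≃o ℝ := h.strictMono.orderIsoOfSurjective F h.surj

theorem Pos.oi_coe {F : ℝ → ℝ} (h : Pos F) : ⇑h.oi = F := rfl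

theorem Pos.oi_symm {F : ℝ → ℝ} (h : Pos F) : Pos h.oi.symm := by
  refine ⟨h.oi.symm.continuous, h.oi.symm.strictMono, fun x => ?_⟩
  rw [OrderIso.symm_apply_eq]
  show x + 1 = F (h.oi.symm x + 1)
  rw [h.add_one]
  show x + 1 = h.oi (h.oi.symm x) + 1
  rw [OrderIso.apply_symm_apply]

/-! ### Lifts of degree minus one -/

theorem Neg.cont {F : ℝ → ℝ} (h : Neg F) : Continuous F := h.1

theorem Neg.strictAnti {F : ℝ → ℝ} (h : Neg F) : StrictAnti F := h.2.1

theorem Neg.add_one {F : ℝ → ℝ} (h : Neg F) (x : ℝ) : F (x + 1) = F x - 1 := h.2.2 x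

theorem Neg.neg {F : ℝ → ℝ} (h : Neg F) : Pos (fun x => -F x) :=
  ⟨h.1.neg, fun _ _ hx => neg_lt_neg (h.2.1 hx), fun x => by
    show -F (x + 1) = -F x + 1
    rw [h.add_one]
    ring⟩

theorem Pos.neg {F : ℝ → ℝ} (h : Pos F) : Neg (fun x => -F x) :=
  ⟨h.1.neg, fun _ _ hx => neg_lt_neg (h.2.1 hx), fun x => by
    show -F (x + 1) = -F x - 1
    rw [h.add_one]
    ring⟩

theorem Neg.add_int {F : ℝ → ℝ} (h : Neg F) (x : ℝ) (m : ℤ) : F (x + m) = F x - m := by
  have h1 : -F (x + m) = -F x + m := h.neg.add_int x m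
  linarith

theorem Neg.sub_int {F : ℝ → ℝ} (h : Neg F) (x : ℝ) (m : ℤ) : F (x - m) = F x + m := by
  have h1 : -F (x - m) = -F x - m := h.neg.sub_int x m
  linarith

theorem Neg.surj {F : ℝ → ℝ} (h : Neg F) : Function.Surjective F := by
  intro y
  obtain ⟨x, hx⟩ := h.neg.surj (-y)
  exact ⟨x, neg_inj.1 hx⟩

theorem Neg.bij {F : ℝ → ℝ} (h : Neg F) : Function.Bijective F := ⟨h.2.1.injective, h.surj⟩

theorem Neg.comp {F G : ℝ → ℝ} (hF : Neg F) (hG : Neg G) : Pos (fun x => F (G x)) :=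
  ⟨hF.1.comp hG.1, fun _ _ h => hF.2.1 (hG.2.1 h), fun x => by
    have := hF.sub_int (G x) 1
    push_cast at this
    show F (G (x + 1)) = F (G x) + 1
    rw [hG.add_one, this]⟩

theorem Pos.comp_neg {F G : ℝ → ℝ} (hF : Pos F) (hG : Neg G) : Neg (fun x => F (G x)) :=
  ⟨hF.1.comp hG.1, fun _ _ h => hF.2.1 (hG.2.1 h), fun x => by
    have := hF.sub_int (G x) 1
    push_cast at this
    show F (G (x + 1)) = F (G x) - 1
    rw [hG.add_one, this]⟩

theorem Neg.comp_pos {F G : ℝ → ℝ} (hF : Neg F) (hG : Pos G) : Neg (fun x => F (G x)) :=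
  ⟨hF.1.comp hG.1, fun _ _ h => hF.2.1 (hG.2.1 h), fun x => by
    show F (G (x + 1)) = F (G x) - 1
    rw [hG.add_one, hF.add_one]⟩

/-! ### Lifts -/

theorem Lft.iter {h : Circle → Circle} {F : ℝ → ℝ} (hF : Lft h F) (n : ℕ) : Lft h^[n] F^[n] := by
  induction n with
  | zero => exact fun _ => rfl
  | succ n ih =>
    intro x
    rw [Function.iterate_succ_apply', Function.iterate_succ_apply', hF, ih]

theorem Lft.comp {h k : Circle → Circle} {F G : ℝ → ℝ} (hF : Lft h F) (hG : Lft k G) :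
    Lft (fun z => h (k z)) (fun x => F (G x)) := by
  intro x
  show E (F (G x)) = h (k (E x))
  rw [hF, hG]

theorem Lft.add_int {h : Circle → Circle} {F : ℝ → ℝ} (hF : Lft h F) (m : ℤ) : Lft h (fun x => F x + m) := by
  intro x
  show E (F x + m) = _
  rw [E_add_int, hF]

theorem Lft.unique_fun {h k : Circle → Circle} {F : ℝ → ℝ} (hF : Lft h F) (hG : Lft k F) : h = k := by
  funext z
  obtain ⟨x, rfl⟩ := E_surj z
  rw [← hF, hG]

end Pool.Agent.CIR
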