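import Pool.Agent.Lib.CIR.Bas

/-!
# CIR.Rtn: multiplication by an element of the circle as a diffeomorphism; a diffeomorphism as a homeomorphism
-/

set_option autoImplicit false

open Set
open scoped ContDiff Manifold

namespace Pool.Agent.CIR

theorem contMDiff_mulC (b : Circle) :
    ContMDiff 𝓘(ℝ, EuclideanSpace ℝ (Fin 1)) 𝓘(ℝ, EuclideanSpace ℝ (Fin 1)) ∞ (fun z : Circle => b * z) := by
  have h : ContMDiff 𝓘(ℝ, EuclideanSpace ℝ (Fin 1)) 𝓘(ℝ, EuclideanSpace ℝ (Fin 1)) ω (fun z : Circle => b * z) :=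
    contMDiff_mul_left
  exact h.of_le le_top

/-- Multiplication by `b`. -/
noncomputable def mulC (b : Circle) : Dif where
  toEquiv := Equiv.mulLeft b
  contMDiff_toFun := contMDiff_mulC b
  contMDiff_invFun := contMDiff_mulC b⁻¹

theorem mulC_apply (b z : Circle) : mulC b z = b * z := rfl

theorem mulC_symm_apply (b z : Circle) : (mulC b).symm z = b⁻¹ * z := rfl

/-- The homeomorphism of a diffeomorphism. -/
noncomputable def hm (f : Dif) : H := f.toHomeomorph

theorem hm_coe (f : Dif) : ⇑(hm f) = ⇑f := rfl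

theorem hm_inj {f g : Dif} (h : hm f = hm g) : f = g := by
  ext z
  have : hm f z = hm g z := by rw [h]
  exact congrArg _ this

end Pool.Agent.CIR
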