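import Pool.Agent.Lib.CIR.TopP
import Pool.Agent.Lib.CIR.Rtn

/-!
# CIR.Top: measurability in the group of homeomorphisms and in the set of diffeomorphisms

PROOF of `measurable_H_iff`: `→`: evaluations are continuous (`continuous_apply_uncurry`). `←`: let `D : ℕ → Circle` be a dense sequence; `ev h n = h (D n)` is a continuous injective map of the Polish space `H` (`polishSpace`)
to `ℕ → Circle`, so a measurable embedding (`Continuous.measurableEmbedding`), `MeasurableEmbedding.measurable_comp_iff`, `measurable_pi_iff`.
PROOF of `measurable_dif_iff`: the σ-algebra on `Dif` is `⨆ z, comap ..`: `measurable_iff_comap_le`, `MeasurableSpace.comap_iSup`, `MeasurableSpace.comap_comp`, `iSup_le_iff`.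
PROOF of `measurable_apply_uncurry`: `continuous_apply_uncurry`; `H × Circle` has the Borel σ-algebra (`H` and `Circle` are second countable: `polishSpace`).
PROOF of `measurable_hm`: `measurable_H_iff`, `measurable_dif_iff` (applied to the identity). `measurable_dif_apply`: compose `measurable_apply_uncurry` with `(f, z) ↦ (hm f, z)`.
PROOF of `measurableSet_per`: countable union over `n > 0` of `{h | ∃ z, h^[n] z = z}`; `h^[n] = ⇑(h ^ n)`; the map `(h, z) ↦ (h ^ n) z` is continuous on `H × Circle`, so this set is the projection along the compact
space `Circle` of a closed set, hence closed (`isClosedMap_fst_of_compactSpace`-like).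
-/

set_option autoImplicit false

open Set
open scoped ContDiff Manifold

namespace Pool.Agent.CIR

namespace TopAux

theorem continuous_eval (z : Circle) : Continuous fun h : H => h z :=
  continuous_apply_uncurry.comp (continuous_id.prodMk continuous_const)

theorem measurable_eval (z : Circle) : Measurable fun f : Dif => f z :=
  measurable_iff_comap_le.2 (le_iSup
    (fun z : Circle => MeasurableSpace.comap (fun f : Dif => f z) (borel Circle)) z)

theorem continuous_iter (n : ℕ) : Continuous fun p : H × Circle => (⇑p.1)^[n] p.2 := by
  induction n with
  | zero => exact continuous_snd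
  | succ n ih =>
    have h : (fun p : H × Circle => (⇑p.1)^[n + 1] p.2) =
        fun p : H × Circle => p.1 ((⇑p.1)^[n] p.2) := by
      funext p
      exact Function.iterate_succ_apply' _ _ _
    rw [h]
    exact continuous_apply_uncurry.comp (continuous_fst.prodMk ih)

end TopAux

theorem measurable_H_iff {Ω : Type*} [MeasurableSpace Ω] {g : Ω → H} :
    Measurable g ↔ ∀ z, Measurable fun o => g o z := by
  constructor
  · intro hg z
    exact (TopAux.continuous_eval z).measurable.comp hg
  · intro hg
    have := polishSpace
    let D : ℕ → Circle := TopologicalSpace.denseSeq Circle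
    let ev : H → (ℕ → Circle) := fun h n => h (D n)
    have hc : Continuous ev := continuous_pi fun n => TopAux.continuous_eval (D n)
    have hi : Function.Injective ev := by
      intro h k hk
      have h1 : (⇑h : Circle → Circle) = ⇑k := by
        apply (TopologicalSpace.denseRange_denseSeq Circle).equalizer h.continuous k.continuous
        funext n
        exact congrFun hk n
      exact DFunLike.coe_injective h1
    have he : MeasurableEmbedding ev := hc.measurableEmbedding hi
    rw [← he.measurable_comp_iff]
    exact measurable_pi_iff.2 fun n => hg (D n)

theorem measurable_dif_iff {Ω : Type*} [MeasurableSpace Ω] {g : Ω → Dif} :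
    Measurable g ↔ ∀ z, Measurable fun o => g o z := by
  constructor
  · intro hg z
    exact (TopAux.measurable_eval z).comp hg
  · intro hg
    rw [measurable_iff_comap_le]
    change MeasurableSpace.comap g (⨆ z : Circle,
      MeasurableSpace.comap (fun f : Dif => f z) (borel Circle)) ≤ _
    rw [MeasurableSpace.comap_iSup]
    refine iSup_le fun z => ?_
    rw [MeasurableSpace.comap_comp]
    exact measurable_iff_comap_le.1 (hg z)

theorem measurable_apply_uncurry : Measurable fun p : H × Circle => p.1 p.2 := by
  have := polishSpace
  exact continuous_apply_uncurry.measurable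

theorem measurable_hm : Measurable hm := by
  rw [measurable_H_iff]
  intro z
  exact TopAux.measurable_eval z

theorem measurable_dif_apply : Measurable fun p : Dif × Circle => p.1 p.2 := by
  have h : Measurable fun p : Dif × Circle => (hm p.1, p.2) :=
    (measurable_hm.comp measurable_fst).prodMk measurable_snd
  exact measurable_apply_uncurry.comp h

theorem measurableSet_per : MeasurableSet {h : H | Per h} := by
  have h1 : {h : H | Per h} = ⋃ n : ℕ, ⋃ _ : 0 < n,
      Prod.fst '' {p : H × Circle | (⇑p.1)^[n] p.2 = p.2} := by
    ext h
    simp only [Per, mem_ofPred_eq, mem_iUnion, mem_image, Prod.exists, exists_and_right,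
      exists_eq_right, exists_prop]
  rw [h1]
  refine MeasurableSet.iUnion fun n => MeasurableSet.iUnion fun _ => ?_
  apply IsClosed.measurableSet
  apply isClosedMap_fst_of_compactSpace
  exact isClosed_eq (TopAux.continuous_iter n) continuous_snd

end Pool.Agent.CIR
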