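import Pool.Agent.Lib.CIR.Mob
import Pool.Agent.Lib.CIR.Top

/-!
# CIR.Absb: coding a real number into a conjugate of a diffeomorphism

PROOF. Take `mob` from `exists_mob`; `mulC b` is multiplication by `b` (`Rtn`). Let `D : ℕ → Circle` be a dense sequence (`TopologicalSpace.denseSeq`). For `f : Dif` let `N f` be the least `n` with `f (D n) ≠ D n` if there is one, `0` otherwise; `b f = D (N f)`.
If `f z ≠ z` for some `z`, the set `{z | f z ≠ z}` is open and nonempty, so it contains some `D n`, and `f (b f) ≠ b f`. `b : Dif → Circle` is measurable: `{f | f (D n) ≠ D n}` is measurable for every `n` (`measurable_dif_iff` for the identity), so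
`{f | N f = n}` is measurable, and `b` takes countably many values (`measurable_find`-like, or `measurable_to_countable` for `N` and `measurable_from_top`/`measurable_from_nat` for `D`).
Put `c f w = acay (f (b f) / b f) - w`, `κ f w : Dif`, `κ z = b f * mob (c f w) z` (`(mob c).trans (mulC b)`), and `enc f w = (κ.trans f).trans κ.symm`, so
`enc f w z = mob (- c) ((b f)⁻¹ * f (b f * mob c z))`.
(1) MEASURABLE: by `measurable_dif_iff` we need for fixed `z` that `(f, w) ↦ enc f w z` is measurable: it is a composition of the measurable maps `b`, `c` (`measurable_acay`, `measurable_dif_apply`), `(t, z) ↦ mob t z`, `(f, y) ↦ f y`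
(`measurable_dif_apply`) and multiplication and inversion of the circle (continuous).
(2) `Cj f (enc f w)`: the homeomorphism `κ.symm` satisfies `κ.symm (f z) = enc f w (κ.symm z)`.
(3) If `f z ≠ z` for some `z`: `κ 1 = b f`, `f (b f) / b f ≠ 1`, so `cay (acay (f (b f) / b f)) = f (b f) / b f` (`cay_acay`), and `enc f w 1 = mob (- c) (cay (acay (f (b f) / b f))) = cay (acay (..) - c) = cay w`.
-/

set_option autoImplicit false

open Set
open scoped ContDiff Manifold

namespace Pool.Agent.CIR

namespace AbsbAux

/-- A dense sequence of the circle. -/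
noncomputable def D : ℕ → Circle := TopologicalSpace.denseSeq Circle

theorem denseRange_D : DenseRange D := TopologicalSpace.denseRange_denseSeq Circle

/-- `n` is a moved index, or nothing moves. -/
def P (f : Dif) (n : ℕ) : Prop := f (D n) ≠ D n ∨ ∀ m, f (D m) = D m

theorem exists_P (f : Dif) : ∃ n, P f n := by
  by_cases h : ∃ n, f (D n) ≠ D n
  · obtain ⟨n, hn⟩ := h
    exact ⟨n, Or.inl hn⟩
  · push Not at h
    exact ⟨0, Or.inr h⟩

open Classical in
/-- The base point. -/
noncomputable def b (f : Dif) : Circle := D (Nat.find (exists_P f))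

theorem measurable_ev (z : Circle) : Measurable fun f : Dif => f z :=
  measurable_dif_iff.1 measurable_id z

theorem measurableSet_eq (m : ℕ) : MeasurableSet {f : Dif | f (D m) = D m} :=
  measurable_ev (D m) (measurableSet_singleton (D m))

theorem measurableSet_P (n : ℕ) : MeasurableSet {f : Dif | P f n} := by
  have h1 : MeasurableSet {f : Dif | f (D n) ≠ D n} := (measurableSet_eq n).compl
  have h2 : MeasurableSet {f : Dif | ∀ m, f (D m) = D m} := by
    rw [Set.ofPred_forall]
    exact MeasurableSet.iInter fun m => measurableSet_eq m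
  exact h1.union h2

theorem measurable_b : Measurable b := by
  classical
  have h1 : Measurable fun f : Dif => Nat.find (exists_P f) :=
    measurable_find exists_P measurableSet_P
  have h2 : Measurable D := measurable_from_nat
  have h3 : b = fun f => D (Nat.find (exists_P f)) := by
    funext f
    unfold b
    congr!
  rw [h3]
  exact h2.comp h1

theorem b_moved {f : Dif} (h : ∃ z, f z ≠ z) : f (b f) ≠ b f := by
  classical
  have h1 := Nat.find_spec (exists_P f)
  rcases h1 with h1 | h1
  · unfold b
    convert h1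
  · exfalso
    obtain ⟨z, hz⟩ := h
    apply hz
    have h2 : (f : Circle → Circle) = id := by
      apply Continuous.ext_on denseRange_D f.continuous continuous_id
      rintro x ⟨m, rfl⟩
      exact h1 m
    rw [h2]
    rfl

/-- The parameter. -/
noncomputable def c (f : Dif) (w : ℝ) : ℝ := acay (f (b f) / b f) - w

theorem measurable_fb : Measurable fun o : Dif × ℝ => o.1 (b o.1) :=
  measurable_dif_apply.comp (measurable_fst.prodMk (measurable_b.comp measurable_fst))

theorem measurable_c : Measurable fun o : Dif × ℝ => c o.1 o.2 := by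
  unfold c
  exact (measurable_acay.comp (measurable_fb.div (measurable_b.comp measurable_fst))).sub measurable_snd

/-- The conjugating diffeomorphism. -/
noncomputable def kap (mob : ℝ → Dif) (f : Dif) (w : ℝ) : Dif := (mob (c f w)).trans (mulC (b f))

/-- The code. -/
noncomputable def enc (mob : ℝ → Dif) (f : Dif) (w : ℝ) : Dif :=
  ((kap mob f w).trans f).trans (kap mob f w).symm

theorem enc_apply (mob : ℝ → Dif) (hs : ∀ t z, (mob t).symm z = mob (-t) z) (f : Dif) (w : ℝ) (z : Circle) :
    enc mob f w z = mob (-(c f w)) ((b f)⁻¹ * f (b f * mob (c f w) z)) := by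
  have h1 : enc mob f w z = (mob (c f w)).symm ((mulC (b f)).symm (f (mulC (b f) (mob (c f w) z)))) := rfl
  rw [h1, hs, mulC_symm_apply, mulC_apply]

theorem measurable_enc (mob : ℝ → Dif) (hs : ∀ t z, (mob t).symm z = mob (-t) z)
    (hm : Measurable fun p : ℝ × Circle => mob p.1 p.2) : Measurable (Function.uncurry (enc mob)) := by
  rw [measurable_dif_iff]
  intro z
  have h1 : (fun o : Dif × ℝ => Function.uncurry (enc mob) o z) =
      fun o : Dif × ℝ => mob (-(c o.1 o.2)) ((b o.1)⁻¹ * o.1 (b o.1 * mob (c o.1 o.2) z)) := by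
    funext o
    obtain ⟨f, w⟩ := o
    exact enc_apply mob hs f w z
  rw [h1]
  have hb : Measurable fun o : Dif × ℝ => b o.1 := measurable_b.comp measurable_fst
  have h2 : Measurable fun o : Dif × ℝ => mob (c o.1 o.2) z :=
    hm.comp (measurable_c.prodMk measurable_const)
  have h3 : Measurable fun o : Dif × ℝ => o.1 (b o.1 * mob (c o.1 o.2) z) :=
    measurable_dif_apply.comp (measurable_fst.prodMk (hb.mul h2))
  exact hm.comp (measurable_c.neg.prodMk (hb.inv.mul h3))

theorem cj_enc (mob : ℝ → Dif) (f : Dif) (w : ℝ) : Cj f (enc mob f w) := by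
  refine ⟨hm (kap mob f w).symm, fun z => ?_⟩
  rw [hm_coe]
  have h1 : enc mob f w ((kap mob f w).symm z) =
      (kap mob f w).symm (f ((kap mob f w) ((kap mob f w).symm z))) := rfl
  rw [h1, Diffeomorph.apply_symm_apply]

theorem enc_one (mob : ℝ → Dif) (hs : ∀ t z, (mob t).symm z = mob (-t) z) (h1 : ∀ t, mob t 1 = 1)
    (hc : ∀ t w, mob t (cay w) = cay (w + t)) {f : Dif} (hf : ∃ z, f z ≠ z) (w : ℝ) :
    enc mob f w 1 = cay w := by
  have h2 : f (b f) / b f ≠ 1 := by
    intro h
    exact b_moved hf (div_eq_one.1 h)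
  rw [enc_apply mob hs, h1, mul_one, inv_mul_eq_div, ← cay_acay h2, hc]
  congr 1
  unfold c
  ring

end AbsbAux

theorem absorb : ∃ enc : Dif → ℝ → Dif, Measurable (Function.uncurry enc) ∧
    ∀ f : Dif, (∃ z, f z ≠ z) → ∀ w : ℝ, Cj f (enc f w) ∧ enc f w 1 = cay w := by
  obtain ⟨mob, h1, hc, hm, hs⟩ := exists_mob
  exact ⟨AbsbAux.enc mob, AbsbAux.measurable_enc mob hs hm, fun f hf w =>
    ⟨AbsbAux.cj_enc mob f w, AbsbAux.enc_one mob hs h1 hc hf w⟩⟩

end Pool.Agent.CIR
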