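import Pool.Agent.Lib.CIR.Smo
import Pool.Agent.Lib.CIR.Top

/-!
# CIR.Asm: measurable families of diffeomorphisms from measurable families of lifts

PROOF of `exists_measurable_dif`: for `o ∈ W` choose `s o` by `exists_dif`, for `o ∉ W` let `s o` be the identity (`Diffeomorph.refl`). By `measurable_dif_iff` we have to show that `o ↦ s o z` is measurable for every `z`; `z = E x` (`E_surj`),
and `s o z = E (G o x)` if `o ∈ W` and `z` otherwise: `Measurable.ite`, `continuous_E.measurable`.
PROOF of `glue`: if `ι` is empty take the constant map. Otherwise take a surjection `ℕ → ι` (`exists_surjective_nat`), so we may assume `ι = ℕ`; for `h` in the union use the least `n` with `h ∈ A n` (`disjointed`,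
`exists_measurable_piecewise`, or `measurable_from_nat`-style: `{h | s' h ∈ B} = ⋃ n, disjointed A n ∩ (s n)⁻¹ B` and the remaining part), and the constant map outside the union.
-/

set_option autoImplicit false

open Set
open scoped ContDiff Manifold

namespace Pool.Agent.CIR

theorem exists_measurable_dif {Ω : Type*} [MeasurableSpace Ω] {W : Set Ω} (hW : MeasurableSet W) (G : Ω → ℝ → ℝ)
    (hG : ∀ o ∈ W, (Pos (G o) ∨ Neg (G o)) ∧ ContDiff ℝ ∞ (G o) ∧ ∀ x, deriv (G o) x ≠ 0)
    (hm : ∀ x, Measurable fun o => G o x) : ∃ s : Ω → Dif, Measurable s ∧ ∀ o ∈ W, Lft (s o) (G o) := by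
  classical
  have h : ∀ o, ∃ f : Dif, (o ∈ W → Lft f (G o)) ∧
      (o ∉ W → f = Diffeomorph.refl 𝓘(ℝ, EuclideanSpace ℝ (Fin 1)) Circle ∞) := by
    intro o
    by_cases ho : o ∈ W
    · obtain ⟨h1, h2, h3⟩ := hG o ho
      obtain ⟨f, hf⟩ := exists_dif h1 h2 h3
      exact ⟨f, fun _ => hf, fun h => absurd ho h⟩
    · exact ⟨_, fun h => absurd h ho, fun _ => rfl⟩
  choose s hs1 hs2 using h
  refine ⟨s, measurable_dif_iff.2 fun z => ?_, hs1⟩
  obtain ⟨x, rfl⟩ := E_surj z
  have h4 : (fun o => s o (E x)) = fun o => if o ∈ W then E (G o x) else E x := by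
    funext o
    by_cases ho : o ∈ W
    · rw [if_pos ho]
      exact (hs1 o ho x).symm
    · rw [if_neg ho, hs2 o ho]
      rfl
  rw [h4]
  exact Measurable.ite hW (continuous_E.measurable.comp (hm x)) measurable_const

theorem glue {ι : Type*} [Countable ι] (A : ι → Set H) (hA : ∀ i, MeasurableSet (A i)) (s : ι → H → Dif)
    (hs : ∀ i, Measurable (s i)) (hc : ∀ i, ∀ h ∈ A i, Cj h (s i h)) :
    ∃ s' : H → Dif, Measurable s' ∧ ∀ i, ∀ h ∈ A i, Cj h (s' h) := by
  classical
  rcases isEmpty_or_nonempty ι with hι | hι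
  · exact ⟨fun _ => Diffeomorph.refl 𝓘(ℝ, EuclideanSpace ℝ (Fin 1)) Circle ∞, measurable_const,
      fun i => (hι.false i).elim⟩
  obtain ⟨e, he⟩ := exists_surjective_nat ι
  have hmA : ∀ n, MeasurableSet (disjointed (fun n => A (e n)) n) := fun n =>
    MeasurableSet.disjointed (fun n => hA (e n)) n
  obtain ⟨f, hf, hfe⟩ := exists_measurable_piecewise (disjointed fun n => A (e n)) hmA
    (fun n => s (e n)) (fun n => hs (e n)) (by
      intro i j hij x hx
      exact absurd hx.2 (Set.disjoint_left.1 (disjoint_disjointed (fun n => A (e n)) hij) hx.1))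
  refine ⟨f, hf, fun i h hi => ?_⟩
  obtain ⟨n, rfl⟩ := he i
  have h1 : h ∈ ⋃ m, disjointed (fun n => A (e n)) m := by
    rw [iUnion_disjointed]
    exact mem_iUnion.2 ⟨n, hi⟩
  obtain ⟨m, hm⟩ := mem_iUnion.1 h1
  have h2 : h ∈ A (e m) := disjointed_subset (fun n => A (e n)) m hm
  rw [hfe m hm]
  exact hc (e m) h h2

end Pool.Agent.CIR
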