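import Mathlib

/-!
# CIR.Bmp: a sequence of small smooth bumps on the rational intervals

PROOF. The set of pairs of rationals `(u, v)` with `0 < u < v < 1` is countable and nonempty, so there is a surjection `n ↦ (u n, v n)` of `ℕ` onto it (`exists_surjective_nat`); this gives the first two properties (for the second one choose rationals
`u, v` with `max 0 (x - ε / 2) < u < x < v < min 1 (x + ε / 2)`).
Let `β n x = expNegInvGlue (x - u n) * expNegInvGlue (v n - x)`: smooth, nonnegative, positive exactly for `u n < x < v n`, with compact support. For every `k`, `iteratedFDeriv ℝ k (β n)` is continuous with compact support, so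
`‖iteratedFDeriv ℝ k (β n) x‖ ≤ C n k` for all `x`, some `C n k ≥ 0` (also `|β n x| ≤ C n 0`, `|deriv (β n) x| ≤ C n 1`: `norm_iteratedFDeriv_zero`, `norm_iteratedFDeriv_eq_norm_iteratedDeriv`, `iteratedDeriv_one`).
Put `c n = (1 / 8) * (1 / 2) ^ n / (1 + ∑ k ∈ range (n + 2), C n k)` and `b n = c n * β n`. For `|σ n| ≤ 1` and `k ≤ n + 1`: `‖iteratedFDeriv ℝ k (σ n * b n) x‖ ≤ (1 / 8) * (1 / 2) ^ n`. For fixed `k` the bounds
`v k n = c n * C n k` are summable (all but finitely many `n` have `v k n ≤ (1 / 8) * (1 / 2) ^ n`: `Summable.of_norm_bounded_eventually` or split a finite set). `contDiff_tsum` gives the smoothness;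
`deriv_tsum` (or `hasDerivAt_tsum`) and `tsum` of the bounds give `|deriv| ≤ ∑ (1 / 8) * (1 / 2) ^ n = 1 / 4`.
-/

set_option autoImplicit false

open Set
open scoped ContDiff

namespace Pool.Agent.CIR

namespace BmpAux

/-- The bump on `(u, v)`. -/
noncomputable def bet (u v : ℝ) (x : ℝ) : ℝ := expNegInvGlue (x - u) * expNegInvGlue (v - x)

theorem bet_nonneg (u v x : ℝ) : 0 ≤ bet u v x :=
  mul_nonneg (expNegInvGlue.nonneg _) (expNegInvGlue.nonneg _)

theorem bet_pos (u v x : ℝ) : 0 < bet u v x ↔ u < x ∧ x < v := by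
  constructor
  · intro h
    by_contra hc
    have h0 : bet u v x = 0 := by
      unfold bet
      by_cases h1 : u < x
      · have h2 : v ≤ x := by
          by_contra h3
          exact hc ⟨h1, not_le.mp h3⟩
        rw [expNegInvGlue.zero_of_nonpos (x := v - x) (by linarith), mul_zero]
      · rw [expNegInvGlue.zero_of_nonpos (x := x - u) (by linarith [not_lt.mp h1]), zero_mul]
    linarith
  · rintro ⟨h1, h2⟩
    exact mul_pos (expNegInvGlue.pos_of_pos (by linarith)) (expNegInvGlue.pos_of_pos (by linarith))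

theorem bet_contDiff (u v : ℝ) : ContDiff ℝ ∞ (bet u v) := by
  unfold bet
  have h1 : ContDiff ℝ ∞ expNegInvGlue := expNegInvGlue.contDiff
  exact (h1.comp (contDiff_id.sub contDiff_const)).mul (h1.comp (contDiff_const.sub contDiff_id))

theorem bet_supp (u v : ℝ) : HasCompactSupport (bet u v) := by
  apply HasCompactSupport.intro (isCompact_Icc (a := u) (b := v))
  intro x hx
  have h1 : ¬ (u < x ∧ x < v) := fun h => hx ⟨h.1.le, h.2.le⟩
  have h2 : ¬ 0 < bet u v x := fun h => h1 ((bet_pos u v x).1 h)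
  exact le_antisymm (not_lt.mp h2) (bet_nonneg u v x)

theorem bet_bound (u v : ℝ) (k : ℕ) : ∃ C, ∀ x, ‖iteratedFDeriv ℝ k (bet u v) x‖ ≤ C := by
  have h1 : Continuous (iteratedFDeriv ℝ k (bet u v)) :=
    (bet_contDiff u v).continuous_iteratedFDeriv (by exact_mod_cast le_top)
  have h2 : HasCompactSupport (iteratedFDeriv ℝ k (bet u v)) := (bet_supp u v).iteratedFDeriv k
  exact h2.exists_bound_of_continuous h1

end BmpAux

open BmpAux

theorem exists_bumps : ∃ (u v : ℕ → ℚ) (b : ℕ → ℝ → ℝ), (∀ n, 0 < u n ∧ u n < v n ∧ v n < 1) ∧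
    (∀ x ∈ Ioo (0 : ℝ) 1, ∀ ε > 0, ∃ n, (u n : ℝ) < x ∧ x < v n ∧ (v n : ℝ) - u n < ε) ∧
    (∀ n x, 0 ≤ b n x) ∧ (∀ n x, 0 < b n x ↔ (u n : ℝ) < x ∧ x < v n) ∧
    ∀ σ : ℕ → ℝ, (∀ n, |σ n| ≤ 1) → (∀ x, Summable fun n => σ n * b n x) ∧
      ContDiff ℝ ∞ (fun x => ∑' n, σ n * b n x) ∧ ∀ x, |deriv (fun x => ∑' n, σ n * b n x) x| ≤ 1 / 4 := by
  have hne : Nonempty {p : ℚ × ℚ // 0 < p.1 ∧ p.1 < p.2 ∧ p.2 < 1} :=
    ⟨⟨(1 / 3, 1 / 2), by norm_num, by norm_num, by norm_num⟩⟩
  obtain ⟨f, hf⟩ := exists_surjective_nat {p : ℚ × ℚ // 0 < p.1 ∧ p.1 < p.2 ∧ p.2 < 1}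
  have hC : ∀ n k, ∃ C : ℝ, ∀ x, ‖iteratedFDeriv ℝ k (bet ((f n).1.1 : ℝ) ((f n).1.2 : ℝ)) x‖ ≤ C :=
    fun n k => bet_bound _ _ k
  choose C hC using hC
  have hC0 : ∀ n k, 0 ≤ C n k := fun n k => (norm_nonneg _).trans (hC n k 0)
  have hS : ∀ n, 0 ≤ ∑ k ∈ Finset.range (n + 2), C n k := fun n => Finset.sum_nonneg fun k _ => hC0 n k
  obtain ⟨c, hc⟩ : ∃ c : ℕ → ℝ, c = fun n => (1 / 8) * (1 / 2) ^ n / (1 + ∑ k ∈ Finset.range (n + 2), C n k) := ⟨_, rfl⟩
  have hcpos : ∀ n, 0 < c n := by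
    intro n
    rw [hc]
    have := hS n
    positivity
  have hck : ∀ n k, k < n + 2 → c n * C n k ≤ (1 / 8) * (1 / 2) ^ n := by
    intro n k hk
    have h1 : C n k ≤ 1 + ∑ k ∈ Finset.range (n + 2), C n k := by
      have := Finset.single_le_sum (f := fun k => C n k) (fun k _ => hC0 n k) (Finset.mem_range.2 hk)
      linarith
    have h2 : 0 < 1 + ∑ k ∈ Finset.range (n + 2), C n k := by linarith [hS n]
    rw [hc]
    simp only
    rw [div_mul_eq_mul_div, div_le_iff₀ h2]
    exact mul_le_mul_of_nonneg_left h1 (by positivity)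
  have hgeo : HasSum (fun n : ℕ => (1 / 8 : ℝ) * (1 / 2) ^ n) (1 / 4) := by
    have h := hasSum_geometric_two.mul_left (1 / 8 : ℝ)
    have e : (1 / 8 : ℝ) * 2 = 1 / 4 := by norm_num
    rw [e] at h
    exact h
  refine ⟨fun n => (f n).1.1, fun n => (f n).1.2, fun n x => c n * bet ((f n).1.1 : ℝ) ((f n).1.2 : ℝ) x, fun n => (f n).2, ?_, ?_, ?_, ?_⟩
  · intro x hx ε hε
    obtain ⟨p, hp1, hp2⟩ := exists_rat_btwn (max_lt hx.1 (by linarith : x - ε / 2 < x))
    obtain ⟨q, hq1, hq2⟩ := exists_rat_btwn (lt_min hx.2 (by linarith : x < x + ε / 2))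
    have h1 : (0 : ℝ) < p := (le_max_left _ _).trans_lt hp1
    have h2 : x - ε / 2 < p := (le_max_right _ _).trans_lt hp1
    have h3 : (q : ℝ) < 1 := hq2.trans_le (min_le_left _ _)
    have h4 : (q : ℝ) < x + ε / 2 := hq2.trans_le (min_le_right _ _)
    obtain ⟨n, hn⟩ := hf ⟨(p, q), by exact_mod_cast h1, by exact_mod_cast hp2.trans hq1, by exact_mod_cast h3⟩
    refine ⟨n, ?_, ?_, ?_⟩
    · simp only [hn]; exact hp2
    · simp only [hn]; exact hq1
    · simp only [hn]; linarith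
  · intro n x
    exact mul_nonneg (hcpos n).le (bet_nonneg _ _ _)
  · intro n x
    rw [← bet_pos]
    constructor
    · intro h
      exact pos_of_mul_pos_right h (hcpos n).le
    · intro h
      exact mul_pos (hcpos n) h
  · intro σ hσ
    have hform : ∀ n, (fun x => σ n * (c n * bet ((f n).1.1 : ℝ) ((f n).1.2 : ℝ) x)) =
        (σ n * c n) • bet ((f n).1.1 : ℝ) ((f n).1.2 : ℝ) := by
      intro n
      funext x
      simp only [Pi.smul_apply, smul_eq_mul]
      ring
    have hbd : ∀ (k n : ℕ) (x : ℝ), ‖iteratedFDeriv ℝ k (fun x => σ n * (c n * bet ((f n).1.1 : ℝ) ((f n).1.2 : ℝ) x)) x‖ ≤ c n * C n k := by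
      intro k n x
      rw [hform n, iteratedFDeriv_const_smul_apply]
      · rw [norm_smul, Real.norm_eq_abs, abs_mul, abs_of_pos (hcpos n), mul_assoc]
        have h1 : c n * ‖iteratedFDeriv ℝ k (bet ((f n).1.1 : ℝ) ((f n).1.2 : ℝ)) x‖ ≤ c n * C n k :=
          mul_le_mul_of_nonneg_left (hC n k x) (hcpos n).le
        have h2 : 0 ≤ c n * ‖iteratedFDeriv ℝ k (bet ((f n).1.1 : ℝ) ((f n).1.2 : ℝ)) x‖ :=
          mul_nonneg (hcpos n).le (norm_nonneg _)
        calc |σ n| * (c n * ‖iteratedFDeriv ℝ k (bet ((f n).1.1 : ℝ) ((f n).1.2 : ℝ)) x‖)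
            ≤ 1 * (c n * ‖iteratedFDeriv ℝ k (bet ((f n).1.1 : ℝ) ((f n).1.2 : ℝ)) x‖) :=
              mul_le_mul_of_nonneg_right (hσ n) h2
          _ ≤ c n * C n k := by rw [one_mul]; exact h1
      · exact ((bet_contDiff _ _).of_le (by exact_mod_cast le_top)).contDiffAt
    have hsm : ∀ k : ℕ, Summable (fun n => c n * C n k) := by
      intro k
      apply Summable.of_norm_bounded_eventually_nat hgeo.summable
      filter_upwards [Filter.eventually_ge_atTop k] with n hn
      rw [Real.norm_eq_abs, abs_of_nonneg (mul_nonneg (hcpos n).le (hC0 n k))]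
      exact hck n k (by omega)
    have hcd : ∀ n, ContDiff ℝ ∞ (fun x => σ n * (c n * bet ((f n).1.1 : ℝ) ((f n).1.2 : ℝ) x)) := by
      intro n
      exact contDiff_const.mul (contDiff_const.mul (bet_contDiff _ _))
    have hsum : ∀ x, Summable fun n => σ n * (c n * bet ((f n).1.1 : ℝ) ((f n).1.2 : ℝ) x) := by
      intro x
      apply Summable.of_norm_bounded (hsm 0)
      intro n
      have := hbd 0 n x
      rwa [norm_iteratedFDeriv_zero] at this
    refine ⟨hsum, ?_, ?_⟩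
    · exact contDiff_tsum hcd (fun k _ => hsm k) (fun k n x _ => hbd k n x)
    · intro x
      have hd : ∀ n y, HasDerivAt (fun x => σ n * (c n * bet ((f n).1.1 : ℝ) ((f n).1.2 : ℝ) x))
          (deriv (fun x => σ n * (c n * bet ((f n).1.1 : ℝ) ((f n).1.2 : ℝ) x)) y) y := by
        intro n y
        exact ((hcd n).differentiable (by simp)).differentiableAt.hasDerivAt
      have hd' : ∀ n y, ‖deriv (fun x => σ n * (c n * bet ((f n).1.1 : ℝ) ((f n).1.2 : ℝ) x)) y‖ ≤ (1 / 8 : ℝ) * (1 / 2) ^ n := by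
        intro n y
        have h1 := hbd 1 n y
        rw [norm_iteratedFDeriv_eq_norm_iteratedDeriv, iteratedDeriv_one] at h1
        exact h1.trans (hck n 1 (by omega))
      have h := hasDerivAt_tsum hgeo.summable hd hd' (hsum 0) x
      rw [h.deriv, ← Real.norm_eq_abs]
      exact tsum_of_norm_bounded hgeo fun n => hd' n x

end Pool.Agent.CIR
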