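import Mathlib

/-!
# CIR.CB: the Cantor-Bernstein theorem for quotients of standard Borel spaces

PROOF. `i`, `j` are measurable embeddings (`Measurable.measurableEmbedding`). Put `A 0 = (range j)ᶜ`, `A (n + 1) = j '' (i '' A n)`, `A = ⋃ n, A n` (measurable: images of measurable sets under measurable embeddings).
Define `Φ x = i x` for `x ∈ A` and `Φ x = y` with `j y = x` for `x ∉ A` (then `x ∈ range j`). `Φ` is a bijection (usual Cantor-Bernstein argument) and measurable with measurable inverse
(piecewise; the inverse of a measurable embedding is measurable on its range: `MeasurableEmbedding.measurable_extend` or `MeasurableEmbedding.equivRange`; or: a measurable bijection of standard Borel spaces is an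
isomorphism, `MeasurableEquiv.ofBijective`-like, `Measurable.measurableEmbedding` again). In both cases `S (Φ x) (i x)`: trivial, or `x = j y`, `S (i (j y)) y`. So
`R x x' ↔ S (i x) (i x') ↔ S (Φ x) (Φ x')`.
(Look at the proof of `MeasurableEmbedding.schroederBernstein` in Mathlib: it can be copied, only the last property has to be added.)
-/

set_option autoImplicit false

open Set

namespace Pool.Agent.CIR

theorem cantor_bernstein {X Y : Type*} [MeasurableSpace X] [StandardBorelSpace X] [MeasurableSpace Y] [StandardBorelSpace Y]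
    {R : X → X → Prop} {S : Y → Y → Prop} (hS : Equivalence S) {i : X → Y} {j : Y → X}
    (hi : Measurable i) (hj : Measurable j) (hi' : Function.Injective i) (hj' : Function.Injective j)
    (hR : ∀ x x', R x x' ↔ S (i x) (i x')) (hij : ∀ y, S (i (j y)) y) :
    ∃ Φ : X ≃ᵐ Y, ∀ x x', R x x' ↔ S (Φ x) (Φ x') := by
  classical
  have ei : MeasurableEmbedding i := hi.measurableEmbedding hi'
  have ej : MeasurableEmbedding j := hj.measurableEmbedding hj'
  let A : ℕ → Set X := fun n => Nat.rec (range j)ᶜ (fun _ B => j '' (i '' B)) n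
  have A0 : A 0 = (range j)ᶜ := rfl
  have AS : ∀ n, A (n + 1) = j '' (i '' A n) := fun n => rfl
  have hAm : ∀ n, MeasurableSet (A n) := by
    intro n
    induction n with
    | zero => rw [A0]; exact ej.measurableSet_range.compl
    | succ n ih =>
      rw [AS]
      exact ej.measurableSet_image' (ei.measurableSet_image' ih)
  have hBm : MeasurableSet (⋃ n, A n) := MeasurableSet.iUnion hAm
  have hcompl : ∀ x, x ∉ (⋃ n, A n) → ∃ y, j y = x := by
    intro x hx
    by_contra hne
    exact hx (mem_iUnion.2 ⟨0, by rw [A0]; exact fun h => hne h⟩)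
  have hstep : ∀ x, x ∈ (⋃ n, A n) → j (i x) ∈ (⋃ n, A n) := by
    intro x hx
    obtain ⟨n, hn⟩ := mem_iUnion.1 hx
    exact mem_iUnion.2 ⟨n + 1, by rw [AS]; exact ⟨i x, ⟨x, hn, rfl⟩, rfl⟩⟩
  let g : X → Y := fun x => if h : x ∈ (⋃ n, A n) then i x else (hcompl x h).choose
  have hg1 : ∀ x, x ∈ (⋃ n, A n) → g x = i x := fun x hx => dif_pos hx
  have hg2 : ∀ x, x ∉ (⋃ n, A n) → j (g x) = x := by
    intro x hx
    have h1 : g x = (hcompl x hx).choose := dif_neg hx
    rw [h1]
    exact (hcompl x hx).choose_spec
  have hginj : Function.Injective g := by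
    intro x x' hxx
    by_cases hx : x ∈ (⋃ n, A n)
    · by_cases hx' : x' ∈ (⋃ n, A n)
      · rw [hg1 x hx, hg1 x' hx'] at hxx
        exact hi' hxx
      · exfalso
        apply hx'
        rw [← hg2 x' hx', ← hxx, hg1 x hx]
        exact hstep x hx
    · by_cases hx' : x' ∈ (⋃ n, A n)
      · exfalso
        apply hx
        rw [← hg2 x hx, hxx, hg1 x' hx']
        exact hstep x' hx'
      · rw [← hg2 x hx, ← hg2 x' hx', hxx]
  have hgsurj : Function.Surjective g := by
    intro y
    by_cases hy : j y ∈ (⋃ n, A n)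
    · obtain ⟨n, hn⟩ := mem_iUnion.1 hy
      cases n with
      | zero =>
        rw [A0] at hn
        exact absurd (mem_range_self y) hn
      | succ n =>
        rw [AS] at hn
        obtain ⟨z, ⟨x, hx, hxz⟩, hzy⟩ := hn
        have hz : z = y := hj' hzy
        refine ⟨x, ?_⟩
        rw [hg1 x (mem_iUnion.2 ⟨n, hx⟩), hxz, hz]
    · exact ⟨j y, hj' (hg2 (j y) hy)⟩
  have hgm : Measurable g := by
    intro s hs
    have h1 : g ⁻¹' s = ((⋃ n, A n) ∩ i ⁻¹' s) ∪ ((⋃ n, A n)ᶜ ∩ j '' s) := by
      ext x
      constructor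
      · intro hx
        by_cases hxa : x ∈ (⋃ n, A n)
        · left
          refine ⟨hxa, ?_⟩
          have h2 : g x ∈ s := hx
          rw [hg1 x hxa] at h2
          exact h2
        · right
          exact ⟨hxa, ⟨g x, hx, hg2 x hxa⟩⟩
      · rintro (⟨hxa, hx⟩ | ⟨hxa, y, hy, hyx⟩)
        · change g x ∈ s
          rw [hg1 x hxa]
          exact hx
        · change g x ∈ s
          have h3 : j (g x) = j y := (hg2 x hxa).trans hyx.symm
          rw [hj' h3]
          exact hy
    rw [h1]
    exact (hBm.inter (hi hs)).union (hBm.compl.inter (ej.measurableSet_image' hs))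
  have hge : MeasurableEmbedding g := hgm.measurableEmbedding hginj
  let e : X ≃ Y := Equiv.ofBijective g ⟨hginj, hgsurj⟩
  have hsymm : Measurable e.symm := by
    intro t ht
    have h1 : e.symm ⁻¹' t = g '' t := by
      ext y
      constructor
      · intro hy
        exact ⟨e.symm y, hy, e.apply_symm_apply y⟩
      · rintro ⟨x, hx, rfl⟩
        have h2 : e.symm (g x) = x := e.symm_apply_apply x
        change e.symm (g x) ∈ t
        rw [h2]
        exact hx
    rw [h1]
    exact hge.measurableSet_image' ht
  have hSg : ∀ x, S (g x) (i x) := by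
    intro x
    by_cases hx : x ∈ (⋃ n, A n)
    · rw [hg1 x hx]
      exact hS.refl _
    · have h1 := hij (g x)
      rw [hg2 x hx] at h1
      exact hS.symm h1
  refine ⟨⟨e, hgm, hsymm⟩, ?_⟩
  intro x x'
  change R x x' ↔ S (g x) (g x')
  rw [hR x x']
  constructor
  · intro h
    exact hS.trans (hSg x) (hS.trans h (hS.symm (hSg x')))
  · intro h
    exact hS.trans (hS.symm (hSg x)) (hS.trans h (hSg x'))

end Pool.Agent.CIR
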