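import Pool.Agent.Lib.CIR.Bas

/-!
# CIR.Cay: the Cayley transform

PROOF. `cay_coe`: `cay w = (w + i) / (w - i)`.
`cay_ne_one`: `w + i ≠ w - i`. `acay_cay`: with `z = (w + i) / (w - i)`: `z + 1 = 2 w / (w - i)`, `z - 1 = 2 i / (w - i)`, so `i (z + 1) / (z - 1) = w`.
`cay_acay`: for `z` on the circle, `z ≠ 1`, the number `v = i (z + 1) / (z - 1)` is real: `conj z = 1 / z`, so `conj v = - i (1 / z + 1) / (1 / z - 1) = - i (1 + z) / (1 - z) = v`; so `v = acay z`, and
`(v + i) / (v - i) = (i (z + 1) + i (z - 1)) / (i (z + 1) - i (z - 1)) = 2 i z / (2 i) = z`.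
`measurable_acay`: continuous operations and division of complex valued measurable functions (`Circle → ℂ` is continuous: `continuous_subtype_val` or `Circle.continuous_coe`-like).
-/

set_option autoImplicit false

open Set

namespace Pool.Agent.CIR

/-- The inverse of the Cayley transform. -/
noncomputable def acay (z : Circle) : ℝ := (Complex.I * ((z : ℂ) + 1) / ((z : ℂ) - 1)).re

theorem cay_ne_one (w : ℝ) : cay w ≠ 1 := by
  intro h
  have h1 : (cay w : ℂ) = 1 := by rw [h]; rfl
  rw [cay_coe, div_eq_one_iff_eq (sub_I_ne w)] at h1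
  have h2 := congrArg Complex.im h1
  simp at h2
  norm_num at h2

theorem cay_injective : Function.Injective cay := by
  intro a b h
  have h1 : (cay a : ℂ) = cay b := by rw [h]
  rw [cay_coe, cay_coe, div_eq_div_iff (sub_I_ne a) (sub_I_ne b)] at h1
  have h2 := congrArg Complex.im h1
  simp at h2
  linarith

theorem acay_cay (w : ℝ) : acay (cay w) = w := by
  have hs := sub_I_ne w
  have h1 : Complex.I * (((w : ℂ) + Complex.I) / ((w : ℂ) - Complex.I) + 1) /
      (((w : ℂ) + Complex.I) / ((w : ℂ) - Complex.I) - 1) = (w : ℂ) := by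
    rw [div_add_one hs, div_sub_one hs, mul_div_assoc, div_div_div_cancel_right₀ hs]
    have h2 : (w : ℂ) + Complex.I - ((w : ℂ) - Complex.I) = 2 * Complex.I := by ring
    have h3 : (w : ℂ) + Complex.I + ((w : ℂ) - Complex.I) = 2 * w := by ring
    have h4 : (Complex.I : ℂ) ≠ 0 := Complex.I_ne_zero
    rw [h2, h3]
    field_simp
  unfold acay
  rw [cay_coe, h1, Complex.ofReal_re]

theorem cay_acay {z : Circle} (hz : z ≠ 1) : cay (acay z) = z := by
  have hz1 : (z : ℂ) - 1 ≠ 0 := by
    intro h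
    apply hz
    apply Circle.ext
    rw [sub_eq_zero] at h
    rw [h]
    rfl
  have hz0 : (z : ℂ) ≠ 0 := Circle.coe_ne_zero z
  have hz2 : (1 : ℂ) - z ≠ 0 := by
    intro h
    apply hz1
    rw [sub_eq_zero] at h ⊢
    exact h.symm
  have hI : (Complex.I : ℂ) ≠ 0 := Complex.I_ne_zero
  have hconj : (starRingEnd ℂ) (z : ℂ) = (z : ℂ)⁻¹ := by
    rw [← Circle.coe_inv_eq_conj, Circle.coe_inv]
  have hreal : (starRingEnd ℂ) (Complex.I * ((z : ℂ) + 1) / ((z : ℂ) - 1)) =
      Complex.I * ((z : ℂ) + 1) / ((z : ℂ) - 1) := by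
    rw [map_div₀, map_mul, map_add, map_sub, Complex.conj_I, hconj, map_one]
    have h5 : (z : ℂ)⁻¹ - 1 ≠ 0 := by
      have h6 : (z : ℂ)⁻¹ - 1 = (1 - z) / z := by
        field_simp
      rw [h6]
      exact div_ne_zero hz2 hz0
    rw [div_eq_div_iff h5 hz1]
    field_simp
    ring
  have hv : (acay z : ℂ) = Complex.I * ((z : ℂ) + 1) / ((z : ℂ) - 1) :=
    Complex.conj_eq_iff_re.1 hreal
  apply Circle.ext
  rw [cay_coe, hv]
  have h7 : Complex.I * ((z : ℂ) + 1) / ((z : ℂ) - 1) + Complex.I =
      2 * Complex.I * z / ((z : ℂ) - 1) := by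
    field_simp
    ring
  have h8 : Complex.I * ((z : ℂ) + 1) / ((z : ℂ) - 1) - Complex.I =
      2 * Complex.I / ((z : ℂ) - 1) := by
    field_simp
    ring
  rw [h7, h8, div_div_div_cancel_right₀ hz1]
  field_simp

theorem measurable_acay : Measurable acay := by
  have h : Measurable fun z : Circle => (z : ℂ) := by
    have hc : Continuous fun z : Circle => (z : ℂ) := by fun_prop
    exact hc.measurable
  exact Complex.measurable_re.comp
    ((measurable_const.mul (h.add measurable_const)).div (h.sub measurable_const))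

end Pool.Agent.CIR
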