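import Pool.Agent.Lib.CIR.Lift

/-!
# CIR.Cover: coprime pairs for homeomorphisms with periodic points

PROOF of `exists_int_of_per`: `h^[n] z = z`, `z = E x`; `E (F^[n] x) = h^[n] (E x) = E x` (`Lft.iter`), so `F^[n] x = x + m` (`E_eq_iff`).
PROOF of `cover`. Let `q` be the least `n > 0` such that there are `x : ℝ`, `m : ℤ` with `F^[n] x = x + m` (`Nat.find`), and `x, p` with `F^[q] x = x + p`. CLAIM: `p` and `q` are coprime. Let `d = gcd (p, q)`, `q = d q'`, `p = d p'`, `q' > 0`, and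
`K y = F^[q'] y - p'`, strictly increasing. `K^[d] x = F^[d q'] x - d p' = x` (`Pos.sub_int` for `F^[q']`: `K^[j] y = F^[j q'] y - j p'` by induction). If `x < K x` then `x < K x < K (K x) < ..`, so `x < K^[d] x` (`d ≥ 1`), contradiction; similarly for
`K x < x`. So `K x = x`, `F^[q'] x = x + p'`, and `q ≤ q'` by minimality, so `d = 1`. (`CircleDeg1Lift.iterate_pos_eq_iff` does this: `(F^[q'])^[d] x = x + d * p' ↔ F^[q'] x = x + p'`, with `(hF.iter q').cdl`.)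
-/

set_option autoImplicit false

open Set

namespace Pool.Agent.CIR

theorem exists_int_of_per {h : Circle → Circle} {F : ℝ → ℝ} (hF : Lft h F) (hp : Per h) :
    ∃ n : ℕ, 0 < n ∧ ∃ (x : ℝ) (m : ℤ), F^[n] x = x + m := by
  obtain ⟨n, hn, z, hz⟩ := hp
  obtain ⟨x, rfl⟩ := E_surj z
  refine ⟨n, hn, x, ?_⟩
  apply E_eq_iff.1
  rw [hF.iter n x, hz]

theorem cover {F : ℝ → ℝ} (hF : Pos F) (hp : ∃ n : ℕ, 0 < n ∧ ∃ (x : ℝ) (m : ℤ), F^[n] x = x + m) :
    ∃ (q : ℕ) (p : ℤ), 0 < q ∧ IsCoprime p (q : ℤ) ∧ ∃ x, F^[q] x = x + p := by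
  classical
  obtain ⟨hq0, x, p, hx⟩ := Nat.find_spec hp
  have hmin : ∀ n : ℕ, n < Nat.find hp → ¬ (0 < n ∧ ∃ (x : ℝ) (m : ℤ), F^[n] x = x + m) :=
    fun n hn => Nat.find_min hp hn
  generalize hqdef : Nat.find hp = q at hq0 hx hmin
  refine ⟨q, p, hq0, ?_, x, hx⟩
  rw [Int.isCoprime_iff_gcd_eq_one]
  by_contra hne
  set d : ℕ := Int.gcd p q with hd
  have hd0 : 0 < d := Int.gcd_pos_of_ne_zero_right _ (by exact_mod_cast hq0.ne')
  have hdq : (d : ℤ) ∣ (q : ℤ) := Int.gcd_dvd_right p q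
  have hdp : (d : ℤ) ∣ p := Int.gcd_dvd_left p q
  obtain ⟨p', hp'⟩ := hdp
  obtain ⟨q', hq'⟩ := (Int.natCast_dvd_natCast.1 hdq)
  have hq'0 : 0 < q' := by
    rcases Nat.eq_zero_or_pos q' with h | h
    · rw [h] at hq'
      omega
    · exact h
  have hlt : q' < q := by
    have h2 : 2 ≤ d := by omega
    nlinarith
  apply hmin q' hlt
  refine ⟨hq'0, x, p', ?_⟩
  have key := (hF.iter q').cdl.iterate_pos_eq_iff (x := x) (m := p') hd0
  rw [Pos.cdl_coe] at key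
  apply key.1
  rw [← Function.iterate_mul, mul_comm q' d, ← hq', hx, hp']
  push_cast
  ring

end Pool.Agent.CIR
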