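import Mathlib

/-!
# CIR.Defs: homeomorphisms and diffeomorphisms of the circle, lifts

`E x = exp (2 π i x)` is the universal cover of the circle.
-/

set_option autoImplicit false

open Set
open scoped ContDiff Manifold

namespace Pool.Agent.CIR

/-- The Borel sets of the circle. -/
noncomputable scoped instance circleMeas : MeasurableSpace Circle := borel Circle

scoped instance circleBorel : BorelSpace Circle := ⟨rfl⟩

/-- The universal cover. -/
noncomputable def E (x : ℝ) : Circle := Circle.exp (2 * Real.pi * x)

/-- Homeomorphisms of the circle. -/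
abbrev H := Circle ≃ₜ Circle

/-- Smooth diffeomorphisms of the circle. -/
abbrev Dif := Circle ≃ₘ⟮𝓘(ℝ, EuclideanSpace ℝ (Fin 1)), 𝓘(ℝ, EuclideanSpace ℝ (Fin 1))⟯ Circle

/-- The σ-algebra generated by the evaluations. -/
noncomputable scoped instance difMeas : MeasurableSpace Dif := ⨆ z : Circle, MeasurableSpace.comap (fun f : Dif => f z) (borel Circle)

/-- The topology of uniform convergence of the homeomorphisms and their inverses. -/
noncomputable scoped instance homTop : TopologicalSpace H :=
  TopologicalSpace.induced (fun h : H => ((⟨h, h.continuous⟩ : C(Circle, Circle)),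
    (⟨h.symm, h.symm.continuous⟩ : C(Circle, Circle)))) inferInstance

noncomputable scoped instance homMeas : MeasurableSpace H := borel H

scoped instance homBorel : BorelSpace H := ⟨rfl⟩

/-- `f` and `g` are conjugate by a homeomorphism. -/
def Cj (f g : Circle → Circle) : Prop := ∃ h : H, ∀ z, h (f z) = g (h z)

/-- `f` has a periodic point. -/
def Per (f : Circle → Circle) : Prop := ∃ n : ℕ, 0 < n ∧ ∃ z, f^[n] z = z

/-- Continuous, strictly increasing, of degree one. -/
def Pos (F : ℝ → ℝ) : Prop := Continuous F ∧ StrictMono F ∧ ∀ x, F (x + 1) = F x + 1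

/-- Continuous, strictly decreasing, of degree minus one. -/
def Neg (F : ℝ → ℝ) : Prop := Continuous F ∧ StrictAnti F ∧ ∀ x, F (x + 1) = F x - 1

/-- `F` is a lift of `h`. -/
def Lft (h : Circle → Circle) (F : ℝ → ℝ) : Prop := ∀ x, E (F x) = h (E x)

theorem sub_I_ne (w : ℝ) : (w : ℂ) - Complex.I ≠ 0 := by
  intro h3
  have h4 := congrArg Complex.im h3
  simp at h4

/-- The Cayley transform `(w + i) / (w - i)` of the real line onto the circle without `1`. -/
noncomputable def cay (w : ℝ) : Circle := Circle.ofConjDivSelf ((w : ℂ) - Complex.I) (sub_I_ne w)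

theorem cay_coe (w : ℝ) : (cay w : ℂ) = ((w : ℂ) + Complex.I) / ((w : ℂ) - Complex.I) := by
  show (starRingEnd ℂ) ((w : ℂ) - Complex.I) / ((w : ℂ) - Complex.I) = _
  rw [map_sub, Complex.conj_ofReal, Complex.conj_I, sub_neg_eq_add]

end Pool.Agent.CIR
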