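import Mathlib

/-!
# CIR.DenA: distortion of iterates

PROOF of `exists_lip`: `g x = Real.log (deriv F x)` is differentiable with continuous derivative (`ContDiff.log`, `contDiff` of `deriv F`), and `g (x + 1) = g x` (differentiate `h1`: `deriv F (x + 1) = deriv F x`), so `deriv g` is periodic and continuous,
hence bounded by some `L` (compactness of `Icc 0 1`, `Function.Periodic`); mean value inequality (`Convex.norm_image_sub_le_of_norm_deriv_le` on `univ`).
PROOF of `deriv_iter`: induction, chain rule (`Function.iterate_succ'`, `Finset.prod_range_succ`).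
PROOF of `distortion`: all factors of `deriv_iter` are positive; `log (deriv F^[n] x) - log (deriv F^[n] y) = ∑ (log (deriv F (F^[i] x)) - log (deriv F (F^[i] y))) ≤ L * ∑ |F^[i] x - F^[i] y| ≤ L`.
-/

set_option autoImplicit false

open Set
open scoped ContDiff

namespace Pool.Agent.CIR

namespace DenAAux

theorem deriv_add_one {F : ℝ → ℝ} {c : ℝ} (h1 : ∀ x, F (x + 1) = F x + c) (x : ℝ) :
    deriv F (x + 1) = deriv F x := by
  have h2 : deriv (fun y => F (y + 1)) x = deriv F (x + 1) := deriv_comp_add_const F 1 x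
  rw [← h2, funext h1, deriv_add_const]

end DenAAux

theorem exists_lip {F : ℝ → ℝ} (hs : ContDiff ℝ ∞ F) (h1 : ∀ x, F (x + 1) = F x + 1) (hd : ∀ x, 0 < deriv F x) :
    ∃ L : ℝ, 0 ≤ L ∧ ∀ x y, |Real.log (deriv F x) - Real.log (deriv F y)| ≤ L * |x - y| := by
  have hF' : ContDiff ℝ ∞ (deriv F) := (contDiff_infty_iff_deriv.1 hs).2
  have hg : ContDiff ℝ ∞ (fun x => Real.log (deriv F x)) := hF'.log fun x => (hd x).ne'
  have hc : Continuous (deriv (fun x => Real.log (deriv F x))) := hg.continuous_deriv (by simp)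
  have hgd : Differentiable ℝ (fun x => Real.log (deriv F x)) := hg.differentiable (by simp)
  have hp : Function.Periodic (deriv (fun x => Real.log (deriv F x))) 1 := by
    intro x
    refine DenAAux.deriv_add_one (c := 0) (fun y => ?_) x
    rw [DenAAux.deriv_add_one h1 y, add_zero]
  obtain ⟨C, hC⟩ := isCompact_Icc.exists_bound_of_continuousOn (s := Icc (0 : ℝ) 1) hc.continuousOn
  have hb : ∀ x, ‖deriv (fun x => Real.log (deriv F x)) x‖ ≤ max C 0 := by
    intro x
    obtain ⟨y, hy, hxy⟩ := hp.exists_mem_Ico₀ one_pos x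
    rw [hxy]
    exact (hC y ⟨hy.1, hy.2.le⟩).trans (le_max_left _ _)
  refine ⟨max C 0, le_max_right _ _, fun x y => ?_⟩
  have h2 := Convex.norm_image_sub_le_of_norm_deriv_le (𝕜 := ℝ) (s := Set.univ) (x := y) (y := x)
    (f := fun x => Real.log (deriv F x)) (C := max C 0) (fun z _ => hgd z) (fun z _ => hb z)
    convex_univ (mem_univ _) (mem_univ _)
  simpa only [Real.norm_eq_abs] using h2

theorem deriv_iter {F : ℝ → ℝ} (hs : Differentiable ℝ F) (n : ℕ) (x : ℝ) :
    deriv F^[n] x = ∏ i ∈ Finset.range n, deriv F (F^[i] x) := by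
  induction n with
  | zero =>
    rw [Finset.prod_range_zero, Function.iterate_zero, deriv_id]
  | succ n ih =>
    rw [Finset.prod_range_succ, ← ih, Function.iterate_succ',
      deriv_comp x (hs _) ((hs.iterate n) x), mul_comm]

theorem distortion {F : ℝ → ℝ} (hs : Differentiable ℝ F) (hd : ∀ x, 0 < deriv F x) {L : ℝ} (hL0 : 0 ≤ L)
    (hL : ∀ x y, |Real.log (deriv F x) - Real.log (deriv F y)| ≤ L * |x - y|) {n : ℕ} {x y : ℝ}
    (h : ∑ i ∈ Finset.range n, |F^[i] x - F^[i] y| ≤ 1) : deriv F^[n] x ≤ Real.exp L * deriv F^[n] y := by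
  have hpos : ∀ z, 0 < deriv F^[n] z := by
    intro z
    rw [deriv_iter hs]
    exact Finset.prod_pos fun i _ => hd _
  have hlog : ∀ z, Real.log (deriv F^[n] z) = ∑ i ∈ Finset.range n, Real.log (deriv F (F^[i] z)) := by
    intro z
    rw [deriv_iter hs, Real.log_prod fun i _ => (hd _).ne']
  have h2 : Real.log (deriv F^[n] x) - Real.log (deriv F^[n] y) ≤ L := by
    rw [hlog, hlog, ← Finset.sum_sub_distrib]
    calc ∑ i ∈ Finset.range n, (Real.log (deriv F (F^[i] x)) - Real.log (deriv F (F^[i] y)))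
        ≤ ∑ i ∈ Finset.range n, L * |F^[i] x - F^[i] y| :=
          Finset.sum_le_sum fun i _ => (le_abs_self _).trans (hL _ _)
      _ = L * ∑ i ∈ Finset.range n, |F^[i] x - F^[i] y| := (Finset.mul_sum _ _ _).symm
      _ ≤ L * 1 := mul_le_mul_of_nonneg_left h hL0
      _ = L := mul_one L
  have h3 : Real.log (deriv F^[n] x) ≤ L + Real.log (deriv F^[n] y) := by linarith
  rw [← Real.exp_log (hpos x), ← Real.exp_log (hpos y), ← Real.exp_add]
  exact Real.exp_le_exp.2 h3

end Pool.Agent.CIR
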