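import Mathlib

/-!
# CIR.Dis: intervals which are disjoint modulo one have total length at most one

PROOF. If `s` is empty the claim is trivial. Let `m ≤ x i` and `y i ≤ M` for all `i ∈ s`. For `N : ℕ`, `N ≥ 1`, the intervals `Icc (x i + k) (y i + k)`, `i ∈ s`, `k ∈ Finset.range N`, are pairwise disjoint by `hd`
(if `v` lies in the intervals of `(i, k)` and `(j, k')`, then `w = v - k ∈ Icc (x i) (y i)` and `w + (k - k') ∈ Icc (x j) (y j)`), and all are contained in `Icc m (M + N)`. So (Lebesgue measure, `MeasureTheory.measure_biUnion_finset`,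
`Real.volume_Icc`) `N * ∑ (y i - x i) ≤ M + N - m`, i.e. `∑ (y i - x i) ≤ 1 + (M - m) / N` for all `N ≥ 1`; let `N → ∞`.
(Other possibility: the images in `AddCircle 1` are disjoint.)
-/

set_option autoImplicit false

open Set

namespace Pool.Agent.CIR

theorem sum_length_le {ι : Type*} (s : Finset ι) (x y : ι → ℝ) (hxy : ∀ i ∈ s, x i ≤ y i)
    (hd : ∀ i ∈ s, ∀ j ∈ s, ∀ k : ℤ, (i ≠ j ∨ k ≠ 0) → ∀ w ∈ Icc (x i) (y i), w + k ∉ Icc (x j) (y j)) :
    ∑ i ∈ s, (y i - x i) ≤ 1 := by
  classical
  set m : ℝ := -∑ i ∈ s, |x i| with hm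
  set M : ℝ := ∑ i ∈ s, |y i| with hM
  have hmx : ∀ i ∈ s, m ≤ x i := by
    intro i hi
    have h1 : |x i| ≤ ∑ i ∈ s, |x i| :=
      Finset.single_le_sum (f := fun i => |x i|) (fun j _ => abs_nonneg (x j)) hi
    have h2 := neg_abs_le (x i)
    linarith
  have hMy : ∀ i ∈ s, y i ≤ M := by
    intro i hi
    have h1 : |y i| ≤ ∑ i ∈ s, |y i| :=
      Finset.single_le_sum (f := fun i => |y i|) (fun j _ => abs_nonneg (y j)) hi
    have h2 := le_abs_self (y i)
    linarith
  have hmM : m ≤ 0 ∧ 0 ≤ M := by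
    constructor
    · rw [hm]
      have : 0 ≤ ∑ i ∈ s, |x i| := Finset.sum_nonneg fun i _ => abs_nonneg _
      linarith
    · exact Finset.sum_nonneg fun i _ => abs_nonneg _
  have key : ∀ N : ℕ, (N : ℝ) * ∑ i ∈ s, (y i - x i) ≤ M + N - m := by
    intro N
    have hdis : ((s ×ˢ Finset.range N : Finset (ι × ℕ)) : Set (ι × ℕ)).PairwiseDisjoint
        (fun p : ι × ℕ => Icc (x p.1 + p.2) (y p.1 + p.2)) := by
      rintro ⟨i, k⟩ hp ⟨j, k'⟩ hq hne
      simp only [Finset.coe_product, mem_prod, Finset.mem_coe] at hp hq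
      rw [Function.onFun, Set.disjoint_left]
      intro v hv hv'
      simp only at hv hv'
      have h1 : (i ≠ j ∨ ((k : ℤ) - k') ≠ 0) := by
        by_contra hc
        push Not at hc
        apply hne
        have : k = k' := by
          have := hc.2
          omega
        rw [hc.1, this]
      refine hd i hp.1 j hq.1 ((k : ℤ) - k') h1 (v - k) ⟨by linarith [hv.1], by linarith [hv.2]⟩ ?_
      push_cast
      exact ⟨by linarith [hv'.1], by linarith [hv'.2]⟩
    have hsub : (⋃ p ∈ (s ×ˢ Finset.range N : Finset (ι × ℕ)), Icc (x p.1 + p.2) (y p.1 + p.2)) ⊆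
        Icc m (M + N) := by
      intro v hv
      simp only [mem_iUnion, exists_prop] at hv
      obtain ⟨⟨i, k⟩, hp, hv⟩ := hv
      rw [Finset.mem_product, Finset.mem_range] at hp
      simp only at hp hv
      have h1 : (k : ℝ) ≤ N := by exact_mod_cast hp.2.le
      have h2 : (0 : ℝ) ≤ k := Nat.cast_nonneg k
      exact ⟨by linarith [hv.1, hmx i hp.1], by linarith [hv.2, hMy i hp.1]⟩
    have h1 := MeasureTheory.measure_mono (μ := MeasureTheory.volume) hsub
    rw [MeasureTheory.measure_biUnion_finset hdis (fun _ _ => measurableSet_Icc)] at h1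
    simp only [Real.volume_Icc, add_sub_add_right_eq_sub] at h1
    rw [← ENNReal.ofReal_sum_of_nonneg] at h1
    · rw [ENNReal.ofReal_le_ofReal_iff] at h1
      · rw [Finset.sum_product] at h1
        simp only [Finset.sum_const, Finset.card_range, nsmul_eq_mul] at h1
        rw [← Finset.mul_sum] at h1
        exact h1
      · have h2 : (0 : ℝ) ≤ N := Nat.cast_nonneg N
        linarith [hmM.1, hmM.2]
    · intro p hp
      rw [Finset.mem_product] at hp
      linarith [hxy p.1 hp.1]
  by_contra hc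
  push Not at hc
  obtain ⟨N, hN⟩ := exists_nat_gt ((M - m) / (∑ i ∈ s, (y i - x i) - 1))
  have h1 := key N
  rw [div_lt_iff₀ (by linarith)] at hN
  nlinarith

end Pool.Agent.CIR
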