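import Pool.Agent.Lib.CIR.Bas
import Pool.Agent.Lib.CIR.Dis

/-!
# CIR.DenB: disjoint arcs

First: `Φ (F^[i] z) = Φ z + i τ` and `Φ (z - m) = Φ z - m` (induction; integers), and `F^[i] (w - m) = F^[i] w - m` (`Pos.iter`, `Pos.sub_int`).

PROOF of `arcs_le`. Let `c = Φ z`, `δ = n τ - m`. For `i < n` let `B i = uIcc (F^[i] z) (F^[i] (F^[n] z - m))`; `F^[i] (F^[n] z - m) = F^[i + n] z - m`. By monotonicity `Φ w ∈ uIcc (c + i τ) (c + i τ + δ)` for `w ∈ B i` (`Monotone.mapsTo_uIcc`-like).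
Apply `sum_length_le` with `x i = min ..`, `y i = max ..` (`Icc (min a b) (max a b) = uIcc a b`, `max a b - min a b = |a - b|`, see `max_sub_min_eq_abs`). DISJOINTNESS: let `w ∈ B i`, `w + k ∈ B j`. Then `Φ (w + k) = Φ w + k`, so
`|(i - j) τ + k| ≤ |δ|`. If `i ≠ j`, `0 < |i - j| < n` and `hn` (with the integer `k` or `-k`) gives a contradiction. If `i = j` and `k ≠ 0`: `1 ≤ |k| ≤ |δ| < 1`, contradiction.
PROOF of `wander_le`. The same with `B i = uIcc (F^[i] x) (F^[i] y)`: here `Φ w = Φ x + i τ` for `w ∈ B i` (`Φ (F^[i] x) = Φ (F^[i] y)`); `w ∈ B i`, `w + k ∈ B j` gives `(i - j) τ + k = 0`, so `i = j` (`τ` irrational) and `k = 0`.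
-/

set_option autoImplicit false

open Set

namespace Pool.Agent.CIR

namespace DenBAux

theorem phi_sub_int {Φ : ℝ → ℝ} (hΦ1 : ∀ x, Φ (x + 1) = Φ x + 1) (x : ℝ) (m : ℤ) :
    Φ (x + m) = Φ x + m := by
  have hnat : ∀ (n : ℕ) (x : ℝ), Φ (x + n) = Φ x + n := by
    intro n
    induction n with
    | zero => intro x; simp
    | succ n ih =>
      intro x
      push_cast
      rw [← add_assoc, hΦ1, ih]
      ring
  obtain ⟨n, rfl | rfl⟩ := m.eq_nat_or_neg
  · exact_mod_cast hnat n x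
  · have h := hnat n (x + ((-(n : ℤ) : ℤ) : ℝ))
    push_cast at h ⊢
    have h2 : x + -(n : ℝ) + n = x := by ring
    rw [h2] at h
    linarith

theorem phi_iter {F Φ : ℝ → ℝ} {τ : ℝ} (hΦF : ∀ x, Φ (F x) = Φ x + τ) (i : ℕ) (x : ℝ) :
    Φ (F^[i] x) = Φ x + i * τ := by
  induction i with
  | zero => simp
  | succ i ih =>
    rw [Function.iterate_succ_apply', hΦF, ih]
    push_cast
    ring

theorem core {Φ : ℝ → ℝ} (hΦ : Monotone Φ) (hΦ1 : ∀ x, Φ (x + 1) = Φ x + 1) {τ c δ : ℝ} {n : ℕ}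
    (a b : ℕ → ℝ) (ha : ∀ i < n, Φ (a i) = c + i * τ) (hb : ∀ i < n, Φ (b i) = c + i * τ + δ)
    (hd : ∀ i < n, ∀ j < n, ∀ k : ℤ, (i ≠ j ∨ k ≠ 0) → |δ| < |((i : ℝ) - j) * τ + k|) :
    ∑ i ∈ Finset.range n, |a i - b i| ≤ 1 := by
  have h := sum_length_le (Finset.range n) (fun i => min (a i) (b i)) (fun i => max (a i) (b i))
    (fun i _ => min_le_max) ?_
  · calc ∑ i ∈ Finset.range n, |a i - b i|
        = ∑ i ∈ Finset.range n, (max (a i) (b i) - min (a i) (b i)) := by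
          refine Finset.sum_congr rfl fun i _ => ?_
          rw [max_sub_min_eq_abs, abs_sub_comm]
      _ ≤ 1 := h
  · intro i hi j hj k hk w hw hwk
    rw [Finset.mem_range] at hi hj
    have h1 : Φ w ∈ uIcc (c + i * τ) (c + i * τ + δ) := by
      have := hΦ.mapsTo_uIcc (a := a i) (b := b i) (x := w) hw
      rwa [ha i hi, hb i hi] at this
    have h2 : Φ (w + k) ∈ uIcc (c + j * τ) (c + j * τ + δ) := by
      have := hΦ.mapsTo_uIcc (a := a j) (b := b j) (x := w + k) hwk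
      rwa [ha j hj, hb j hj] at this
    rw [phi_sub_int hΦ1] at h2
    have h3 := hd i hi j hj k hk
    rw [mem_uIcc] at h1 h2
    have h4 : |((i : ℝ) - j) * τ + k| ≤ |δ| := by
      rw [abs_le]
      rcases abs_cases δ with ⟨e, he⟩ | ⟨e, he⟩ <;> rw [e] <;>
      rcases h1 with h1 | h1 <;> rcases h2 with h2 | h2 <;> constructor <;> nlinarith [h1.1, h1.2, h2.1, h2.2]
    linarith

end DenBAux

theorem arcs_le {F Φ : ℝ → ℝ} (hF : Pos F) (hΦ : Monotone Φ) (hΦ1 : ∀ x, Φ (x + 1) = Φ x + 1) {τ : ℝ}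
    (hΦF : ∀ x, Φ (F x) = Φ x + τ) {n : ℕ} {m : ℤ} (hm : |n * τ - m| < 1)
    (hn : ∀ j : ℕ, 0 < j → j < n → ∀ k : ℤ, |n * τ - m| < |j * τ - k|) (z : ℝ) :
    ∑ i ∈ Finset.range n, |F^[i] z - F^[i] (F^[n] z - m)| ≤ 1 := by
  refine DenBAux.core hΦ hΦ1 (τ := τ) (c := Φ z) (δ := n * τ - m) (fun i => F^[i] z)
    (fun i => F^[i] (F^[n] z - m)) (fun i _ => DenBAux.phi_iter hΦF i z) (fun i _ => ?_) ?_
  · show Φ (F^[i] (F^[n] z - m)) = _
    rw [DenBAux.phi_iter hΦF i]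
    have h1 := DenBAux.phi_sub_int hΦ1 (F^[n] z) (-m)
    push_cast at h1
    rw [sub_eq_add_neg, h1, DenBAux.phi_iter hΦF n]
    ring
  · intro i hi j hj k hk
    rcases lt_trichotomy i j with h | h | h
    · have h1 := hn (j - i) (by omega) (by omega) k
      have h2 : (((j - i : ℕ) : ℝ)) = (j : ℝ) - i := by
        rw [Nat.cast_sub h.le]
      rw [h2, ← abs_neg (((j : ℝ) - i) * τ - k)] at h1
      have h3 : -((((j : ℝ) - i) * τ) - k) = ((i : ℝ) - j) * τ + k := by ring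
      rwa [h3] at h1
    · subst h
      rcases hk with hk | hk
      · exact absurd rfl hk
      · have h1 : (1 : ℝ) ≤ |(k : ℝ)| := by
          have : (1 : ℤ) ≤ |k| := Int.one_le_abs hk
          exact_mod_cast this
        have h2 : ((i : ℝ) - i) * τ + k = k := by ring
        rw [h2]
        linarith
    · have h1 := hn (i - j) (by omega) (by omega) (-k)
      have h2 : (((i - j : ℕ) : ℝ)) = (i : ℝ) - j := by
        rw [Nat.cast_sub h.le]
      rw [h2] at h1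
      have h3 : ((i : ℝ) - j) * τ - ((-k : ℤ) : ℝ) = ((i : ℝ) - j) * τ + k := by
        push_cast
        ring
      rwa [h3] at h1

theorem wander_le {F Φ : ℝ → ℝ} (hF : Pos F) (hΦ : Monotone Φ) (hΦ1 : ∀ x, Φ (x + 1) = Φ x + 1) {τ : ℝ}
    (hτ : Irrational τ) (hΦF : ∀ x, Φ (F x) = Φ x + τ) {x y : ℝ} (hxy : Φ x = Φ y) (n : ℕ) :
    ∑ i ∈ Finset.range n, |F^[i] x - F^[i] y| ≤ 1 := by
  refine DenBAux.core hΦ hΦ1 (τ := τ) (c := Φ x) (δ := 0) (fun i => F^[i] x)
    (fun i => F^[i] y) (fun i _ => DenBAux.phi_iter hΦF i x) (fun i _ => ?_) ?_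
  · show Φ (F^[i] y) = _
    rw [DenBAux.phi_iter hΦF i, hxy]
    ring
  · intro i hi j hj k hk
    rw [abs_zero, abs_pos]
    intro h0
    by_cases hij : i = j
    · subst hij
      have h2 : ((i : ℝ) - i) * τ + k = k := by ring
      rw [h2] at h0
      have h3 : k = 0 := by exact_mod_cast h0
      rcases hk with hk | hk
      · exact hk rfl
      · exact hk h3
    · have h1 : ((i : ℤ) - j : ℤ) ≠ 0 := by
        intro h
        apply hij
        have : (i : ℤ) = j := by linarith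
        exact_mod_cast this
      have h2 : Irrational ((((i : ℤ) - j : ℤ) : ℝ) * τ) := hτ.intCast_mul h1
      have h3 : Irrational ((((i : ℤ) - j : ℤ) : ℝ) * τ + (k : ℝ)) := h2.add_intCast k
      apply h3
      refine ⟨0, ?_⟩
      push_cast
      linarith

end Pool.Agent.CIR
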