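import Pool.Agent.Lib.CIR.Ret
import Pool.Agent.Lib.CIR.DenA
import Pool.Agent.Lib.CIR.DenB

/-!
# CIR.DenC: no wandering intervals (Denjoy)

PROOF. `Φ` is monotone; if it is not strictly monotone there are `x < y` with `Φ x = Φ y`. Let `G = hF.oi.symm` be the inverse of `F`. `Φ (G^[n] x) = Φ x - n τ`, the same for `y`. Take `L` from `exists_lip`.
(a) `l n = F^[n] y - F^[n] x > 0` and `l' n = G^[n] y - G^[n] x > 0` tend to `0`: `∑ i ∈ range n, l i ≤ 1` for all `n` by `wander_le`, so `l` is summable (`summable_of_sum_range_le`) and tends to `0`. For `l'`: `wander_le` at the points `G^[n] x`, `G^[n] y`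
with `F^[i] (G^[n] x) = G^[n - i] x` for `i ≤ n` gives `∑ i ∈ range n, l' (n - i) ≤ 1`, i.e. (`Finset.sum_range_reflect`) `∑ j ∈ range n, l' (j + 1) ≤ 1`.
(b) Let `n, m` be as in `exists_return`; `n ≥ 1`. Put `u = G^[n] x < v = G^[n] y`; `F^[n] u = x`, `F^[n] v = y`. Mean value theorem (`exists_deriv_eq_slope` for `F^[n]`): `ξ ∈ (u, v)` with `y - x = deriv F^[n] ξ * (v - u)`, and `ζ ∈ (x, y)` with
`F^[n] y - F^[n] x = deriv F^[n] ζ * (y - x)`. Let `z = G^[n] ζ ∈ (u, v)`, so `F^[n] z = ζ`.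
`distortion` with `arcs_le` for `z`: `deriv F^[n] z ≤ exp L * deriv F^[n] (ζ - m) = exp L * deriv F^[n] ζ` (the derivative of `F^[n]` has period `1`: `Pos.iter`, `Pos.sub_int`, `deriv_comp_sub_const`).
`distortion` with `wander_le` for `ξ, z` (`Φ ξ = Φ z` since `Φ u = Φ v` and both lie in `[u, v]`): `deriv F^[n] ξ ≤ exp L * deriv F^[n] z`.
So `(y - x) / (v - u) ≤ exp (2 L) * l n / (y - x)`, i.e. `(y - x) ^ 2 ≤ exp (2 L) * l n * l' n`.
(c) This holds for arbitrarily large `n` (`exists_return`), and `l n * l' n → 0`: contradiction.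
-/

set_option autoImplicit false

open Set
open scoped ContDiff

namespace Pool.Agent.CIR

namespace DenCAux

theorem phi_iter {F Φ : ℝ → ℝ} {τ : ℝ} (hΦF : ∀ x, Φ (F x) = Φ x + τ) (n : ℕ) (x : ℝ) :
    Φ (F^[n] x) = Φ x + n * τ := by
  induction n with
  | zero => simp
  | succ n ih =>
    rw [Function.iterate_succ_apply', hΦF, ih]
    push_cast
    ring

theorem deriv_iter_sub {F : ℝ → ℝ} (hF : Pos F) (n : ℕ) (m : ℤ) (x : ℝ) :
    deriv F^[n] (x - m) = deriv F^[n] x := by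
  have h1 : (fun w : ℝ => F^[n] (w - m)) = fun w => F^[n] w - m := by
    funext w
    exact (hF.iter n).sub_int w m
  have h2 : deriv (fun w : ℝ => F^[n] (w - m)) x = deriv F^[n] (x - m) :=
    deriv_comp_sub_const F^[n] (m : ℝ) x
  rw [← h2, h1, deriv_sub_const]

theorem main {F Φ : ℝ → ℝ} (hF : Pos F) (hs : ContDiff ℝ ∞ F) (hd : ∀ x, 0 < deriv F x)
    (hΦ : Monotone Φ) (hΦ1 : ∀ x, Φ (x + 1) = Φ x + 1) {τ : ℝ} (hτ : Irrational τ)
    (hΦF : ∀ x, Φ (F x) = Φ x + τ) {x y : ℝ} (hlt : x < y) (hxy : Φ x = Φ y) : False := by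
  obtain ⟨L, hL0, hL⟩ := exists_lip hs hF.add_one hd
  have hdF : Differentiable ℝ F := hs.differentiable (by simp)
  set G : ℝ → ℝ := fun w => hF.oi.symm w with hG
  have hGm : StrictMono G := hF.oi.symm.strictMono
  have hFG : Function.RightInverse G F := fun w => by
    show hF.oi (hF.oi.symm w) = w
    exact OrderIso.apply_symm_apply _ _
  have hFGn : ∀ (n : ℕ) (w : ℝ), F^[n] (G^[n] w) = w := fun n w => hFG.iterate n w
  have hFGi : ∀ (i k : ℕ) (w : ℝ), F^[i] (G^[i + k] w) = G^[k] w := fun i k w => by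
    rw [Function.iterate_add_apply]
    exact hFGn i _
  have hΦG : ∀ n : ℕ, Φ (G^[n] x) = Φ (G^[n] y) := fun n => by
    have h1 := phi_iter hΦF n (G^[n] x)
    have h2 := phi_iter hΦF n (G^[n] y)
    rw [hFGn] at h1 h2
    linarith
  have hpos : ∀ n : ℕ, 0 < G^[n] y - G^[n] x := fun n => by
    have := (hGm.iterate n) hlt
    linarith
  have hsum : ∀ n : ℕ, ∑ j ∈ Finset.range n, (G^[j + 1] y - G^[j + 1] x) ≤ 1 := fun n => by
    have h1 := wander_le hF hΦ hΦ1 hτ hΦF (hΦG n) n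
    refine le_trans (le_of_eq ?_) h1
    rw [← Finset.sum_range_reflect]
    refine Finset.sum_congr rfl fun i hi => ?_
    have hi' : i < n := Finset.mem_range.1 hi
    obtain ⟨k, rfl⟩ : ∃ k, n = i + k + 1 := ⟨n - i - 1, by omega⟩
    have e1 : i + k + 1 - 1 - i + 1 = k + 1 := by omega
    have e2 : i + k + 1 = i + (k + 1) := by omega
    rw [e1, e2, hFGi, hFGi, abs_sub_comm, abs_of_pos (hpos _)]
  have hS : Summable fun j : ℕ => G^[j + 1] y - G^[j + 1] x :=
    summable_of_sum_range_le (fun j => (hpos _).le) hsum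
  have ht := hS.tendsto_atTop_zero
  have hε : 0 < (y - x) ^ 2 / Real.exp (L + L) := by
    have : 0 < y - x := by linarith
    positivity
  obtain ⟨N, hN⟩ := Filter.eventually_atTop.1 (ht.eventually (gt_mem_nhds hε))
  obtain ⟨n, hn, m, hm, hr⟩ := exists_return hτ N
  have hsmall : G^[n] y - G^[n] x < (y - x) ^ 2 / Real.exp (L + L) := by
    have h1 := hN (n - 1) (by omega)
    have e1 : n - 1 + 1 = n := by omega
    simp only [e1] at h1
    exact h1
  have hl : F^[n] y - F^[n] x ≤ 1 := by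
    have h1 := wander_le hF hΦ hΦ1 hτ hΦF hxy (n + 1)
    rw [Finset.sum_range_succ] at h1
    have h2 : 0 ≤ ∑ i ∈ Finset.range n, |F^[i] x - F^[i] y| :=
      Finset.sum_nonneg fun i _ => abs_nonneg _
    have h3 : F^[n] y - F^[n] x ≤ |F^[n] x - F^[n] y| := by
      rw [abs_sub_comm]
      exact le_abs_self _
    linarith
  have hdn : Differentiable ℝ F^[n] := hdF.iterate n
  obtain ⟨ξ, hξ, hξd⟩ := exists_deriv_eq_slope F^[n] ((hGm.iterate n) hlt)
    hdn.continuous.continuousOn hdn.differentiableOn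
  obtain ⟨ζ, hζ, hζd⟩ := exists_deriv_eq_slope F^[n] hlt
    hdn.continuous.continuousOn hdn.differentiableOn
  rw [hFGn, hFGn] at hξd
  have hz1 : G^[n] x < G^[n] ζ := (hGm.iterate n) hζ.1
  have hz2 : G^[n] ζ < G^[n] y := (hGm.iterate n) hζ.2
  have hΦm : Φ ξ = Φ (G^[n] ζ) := by
    have a1 := hΦ hξ.1.le
    have a2 := hΦ hξ.2.le
    have a3 := hΦ hz1.le
    have a4 := hΦ hz2.le
    have a5 := hΦG n
    linarith
  have d1 : deriv F^[n] ξ ≤ Real.exp L * deriv F^[n] (G^[n] ζ) :=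
    distortion hdF hd hL0 hL (wander_le hF hΦ hΦ1 hτ hΦF hΦm n)
  have d2 : deriv F^[n] (G^[n] ζ) ≤ Real.exp L * deriv F^[n] ζ := by
    have h1 := distortion hdF hd hL0 hL (arcs_le hF hΦ hΦ1 hΦF hm hr (G^[n] ζ))
    rw [hFGn, deriv_iter_sub hF] at h1
    exact h1
  have hyx : 0 < y - x := by linarith
  have hvu := hpos n
  have d3 : deriv F^[n] ξ ≤ Real.exp (L + L) * deriv F^[n] ζ := by
    rw [Real.exp_add, mul_assoc]
    exact d1.trans (mul_le_mul_of_nonneg_left d2 (Real.exp_pos L).le)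
  have hE : 0 < Real.exp (L + L) := Real.exp_pos _
  have d4 : deriv F^[n] ζ ≤ 1 / (y - x) := by
    rw [hζd]
    exact div_le_div_of_nonneg_right hl hyx.le
  have d5 : (y - x) / (G^[n] y - G^[n] x) ≤ Real.exp (L + L) * (1 / (y - x)) := by
    rw [← hξd]
    exact d3.trans (mul_le_mul_of_nonneg_left d4 hE.le)
  rw [lt_div_iff₀ hE] at hsmall
  rw [div_le_iff₀ hvu] at d5
  have d6 : (y - x) * (y - x) ≤ Real.exp (L + L) * (G^[n] y - G^[n] x) := by
    have := mul_le_mul_of_nonneg_right d5 hyx.le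
    refine this.trans (le_of_eq ?_)
    field_simp
  nlinarith

end DenCAux

theorem strictMono_semiconj {F Φ : ℝ → ℝ} (hF : Pos F) (hs : ContDiff ℝ ∞ F) (hd : ∀ x, 0 < deriv F x)
    (hΦ : Monotone Φ) (hΦ1 : ∀ x, Φ (x + 1) = Φ x + 1) {τ : ℝ} (hτ : Irrational τ)
    (hΦF : ∀ x, Φ (F x) = Φ x + τ) : StrictMono Φ := by
  refine hΦ.strictMono_of_injective fun x y hxy => ?_
  rcases lt_trichotomy x y with h | h | h
  · exact (DenCAux.main hF hs hd hΦ hΦ1 hτ hΦF h hxy).elim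
  · exact h
  · exact (DenCAux.main hF hs hd hΦ hΦ1 hτ hΦF h hxy.symm).elim

end Pool.Agent.CIR
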