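import Pool.Agent.Lib.CIR.DenC

/-!
# CIR.DenD: Denjoy's theorem

PROOF. Let `τ` be the translation number. `CircleDeg1Lift.semiconj_of_bijective_of_translationNumber_eq` for `hF.cdl` (bijective: `Pos.bij`) and the translation `CircleDeg1Lift.translate (Multiplicative.ofAdd τ)` (bijective; translation number `τ`:
`CircleDeg1Lift.translationNumber_translate`) gives `Φ : CircleDeg1Lift` with `Φ (F x) = τ + Φ x`. `deriv F x > 0`: it is `≥ 0` (`F` monotone) and `≠ 0`. So `Φ` is strictly monotone (`strictMono_semiconj`).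
CONTINUITY of `Φ`: its range is invariant under the translations by `± 1` and `± τ` (`F` is surjective: `Φ (F⁻¹ x) = Φ x - τ`), so it contains `Φ 0 + k + l τ` for all integers `k, l`, a dense set because `τ` is irrational
(`AddSubgroup` closure of `{1, τ}` is dense: look for `dense_addSubgroupClosure_pair_iff` or `AddSubgroup.dense_of_not_isolated_zero`, `AddSubgroup.dense_or_cyclic`). A monotone function with dense range is continuous
(`Monotone.continuous_of_denseRange`).
-/

set_option autoImplicit false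

open Set
open scoped ContDiff

namespace Pool.Agent.CIR

namespace DenDAux

/-- The range of a semiconjugacy to a translation is invariant under the integer multiples. -/
theorem range_mul {F Φ : ℝ → ℝ} (hF : Function.Surjective F) {τ : ℝ}
    (hΦF : ∀ x, Φ (F x) = Φ x + τ) (x : ℝ) (m : ℤ) : ∃ y, Φ y = Φ x + m * τ := by
  induction m using Int.induction_on with
  | zero => exact ⟨x, by simp⟩
  | succ n ih =>
    obtain ⟨y, hy⟩ := ih
    exact ⟨F y, by rw [hΦF, hy]; push_cast; ring⟩
  | pred n ih =>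
    obtain ⟨y, hy⟩ := ih
    obtain ⟨w, rfl⟩ := hF y
    refine ⟨w, ?_⟩
    rw [hΦF] at hy
    have : Φ w = Φ x + ((-(n : ℤ) : ℤ) : ℝ) * τ - τ := by linarith
    rw [this]
    push_cast
    ring

/-- The range of such a semiconjugacy of degree one is dense. -/
theorem denseRange {F Φ : ℝ → ℝ} (hF : Function.Surjective F) {τ : ℝ} (hτ : Irrational τ)
    (hΦF : ∀ x, Φ (F x) = Φ x + τ) (hΦ1 : ∀ (x : ℝ) (m : ℤ), Φ (x + m) = Φ x + m) : DenseRange Φ := by
  have h1 : Dense (AddSubgroup.closure {τ, 1} : Set ℝ) := by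
    rw [dense_addSubgroupClosure_pair_iff, div_one]
    exact hτ
  have h2 : Dense ((fun x : ℝ => Φ 0 + x) '' (AddSubgroup.closure {τ, 1} : Set ℝ)) :=
    ((Homeomorph.addLeft (Φ 0)).surjective.denseRange).dense_image
      (Homeomorph.addLeft (Φ 0)).continuous h1
  refine h2.mono ?_
  rintro _ ⟨z, hz, rfl⟩
  obtain ⟨m, n, rfl⟩ := AddSubgroup.mem_closure_pair.1 hz
  obtain ⟨y, hy⟩ := range_mul hF hΦF 0 m
  refine ⟨y + n, ?_⟩
  rw [hΦ1, hy]
  simp only [zsmul_eq_mul]
  ring

end DenDAux

theorem denjoy {F : ℝ → ℝ} (hF : Pos F) (hs : ContDiff ℝ ∞ F) (hd : ∀ x, deriv F x ≠ 0)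
    (hτ : Irrational hF.cdl.translationNumber) : ∃ Ψ, Pos Ψ ∧ ∀ x, Ψ (F x) = Ψ x + hF.cdl.translationNumber := by
  have hb2 : Function.Bijective ((CircleDeg1Lift.translate (Multiplicative.ofAdd hF.cdl.translationNumber) :
      CircleDeg1Liftˣ) : CircleDeg1Lift) := CircleDeg1Lift.isUnit_iff_bijective.1 (Units.isUnit _)
  obtain ⟨Φ, hΦ⟩ := CircleDeg1Lift.semiconj_of_bijective_of_translationNumber_eq (f₁ := hF.cdl)
    hF.bij hb2 (by rw [CircleDeg1Lift.translationNumber_translate])
  have hΦF : ∀ x, Φ (F x) = Φ x + hF.cdl.translationNumber := fun x => by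
    have h := hΦ x
    rw [CircleDeg1Lift.translate_apply, add_comm] at h
    exact h
  have hpos : ∀ x, 0 < deriv F x := fun x =>
    lt_of_le_of_ne hF.strictMono.monotone.deriv_nonneg (Ne.symm (hd x))
  have hst := strictMono_semiconj hF hs hpos Φ.monotone Φ.map_add_one hτ hΦF
  exact ⟨Φ, ⟨Φ.monotone.continuous_of_denseRange
    (DenDAux.denseRange hF.surj hτ hΦF Φ.map_add_int), hst, Φ.map_add_one⟩, hΦF⟩

end Pool.Agent.CIR
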