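import Pool.Agent.Lib.CIR.Bas

/-!
# CIR.Desc: maps of the line descend to the circle

PROOF of `exists_hom`. `F` is a continuous bijection of `ℝ` (`Pos.bij`, `Neg.bij`), strictly monotone, so a homeomorphism (`Pos.oi` and `OrderIso.toHomeomorph`; in the `Neg` case use `Neg.neg` or compose with `x ↦ -x`);
its inverse `F'` is `Pos` (resp. `Neg`) too. `E (F x)` depends only on `E x` (`E_eq_iff`, `Pos.add_int`, `Neg.add_int`), so there is `h : Circle → Circle` with `h (E x) = E (F x)` (`E_surj`); `h` is continuous because `E` is a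
quotient map (`E` is a surjective covering map / open map: `Circle.isCoveringMap_exp`, `IsCoveringMap.isOpenMap`, `IsOpenMap.isQuotientMap`; or because `ℝ → AddCircle 1` is a quotient map; `IsQuotientMap.continuous_iff`).
The same for `F'` gives the inverse.
PROOF of `cj_of_lift`: take `k` from `exists_hom` for `Ψ`; for `z = E x`: `k (f z) = k (E (F x)) = E (Ψ (F x)) = E (G (Ψ x)) = g (E (Ψ x)) = g (k z)`.
-/

set_option autoImplicit false

open Set
open scoped ContDiff Manifold

namespace Pool.Agent.CIR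

namespace DescAux

theorem isOpenMap_E : IsOpenMap E := by
  have h1 : IsOpenMap (fun x : ℝ => 2 * Real.pi * x) :=
    (Homeomorph.mulLeft₀ (2 * Real.pi) (by positivity)).isOpenMap
  exact Circle.isCoveringMap_exp.isOpenMap.comp h1

theorem isQuotientMap_E : Topology.IsQuotientMap E :=
  isOpenMap_E.isQuotientMap continuous_E E_surj

/-- The descent of a map of the line. -/
noncomputable def dsc (F : ℝ → ℝ) (z : Circle) : Circle := E (F (Function.surjInv E_surj z))

theorem dsc_E {F : ℝ → ℝ} (hF : ∀ x y, E x = E y → E (F x) = E (F y)) (x : ℝ) :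
    dsc F (E x) = E (F x) := by
  unfold dsc
  apply hF
  exact Function.surjInv_eq E_surj (E x)

theorem dsc_cont {F : ℝ → ℝ} (hc : Continuous F) (hF : ∀ x y, E x = E y → E (F x) = E (F y)) :
    Continuous (dsc F) := by
  rw [isQuotientMap_E.continuous_iff]
  have h1 : dsc F ∘ E = fun x => E (F x) := by
    funext x
    exact dsc_E hF x
  rw [h1]
  exact continuous_E.comp hc

theorem pos_resp {F : ℝ → ℝ} (h : Pos F) (x y : ℝ) (hxy : E x = E y) : E (F x) = E (F y) := by
  obtain ⟨m, rfl⟩ := E_eq_iff.1 hxy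
  rw [h.add_int, E_add_int]

theorem neg_resp {F : ℝ → ℝ} (h : Neg F) (x y : ℝ) (hxy : E x = E y) : E (F x) = E (F y) := by
  obtain ⟨m, rfl⟩ := E_eq_iff.1 hxy
  rw [h.add_int, E_sub_int]

theorem exists_hom_of_inv {F G : ℝ → ℝ} (hFc : Continuous F) (hGc : Continuous G)
    (hF : ∀ x y, E x = E y → E (F x) = E (F y)) (hG : ∀ x y, E x = E y → E (G x) = E (G y))
    (hGF : ∀ x, G (F x) = x) (hFG : ∀ x, F (G x) = x) : ∃ h : H, Lft h F := by
  refine ⟨{ toFun := dsc F
            invFun := dsc G
            left_inv := ?_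
            right_inv := ?_
            continuous_toFun := dsc_cont hFc hF
            continuous_invFun := dsc_cont hGc hG }, ?_⟩
  · intro z
    obtain ⟨x, rfl⟩ := E_surj z
    rw [dsc_E hF, dsc_E hG, hGF]
  · intro z
    obtain ⟨x, rfl⟩ := E_surj z
    rw [dsc_E hG, dsc_E hF, hFG]
  · intro x
    exact (dsc_E hF x).symm

end DescAux


theorem exists_hom {F : ℝ → ℝ} (hF : Pos F ∨ Neg F) : ∃ h : H, Lft h F := by
  rcases hF with hF | hF
  · exact DescAux.exists_hom_of_inv hF.cont hF.oi.symm.continuous (DescAux.pos_resp hF) (DescAux.pos_resp hF.oi_symm)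
      (fun x => hF.oi.symm_apply_apply x) (fun x => hF.oi.apply_symm_apply x)
  · have hp := hF.neg
    have hn : Neg (fun x => hp.oi.symm (-x)) := by
      refine ⟨hp.oi.symm.continuous.comp continuous_neg, fun x y hxy => ?_, fun x => ?_⟩
      · exact hp.oi.symm.strictMono (neg_lt_neg hxy)
      · have h1 := hp.oi_symm.sub_int (-x) 1
        push_cast at h1
        show hp.oi.symm (-(x + 1)) = hp.oi.symm (-x) - 1
        rw [← h1]
        congr 1
        ring
    refine DescAux.exists_hom_of_inv hF.cont hn.cont (DescAux.neg_resp hF) (DescAux.neg_resp hn) (fun x => ?_) (fun x => ?_)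
    · show hp.oi.symm (-F x) = x
      exact hp.oi.symm_apply_apply x
    · have h1 : hp.oi (hp.oi.symm (-x)) = -x := hp.oi.apply_symm_apply (-x)
      have h2 : hp.oi (hp.oi.symm (-x)) = -F (hp.oi.symm (-x)) := rfl
      show F (hp.oi.symm (-x)) = x
      linarith

theorem cj_of_lift {f g : Circle → Circle} {F G Ψ : ℝ → ℝ} (hF : Lft f F) (hG : Lft g G) (hΨ : Pos Ψ ∨ Neg Ψ)
    (h : ∀ x, Ψ (F x) = G (Ψ x)) : Cj f g := by
  obtain ⟨k, hk⟩ := exists_hom hΨ
  refine ⟨k, fun z => ?_⟩
  obtain ⟨x, rfl⟩ := E_surj z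
  rw [← hF, ← hk, h, hG, ← hk]

end Pool.Agent.CIR
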