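import Mathlib

/-!
# CIR.Ext: extending a conjugacy from a fundamental interval

`ℝ ≃o ℝ` is a group (`(A * B) x = A (B x)`, `A ^ n` for `n : ℤ`); every `A : ℝ ≃o ℝ` is continuous.

PROOF of `exists_step`. All `A ^ n` map `I` to `I`, so `n ↦ (A ^ n) a` (`n : ℤ`) is strictly increasing with values in `I`. If `(A ^ n) a ≤ x` for all `n ≥ 0`, this monotone sequence converges to some `s` with `a ≤ s ≤ x`, so `s ∈ I` and by
continuity `A s = s`, contradiction to `hA`. If `x < (A ^ (-n)) a` for all `n ≥ 0`, this antitone sequence converges to some `s` with `x ≤ s ≤ a`, so `s ∈ I`, `A s = s`, contradiction again. So `{n : ℤ | (A ^ n) a ≤ x}` is nonempty and bounded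
above; take its greatest element (`Int.exists_greatest_of_bdd`).

PROOF of `ext_conj`. For `x ∈ I` let `N x` be the integer of `exists_step` (unique, the sequence is strictly increasing) and `ψ x = (B ^ N x) (η ((A ^ (- N x)) x))`; `(A ^ (- N x)) x ∈ [a, A a)`. By the intermediate value theorem
and strict monotonicity `η` maps `[a, A a)` bijectively onto `[a', B a')`. So `(B ^ N x) a' ≤ ψ x < (B ^ (N x + 1)) a'`, and `ψ x ∈ J` (`hJ`, the bounds are in `J`).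
`StrictMonoOn`: let `x < y` in `I`; then `N x ≤ N y`. If `N x = N y`: all three maps are strictly increasing. If `N x < N y`: `ψ x < (B ^ (N x + 1)) a' ≤ (B ^ N y) a' ≤ ψ y`.
`BijOn`: `MapsTo` was shown, `InjOn` from `StrictMonoOn`. `SurjOn`: for `y ∈ J` take `n` from `exists_step` for `B`, `a'`, `J`; `(B ^ (-n)) y ∈ [a', B a')` is `η x'` with `x' ∈ [a, A a)`; `x = (A ^ n) x' ∈ I` has `N x = n`, `ψ x = y`.
On `Icc a (A a)`: for `x < A a`: `N x = 0`, `ψ x = η x`; for `x = A a`: `N x = 1`, `ψ x = B (η a) = B a' = η (A a)`.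
Finally `N (A x) = N x + 1`, so `ψ (A x) = B (ψ x)`.
-/

set_option autoImplicit false

open Set

namespace Pool.Agent.CIR

namespace ExtAux

theorem zpow_add_one_apply (A : ℝ ≃o ℝ) (n : ℤ) (x : ℝ) : (A ^ (n + 1)) x = A ((A ^ n) x) := by
  rw [add_comm, zpow_add, zpow_one]
  rfl

theorem zpow_add_apply (A : ℝ ≃o ℝ) (n m : ℤ) (x : ℝ) : (A ^ (n + m)) x = (A ^ n) ((A ^ m) x) := by
  rw [zpow_add]
  rfl

theorem zpow_zero_apply (A : ℝ ≃o ℝ) (x : ℝ) : (A ^ (0 : ℤ)) x = x := by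
  rw [zpow_zero]
  rfl

theorem zpow_one_apply (A : ℝ ≃o ℝ) (x : ℝ) : (A ^ (1 : ℤ)) x = A x := by
  rw [zpow_one]

theorem zpow_neg_cancel (A : ℝ ≃o ℝ) (n : ℤ) (x : ℝ) : (A ^ (-n)) ((A ^ n) x) = x := by
  rw [← zpow_add_apply, neg_add_cancel, zpow_zero_apply]

theorem zpow_cancel_neg (A : ℝ ≃o ℝ) (n : ℤ) (x : ℝ) : (A ^ n) ((A ^ (-n)) x) = x := by
  rw [← zpow_add_apply, add_neg_cancel, zpow_zero_apply]

theorem zpow_mem {A : ℝ ≃o ℝ} {I : Set ℝ} (hAI : ∀ x, A x ∈ I ↔ x ∈ I) (n : ℤ) (x : ℝ) :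
    (A ^ n) x ∈ I ↔ x ∈ I := by
  induction n using Int.induction_on with
  | zero => rw [zpow_zero_apply]
  | succ n ih => rw [zpow_add_one_apply, hAI, ih]
  | pred n ih =>
    have h : (A ^ (-(n : ℤ))) x = A ((A ^ (-(n : ℤ) - 1)) x) := by
      rw [← zpow_add_one_apply, sub_add_cancel]
    rw [← ih, h, hAI]

theorem zpow_strictMono {A : ℝ ≃o ℝ} {I : Set ℝ} (hA : ∀ x ∈ I, x < A x)
    (hAI : ∀ x, A x ∈ I ↔ x ∈ I) {a : ℝ} (ha : a ∈ I) : StrictMono (fun n : ℤ => (A ^ n) a) := by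
  apply strictMono_int_of_lt_succ
  intro n
  show (A ^ n) a < (A ^ (n + 1)) a
  rw [zpow_add_one_apply]
  exact hA _ ((zpow_mem hAI n a).2 ha)

theorem exists_gt {A : ℝ ≃o ℝ} {I : Set ℝ} (hI : I.OrdConnected) (hA : ∀ x ∈ I, x < A x)
    (hAI : ∀ x, A x ∈ I ↔ x ∈ I) {a x : ℝ} (ha : a ∈ I) (hx : x ∈ I) : ∃ n : ℕ, x < (A ^ (n : ℤ)) a := by
  by_contra hcon
  push Not at hcon
  have hmono : Monotone (fun n : ℕ => (A ^ (n : ℤ)) a) := by
    intro m n hmn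
    exact (zpow_strictMono hA hAI ha).monotone (by exact_mod_cast hmn)
  have hbdd : BddAbove (range (fun n : ℕ => (A ^ (n : ℤ)) a)) := ⟨x, by
    rintro _ ⟨n, rfl⟩
    exact hcon n⟩
  have hlim := tendsto_atTop_ciSup hmono hbdd
  set s := ⨆ n : ℕ, (A ^ (n : ℤ)) a with hs
  have has : a ≤ s := by
    have h0 : (A ^ ((0 : ℕ) : ℤ)) a ≤ s := le_ciSup hbdd 0
    rwa [Nat.cast_zero, zpow_zero_apply] at h0
  have hsx : s ≤ x := ciSup_le hcon
  have hsI : s ∈ I := hI.out ha hx ⟨has, hsx⟩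
  have h1 : Filter.Tendsto (fun n : ℕ => A ((A ^ (n : ℤ)) a)) Filter.atTop (nhds (A s)) :=
    (A.continuous.tendsto s).comp hlim
  have h2 : Filter.Tendsto (fun n : ℕ => (A ^ ((n + 1 : ℕ) : ℤ)) a) Filter.atTop (nhds s) :=
    hlim.comp (Filter.tendsto_add_atTop_nat 1)
  have h3 : (fun n : ℕ => (A ^ ((n + 1 : ℕ) : ℤ)) a) = fun n : ℕ => A ((A ^ (n : ℤ)) a) := by
    funext n
    rw [Nat.cast_add, Nat.cast_one, zpow_add_one_apply]
  rw [h3] at h2
  have h4 : A s = s := tendsto_nhds_unique h1 h2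
  exact absurd (hA s hsI) (by rw [h4]; exact lt_irrefl s)

theorem exists_le {A : ℝ ≃o ℝ} {I : Set ℝ} (hI : I.OrdConnected) (hA : ∀ x ∈ I, x < A x)
    (hAI : ∀ x, A x ∈ I ↔ x ∈ I) {a x : ℝ} (ha : a ∈ I) (hx : x ∈ I) : ∃ n : ℕ, (A ^ (-(n : ℤ))) a ≤ x := by
  obtain ⟨n, hn⟩ := exists_gt hI hA hAI hx ha
  refine ⟨n, ?_⟩
  have := (A ^ (-(n : ℤ))).monotone hn.le
  rwa [zpow_neg_cancel] at this

end ExtAux

theorem exists_step (A : ℝ ≃o ℝ) {I : Set ℝ} (hI : I.OrdConnected) (hA : ∀ x ∈ I, x < A x)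
    (hAI : ∀ x, A x ∈ I ↔ x ∈ I) {a x : ℝ} (ha : a ∈ I) (hx : x ∈ I) :
    ∃ n : ℤ, (A ^ n) a ≤ x ∧ x < (A ^ (n + 1)) a := by
  have hne : ∃ n : ℤ, (A ^ n) a ≤ x := by
    obtain ⟨n, hn⟩ := ExtAux.exists_le hI hA hAI ha hx
    exact ⟨_, hn⟩
  obtain ⟨N, hN⟩ := ExtAux.exists_gt hI hA hAI ha hx
  have hsm := ExtAux.zpow_strictMono hA hAI ha
  obtain ⟨n, hn, hn'⟩ := Int.exists_greatest_of_bdd (P := fun n : ℤ => (A ^ n) a ≤ x)
    ⟨(N : ℤ), fun z hz => by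
      by_contra hlt
      push Not at hlt
      have := hsm hlt
      exact absurd (lt_of_lt_of_le (lt_trans hN this) hz) (lt_irrefl x)⟩ hne
  refine ⟨n, hn, ?_⟩
  by_contra hlt
  push Not at hlt
  have := hn' (n + 1) hlt
  omega

theorem ext_conj (A B : ℝ ≃o ℝ) {I J : Set ℝ} (hI : I.OrdConnected) (hJ : J.OrdConnected) (hA : ∀ x ∈ I, x < A x)
    (hB : ∀ x ∈ J, x < B x) (hAI : ∀ x, A x ∈ I ↔ x ∈ I) (hBJ : ∀ x, B x ∈ J ↔ x ∈ J) {a a' : ℝ} (ha : a ∈ I)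
    (ha' : a' ∈ J) {η : ℝ → ℝ} (hη : ContinuousOn η (Icc a (A a))) (hη' : StrictMonoOn η (Icc a (A a)))
    (h0 : η a = a') (h1 : η (A a) = B a') :
    ∃ ψ : ℝ → ℝ, StrictMonoOn ψ I ∧ BijOn ψ I J ∧ (∀ x ∈ Icc a (A a), ψ x = η x) ∧ ∀ x ∈ I, ψ (A x) = B (ψ x) := by
  classical
  have hsA := ExtAux.zpow_strictMono hA hAI ha
  have hsB := ExtAux.zpow_strictMono hB hBJ ha'
  -- uniqueness of the step
  have huA : ∀ {x : ℝ} {m n : ℤ}, (A ^ m) a ≤ x → x < (A ^ (m + 1)) a → (A ^ n) a ≤ x → x < (A ^ (n + 1)) a → m = n := by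
    intro x m n h1 h2 h3 h4
    have h5 : m < n + 1 := hsA.lt_iff_lt.1 (lt_of_le_of_lt h1 h4)
    have h6 : n < m + 1 := hsA.lt_iff_lt.1 (lt_of_le_of_lt h3 h2)
    omega
  have hex : ∀ x : ℝ, ∃ n : ℤ, x ∈ I → (A ^ n) a ≤ x ∧ x < (A ^ (n + 1)) a := by
    intro x
    by_cases hx : x ∈ I
    · obtain ⟨n, hn⟩ := exists_step A hI hA hAI ha hx
      exact ⟨n, fun _ => hn⟩
    · exact ⟨0, fun h => absurd h hx⟩
  choose N hN using hex
  have haA : a < A a := hA a ha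
  -- the fundamental interval
  have hdom : ∀ (n : ℤ) (x : ℝ), (A ^ n) a ≤ x → x < (A ^ (n + 1)) a → (A ^ (-n)) x ∈ Ico a (A a) := by
    intro n x h1 h2
    constructor
    · have := (A ^ (-n)).monotone h1
      rwa [ExtAux.zpow_neg_cancel] at this
    · have := (A ^ (-n)).strictMono h2
      rw [ExtAux.zpow_add_apply, ExtAux.zpow_neg_cancel, ExtAux.zpow_one_apply] at this
      exact this
  have hηr : ∀ u ∈ Ico a (A a), η u ∈ Ico a' (B a') := by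
    intro u hu
    constructor
    · rw [← h0]
      exact hη'.monotoneOn (left_mem_Icc.2 haA.le) (Ico_subset_Icc_self hu) hu.1
    · rw [← h1]
      exact hη' (Ico_subset_Icc_self hu) (right_mem_Icc.2 haA.le) hu.2
  have hηs : ∀ v ∈ Ico a' (B a'), ∃ u ∈ Ico a (A a), η u = v := by
    intro v hv
    have h2 := intermediate_value_Icc haA.le hη
    rw [h0, h1] at h2
    obtain ⟨u, hu, huv⟩ := h2 (Ico_subset_Icc_self hv)
    refine ⟨u, ⟨hu.1, lt_of_le_of_ne hu.2 ?_⟩, huv⟩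
    rintro rfl
    rw [h1] at huv
    exact absurd hv.2 (by rw [← huv]; exact lt_irrefl _)
  -- the extension
  let ψ : ℝ → ℝ := fun x => (B ^ (N x)) (η ((A ^ (-(N x))) x))
  have hψ : ∀ (n : ℤ) (x : ℝ), x ∈ I → (A ^ n) a ≤ x → x < (A ^ (n + 1)) a → ψ x = (B ^ n) (η ((A ^ (-n)) x)) := by
    intro n x hx h2 h3
    have h4 : N x = n := huA (hN x hx).1 (hN x hx).2 h2 h3
    show (B ^ (N x)) (η ((A ^ (-(N x))) x)) = _
    rw [h4]
  have hψr : ∀ (n : ℤ) (x : ℝ), x ∈ I → (A ^ n) a ≤ x → x < (A ^ (n + 1)) a →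
      (B ^ n) a' ≤ ψ x ∧ ψ x < (B ^ (n + 1)) a' := by
    intro n x hx h2 h3
    rw [hψ n x hx h2 h3]
    have h4 := hηr _ (hdom n x h2 h3)
    constructor
    · exact (B ^ n).monotone h4.1
    · rw [ExtAux.zpow_add_apply, ExtAux.zpow_one_apply]
      exact (B ^ n).strictMono h4.2
  have hsm : StrictMonoOn ψ I := by
    intro x hx y hy hxy
    obtain ⟨h2, h3⟩ := hN x hx
    obtain ⟨h4, h5⟩ := hN y hy
    have h6 : N x < N y + 1 := hsA.lt_iff_lt.1 (lt_of_le_of_lt (h2.trans hxy.le) h5)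
    rcases (Int.lt_add_one_iff.1 h6).lt_or_eq with h7 | h7
    · have h8 := (hψr _ x hx h2 h3).2
      have h9 := (hψr _ y hy h4 h5).1
      have h10 : (B ^ (N x + 1)) a' ≤ (B ^ (N y)) a' := hsB.monotone (by omega)
      exact lt_of_lt_of_le h8 (h10.trans h9)
    · rw [← h7] at h4 h5
      rw [hψ _ x hx h2 h3, hψ _ y hy h4 h5]
      apply (B ^ (N x)).strictMono
      exact hη' (Ico_subset_Icc_self (hdom _ x h2 h3)) (Ico_subset_Icc_self (hdom _ y h4 h5))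
        ((A ^ (-(N x))).strictMono hxy)
  have hmaps : MapsTo ψ I J := by
    intro x hx
    obtain ⟨h2, h3⟩ := hN x hx
    have h4 := hψr _ x hx h2 h3
    exact hJ.out ((ExtAux.zpow_mem hBJ _ _).2 ha') ((ExtAux.zpow_mem hBJ _ _).2 ha') ⟨h4.1, h4.2.le⟩
  have hsurj : SurjOn ψ I J := by
    intro y hy
    obtain ⟨n, h2, h3⟩ := exists_step B hJ hB hBJ ha' hy
    have h4 : (B ^ (-n)) y ∈ Ico a' (B a') := by
      constructor
      · have := (B ^ (-n)).monotone h2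
        rwa [ExtAux.zpow_neg_cancel] at this
      · have := (B ^ (-n)).strictMono h3
        rw [ExtAux.zpow_add_apply, ExtAux.zpow_neg_cancel, ExtAux.zpow_one_apply] at this
        exact this
    obtain ⟨u, hu, huv⟩ := hηs _ h4
    have hx1 : (A ^ n) a ≤ (A ^ n) u := (A ^ n).monotone hu.1
    have hx2 : (A ^ n) u < (A ^ (n + 1)) a := by
      rw [ExtAux.zpow_add_apply, ExtAux.zpow_one_apply]
      exact (A ^ n).strictMono hu.2
    have huI : (A ^ n) u ∈ I := by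
      exact hI.out ((ExtAux.zpow_mem hAI _ _).2 ha) ((ExtAux.zpow_mem hAI _ _).2 ha) ⟨hx1, hx2.le⟩
    refine ⟨(A ^ n) u, huI, ?_⟩
    rw [hψ n _ huI hx1 hx2, ExtAux.zpow_neg_cancel, huv, ExtAux.zpow_cancel_neg]
  refine ⟨ψ, hsm, ⟨hmaps, hsm.injOn, hsurj⟩, ?_, ?_⟩
  · intro x hx
    have hxI : x ∈ I := hI.out ha ((hAI a).2 ha) hx
    rcases hx.2.lt_or_eq with h2 | h2
    · have h3 : (A ^ (0 : ℤ)) a ≤ x := by
        rw [ExtAux.zpow_zero_apply]
        exact hx.1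
      have h4 : x < (A ^ ((0 : ℤ) + 1)) a := by
        rw [zero_add, ExtAux.zpow_one_apply]
        exact h2
      rw [hψ 0 x hxI h3 h4, neg_zero, ExtAux.zpow_zero_apply, ExtAux.zpow_zero_apply]
    · have h3 : (A ^ (1 : ℤ)) a ≤ x := by
        rw [ExtAux.zpow_one_apply]
        exact h2.ge
      have h4 : x < (A ^ ((1 : ℤ) + 1)) a := by
        rw [ExtAux.zpow_add_one_apply, ExtAux.zpow_one_apply, h2]
        exact hA _ ((hAI a).2 ha)
      have h5 : (A ^ (-1 : ℤ)) x = a := by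
        rw [h2, ← ExtAux.zpow_one_apply A a, ExtAux.zpow_neg_cancel]
      rw [hψ 1 x hxI h3 h4, h5, h0, ExtAux.zpow_one_apply, h2, h1]
  · intro x hx
    obtain ⟨h2, h3⟩ := hN x hx
    have h4 : (A ^ (N x + 1)) a ≤ A x := by
      rw [ExtAux.zpow_add_one_apply]
      exact A.monotone h2
    have h5 : A x < (A ^ (N x + 1 + 1)) a := by
      rw [ExtAux.zpow_add_one_apply A (N x + 1)]
      exact A.strictMono h3
    have h6 : (A ^ (-(N x + 1))) (A x) = (A ^ (-(N x))) x := by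
      rw [← ExtAux.zpow_one_apply A x, ← ExtAux.zpow_add_apply]
      congr 2
      ring
    rw [hψ _ _ ((hAI x).2 hx) h4 h5, h6, ExtAux.zpow_add_one_apply]

end Pool.Agent.CIR
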