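import Pool.Agent.Lib.CIR.Lift
import Pool.Agent.Lib.CIR.Top

/-!
# CIR.LiftM: the normalised lift depends measurably on the homeomorphism

PROOF of `measurable_lf`. Let `A z = Complex.arg z / (2 π)` (a measurable function of `z : Circle`, with values in `(-1/2, 1/2]` and `E (A z) = z`; `A (E x) = x` for `|x| < 1/2`).
`lf h 0` is the only number `y ∈ [0, 1)` with `E y = h 1`, so `lf h 0 = Int.fract (A (h 1))`, measurable in `h`.
For `N ≥ 1` put `T N (h, x) = ∑ k ∈ range N, A (h (E ((k + 1) * x / N)) / h (E (k * x / N)))`. It is measurable in `(h, x)` (`measurable_apply_uncurry`: `(h, z) ↦ h z` is measurable on `H × Circle`;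
`E` is continuous). For fixed `(h, x)`, `F = lf h` is uniformly continuous on `[-|x|, |x|]`, so for all large `N` every `|F ((k + 1) x / N) - F (k x / N)| < 1/2`; then the `k`-th term is
`A (E (F ((k+1) x / N) - F (k x / N))) = F ((k + 1) x / N) - F (k x / N)`, and `T N (h, x) = F x - F 0`. So `T N (h, x)` is eventually constant in `N`, equal to `lf h x - lf h 0`:
`measurable_of_tendsto_metrizable`.
PROOF of `measurableSet_pos`: `pos_iff_lt`, `measurableSet_lt`.
PROOF of `measurable_lf_iter`: induction on `n`: `(h, x) ↦ (h, (lf h)^[n] x)` is measurable.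
-/

set_option autoImplicit false

open Set
open scoped ContDiff Manifold

namespace Pool.Agent.CIR

namespace LiftMAux

/-- The representative in `(-1/2, 1/2]`. -/
noncomputable def aa (z : ℂ) : ℝ := Complex.arg z / (2 * Real.pi)

theorem aa_meas : Measurable aa := Complex.measurable_arg.div_const _

theorem aa_E {t : ℝ} (h : |t| < 1 / 2) : aa (E t : ℂ) = t := by
  have h' := abs_lt.1 h
  have hp := Real.pi_pos
  unfold aa E
  have h1 : -Real.pi < 2 * Real.pi * t := by nlinarith [h'.1]
  have h2 : 2 * Real.pi * t ≤ Real.pi := by nlinarith [h'.2]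
  rw [Circle.arg_exp h1 h2]
  field_simp

theorem E_aa (z : Circle) : E (aa z) = z := by
  unfold aa E
  have h2 : (2 * Real.pi) * (Complex.arg z / (2 * Real.pi)) = Complex.arg z := by
    have : Real.pi ≠ 0 := Real.pi_ne_zero
    field_simp
  rw [h2, Circle.exp_arg]

theorem lf_zero (h : H) : lf h 0 = Int.fract (aa (h (E 0))) := by
  have h1 : E (lf h 0) = E (aa (h (E 0))) := by
    rw [E_aa]
    exact lft_lf h 0
  obtain ⟨m, hm⟩ := E_eq_iff.1 h1
  have h2 := (lf_spec h).2.2
  rw [← Int.fract_add_intCast (aa (h (E 0))) m, ← hm, Int.fract_eq_self.2 ⟨h2.1, h2.2⟩]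

/-- The approximations. -/
noncomputable def SS (h : H) (x : ℝ) (m : ℕ) : ℝ :=
  Int.fract (aa (h (E 0))) + ∑ j ∈ Finset.range m,
    aa ((h (E (((j + 1 : ℕ) : ℝ) * x / m)) : ℂ) / (h (E (((j : ℕ) : ℝ) * x / m)) : ℂ))

theorem mem_seg (x : ℝ) {m j : ℕ} (hm : 0 < m) (hj : j ≤ m) : (j : ℝ) * x / m ∈ uIcc 0 x := by
  have hm' : (0 : ℝ) < m := by exact_mod_cast hm
  have h1 : (j : ℝ) * x / m = ((j : ℝ) / m) * x := by ring
  have h2 : (0 : ℝ) ≤ (j : ℝ) / m := by positivity
  have h3 : (j : ℝ) / m ≤ 1 := by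
    rw [div_le_one hm']
    exact_mod_cast hj
  rw [h1]
  rcases le_total 0 x with hx | hx
  · rw [uIcc_of_le hx]
    exact ⟨by positivity, by nlinarith⟩
  · rw [uIcc_of_ge hx]
    exact ⟨by nlinarith, mul_nonpos_of_nonneg_of_nonpos h2 hx⟩

theorem SS_eq (h : H) (x : ℝ) : ∃ N : ℕ, ∀ m, N ≤ m → SS h x m = lf h x := by
  have hu := (isCompact_uIcc (a := (0 : ℝ)) (b := x)).uniformContinuousOn_of_continuous
    (lf_cont h).continuousOn
  rw [Metric.uniformContinuousOn_iff] at hu
  obtain ⟨δ, hδ, hu⟩ := hu (1 / 2) (by norm_num)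
  obtain ⟨N, hN⟩ := exists_nat_gt (|x| / δ)
  refine ⟨max N 1, fun m hm => ?_⟩
  have hm1 : 0 < m := by
    have := le_trans (le_max_right N 1) hm
    omega
  have hmN : N ≤ m := le_trans (le_max_left N 1) hm
  have hm' : (0 : ℝ) < m := by exact_mod_cast hm1
  have hNm : |x| / δ < m := lt_of_lt_of_le hN (by exact_mod_cast hmN)
  have hxm : |x| / m < δ := by
    rw [div_lt_iff₀ hm']
    rw [div_lt_iff₀ hδ] at hNm
    linarith
  have key : ∀ j ∈ Finset.range m,
      aa ((h (E (((j + 1 : ℕ) : ℝ) * x / m)) : ℂ) / (h (E (((j : ℕ) : ℝ) * x / m)) : ℂ)) =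
        lf h (((j + 1 : ℕ) : ℝ) * x / m) - lf h (((j : ℕ) : ℝ) * x / m) := by
    intro j hj
    have hj' := Finset.mem_range.1 hj
    rw [← lft_lf h, ← lft_lf h, ← Circle.coe_div, ← E_sub]
    apply aa_E
    have h3 := hu _ (mem_seg x hm1 (show j + 1 ≤ m from hj')) _ (mem_seg x hm1 hj'.le) (by
      rw [Real.dist_eq]
      have : ((j + 1 : ℕ) : ℝ) * x / m - (j : ℝ) * x / m = x / m := by
        push_cast
        ring
      rw [this, abs_div, abs_of_pos hm']
      exact hxm)
    rwa [Real.dist_eq] at h3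
  unfold SS
  rw [Finset.sum_congr rfl key, Finset.sum_range_sub (fun j : ℕ => lf h ((j : ℝ) * x / m)),
    ← lf_zero h]
  have h1 : (m : ℝ) * x / m = x := by field_simp
  rw [h1]
  simp

theorem coe_cont : Continuous fun z : Circle => (z : ℂ) := by fun_prop

theorem coe_meas : Measurable fun z : Circle => (z : ℂ) := coe_cont.measurable

theorem ev_meas (c d : ℝ) : Measurable fun p : H × ℝ => ((p.1 (E (c * p.2 / d)) : Circle) : ℂ) := by
  have h1 : Measurable fun p : H × ℝ => (p.1, E (c * p.2 / d)) :=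
    measurable_fst.prodMk (continuous_E.measurable.comp ((measurable_snd.const_mul c).div_const d))
  exact coe_meas.comp (measurable_apply_uncurry.comp h1)

theorem ev_meas0 : Measurable fun p : H × ℝ => ((p.1 (E 0) : Circle) : ℂ) := by
  have h1 : Measurable fun p : H × ℝ => (p.1, E 0) :=
    measurable_fst.prodMk measurable_const
  exact coe_meas.comp (measurable_apply_uncurry.comp h1)

end LiftMAux

open LiftMAux in
theorem measurable_lf : Measurable fun p : H × ℝ => lf p.1 p.2 := by
  refine measurable_of_tendsto_metrizable (f := fun m (p : H × ℝ) => SS p.1 p.2 m) (fun m => ?_) ?_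
  · unfold SS
    refine (measurable_fract.comp (aa_meas.comp ev_meas0)).add ?_
    refine Finset.measurable_sum _ fun j _ => ?_
    exact aa_meas.comp ((ev_meas _ _).div (ev_meas _ _))
  · rw [tendsto_pi_nhds]
    intro p
    obtain ⟨N, hN⟩ := SS_eq p.1 p.2
    refine tendsto_const_nhds.congr' ?_
    filter_upwards [Filter.eventually_ge_atTop N] with m hm
    exact (hN m hm).symm

theorem measurableSet_pos : MeasurableSet {h : H | Pos (lf h)} := by
  have h0 : Measurable fun h : H => lf h 0 :=
    measurable_lf.comp (measurable_id.prodMk (measurable_const (a := (0 : ℝ))))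
  have h1 : Measurable fun h : H => lf h 1 :=
    measurable_lf.comp (measurable_id.prodMk (measurable_const (a := (1 : ℝ))))
  have h2 : {h : H | Pos (lf h)} = {h : H | lf h 0 < lf h 1} := by
    ext h
    exact pos_iff_lt h
  rw [h2]
  exact measurableSet_lt h0 h1

theorem measurable_lf_iter (n : ℕ) : Measurable fun p : H × ℝ => (lf p.1)^[n] p.2 := by
  induction n with
  | zero => exact measurable_snd
  | succ n ih =>
    have h1 : (fun p : H × ℝ => (lf p.1)^[n + 1] p.2) =
        (fun p : H × ℝ => lf p.1 p.2) ∘ fun p : H × ℝ => (p.1, (lf p.1)^[n] p.2) := by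
      funext p
      simp only [Function.comp_apply, Function.iterate_succ_apply']
    rw [h1]
    exact measurable_lf.comp (measurable_fst.prodMk ih)

end Pool.Agent.CIR
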