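import Mathlib

/-!
# CIR.Prd: periodic extension of a smooth function

PROOF. Let `P x = g (Int.fract x)`. For an integer `k` and `x ∈ Ioo (k - 1) (k + 1)`: `P x = g (x - k) + g (x - k + 1)`. Indeed for `k ≤ x`: `Int.fract x = x - k` and `x - k + 1 ≥ 1`, so the second summand vanishes; for `x < k`:
`Int.fract x = x - k + 1` and `x - k < 0`, so the first one vanishes. Every real `x` lies in such an open interval (`k = ⌊x⌋`), so `P` is locally equal to a smooth function: `ContDiffAt`, hence `ContDiff` (`Filter.EventuallyEq`).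
Derivative: near `x` with `k = ⌊x⌋`: `deriv P x = deriv g (x - k) + deriv g (x - k + 1)`, and `deriv g y = 0` for `y ≥ 1`: for `y > 1`, `g = 0` near `y`; for `y = 1`, `deriv g` is continuous (or: the right derivative is `0`).
So `|deriv P x| = |deriv g (x - k)| ≤ C`.
-/

set_option autoImplicit false

open Set
open scoped ContDiff

namespace Pool.Agent.CIR

namespace PrdAux

theorem loc {g : ℝ → ℝ} (h0 : ∀ x, x ∉ Ioo (0 : ℝ) 1 → g x = 0) (k : ℤ) {x : ℝ}
    (h1 : (k : ℝ) - 1 < x) (h2 : x < k + 1) :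
    g (Int.fract x) = g (x - k) + g (x - k + 1) := by
  rcases le_or_gt (k : ℝ) x with h | h
  · have hf : ⌊x⌋ = k := Int.floor_eq_iff.mpr ⟨h, h2⟩
    have : Int.fract x = x - k := by rw [Int.fract, hf]
    rw [this, h0 (x - k + 1) (by intro hh; have := hh.2; linarith), add_zero]
  · have hf : ⌊x⌋ = k - 1 := by
      apply Int.floor_eq_iff.mpr
      push_cast
      exact ⟨h1.le, by linarith⟩
    have : Int.fract x = x - k + 1 := by rw [Int.fract, hf]; push_cast; ring
    rw [this, h0 (x - k) (by intro hh; have := hh.1; linarith), zero_add]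

theorem ev {g : ℝ → ℝ} (h0 : ∀ x, x ∉ Ioo (0 : ℝ) 1 → g x = 0) (x : ℝ) :
    (fun y => g (Int.fract y)) =ᶠ[nhds x] fun y => g (y - ⌊x⌋) + g (y - ⌊x⌋ + 1) := by
  have hI : Ioo ((⌊x⌋ : ℝ) - 1) (⌊x⌋ + 1) ∈ nhds x := by
    apply Ioo_mem_nhds
    · have := Int.floor_le x; linarith
    · exact Int.lt_floor_add_one x
  filter_upwards [hI] with y hy
  exact loc h0 ⌊x⌋ hy.1 hy.2

theorem deriv_zero {g : ℝ → ℝ} (hg : ContDiff ℝ ∞ g) (h0 : ∀ x, x ∉ Ioo (0 : ℝ) 1 → g x = 0)
    {y : ℝ} (hy : 1 ≤ y) : deriv g y = 0 := by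
  have h1 : ∀ z : ℝ, 1 < z → deriv g z = 0 := by
    intro z hz
    have : g =ᶠ[nhds z] fun _ => (0 : ℝ) := by
      filter_upwards [Ioi_mem_nhds hz] with w hw
      exact h0 w (by intro hh; have := hh.2; have h3 : (1 : ℝ) < w := hw; linarith)
    rw [this.deriv_eq]; simp
  rcases eq_or_lt_of_le hy with rfl | hy
  · have hc : Continuous (deriv g) := hg.continuous_deriv (by simp)
    have hcl : IsClosed {z : ℝ | deriv g z = 0} := isClosed_eq hc continuous_const
    have hsub : closure (Ioi (1 : ℝ)) ⊆ {z : ℝ | deriv g z = 0} :=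
      hcl.closure_subset_iff.mpr (fun z hz => h1 z hz)
    exact hsub (by rw [closure_Ioi]; exact Set.self_mem_Ici)
  · exact h1 y hy

end PrdAux

theorem periodize {g : ℝ → ℝ} (hg : ContDiff ℝ ∞ g) (h0 : ∀ x, x ∉ Ioo (0 : ℝ) 1 → g x = 0) {C : ℝ}
    (hC : ∀ x, |deriv g x| ≤ C) :
    ContDiff ℝ ∞ (fun x => g (Int.fract x)) ∧ ∀ x, |deriv (fun x => g (Int.fract x)) x| ≤ C := by
  have hd : Differentiable ℝ g := hg.differentiable (by simp)
  constructor
  · rw [contDiff_iff_contDiffAt]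
    intro x
    refine ContDiffAt.congr_of_eventuallyEq ?_ (PrdAux.ev h0 x)
    apply ContDiff.contDiffAt
    exact (hg.comp (contDiff_id.sub contDiff_const)).add
      (hg.comp ((contDiff_id.sub contDiff_const).add contDiff_const))
  · intro x
    rw [(PrdAux.ev h0 x).deriv_eq]
    have e1 : HasDerivAt (fun y => g (y - ⌊x⌋)) (deriv g (x - ⌊x⌋)) x := by
      have := (hd (x - ⌊x⌋)).hasDerivAt.comp_sub_const x (⌊x⌋ : ℝ)
      exact this
    have e2 : HasDerivAt (fun y => g (y - ⌊x⌋ + 1)) (deriv g (x - ⌊x⌋ + 1)) x := by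
      have h3 : HasDerivAt (fun y : ℝ => y - ⌊x⌋ + 1) 1 x :=
        ((hasDerivAt_id x).sub_const (⌊x⌋ : ℝ)).add_const 1
      have h4 := (hd (x - ⌊x⌋ + 1)).hasDerivAt.comp x h3
      rw [mul_one] at h4
      exact h4
    have e3 := (e1.add e2).deriv
    have e4 : deriv (fun y => g (y - ⌊x⌋) + g (y - ⌊x⌋ + 1)) x
        = deriv g (x - ⌊x⌋) + deriv g (x - ⌊x⌋ + 1) := e3
    rw [e4, PrdAux.deriv_zero hg h0 (y := x - ⌊x⌋ + 1) (by have := Int.floor_le x; linarith), add_zero]
    exact hC _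

/-- A function with small derivative added to the identity is strictly increasing. -/
theorem strictMono_add {e : ℝ → ℝ} (he : Differentiable ℝ e) {C : ℝ} (hC1 : C < 1) (hC : ∀ x, |deriv e x| ≤ C) :
    StrictMono fun x => x + e x := by
  apply strictMono_of_deriv_pos
  intro x
  have h1 : HasDerivAt (fun x => x + e x) (1 + deriv e x) x := (hasDerivAt_id x).add (he x).hasDerivAt
  rw [h1.deriv]
  have := (abs_le.mp (hC x)).1
  linarith

end Pool.Agent.CIR
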