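import Pool.Agent.Lib.CIR.Bmp

/-!
# CIR.Sgn: smooth functions with prescribed signs

PROOF. Take `u, v, b` from `exists_bumps`. For `d : ℝ → ℝ` let `σ n d = 1` if `0 < d x` for all `x ∈ Icc (u n) (v n)`, `σ n d = -1` if `d x < 0` for all `x ∈ Icc (u n) (v n)`, `σ n d = 0` otherwise, and `ef d x = ∑' n, σ n d * b n x`.
Smoothness and the bound of the derivative are part of `exists_bumps`. For `x ∉ Ioo 0 1` all `b n x` vanish (`Ioo (u n) (v n) ⊆ Ioo 0 1`, `b n x ≥ 0` and not `> 0`).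
SIGNS. Let `d` be continuous, `x ∈ Ioo 0 1`. If `0 < d x`: there is `ε > 0` with `0 < d` on `(x - ε, x + ε)`, and `n` with `u n < x < v n`, `v n - u n < ε`; so `σ n d = 1`, `σ n d * b n x > 0`. For every other `n'`: if `b n' x > 0` then
`x ∈ Icc (u n') (v n')`, so `σ n' d ≠ -1` (that would need `d x < 0`), hence `σ n' d * b n' x ≥ 0`. So the sum is positive. In the same way it is negative if `d x < 0`. If `d x = 0`: every term is zero (`b n x > 0` implies `σ n d = 0`).
The two equivalences follow by cases on the sign of `d x`.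
MEASURABILITY. Let `d : Ω → ℝ → ℝ` as in the statement. `{o | ∀ x ∈ Icc (u n) (v n), 0 < d o x} = ⋃ j, ⋂ x ∈ ℚ ∩ Icc (u n) (v n), {o | 1 / (j + 1) ≤ d o x}`: `⊆`: compactness (the minimum of `d o` is positive); `⊇`: rationals are dense in
`Icc (u n) (v n)` (`u n < v n`) and `d o` is continuous, so `d o ≥ 1 / (j + 1)` on all of it. The same for `<`. So `o ↦ σ n (d o)` is measurable, and `o ↦ ef (d o) x` is the limit of the partial sums (`measurable_of_tendsto_metrizable`,
`Summable.hasSum`, `HasSum.tendsto_sum_nat`).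
-/

set_option autoImplicit false

open Set
open scoped ContDiff

namespace Pool.Agent.CIR

open Classical in
/-- The sign of `d` on the closed interval. -/
private noncomputable def sg (u v : ℝ) (d : ℝ → ℝ) : ℝ :=
  if ∀ x ∈ Icc u v, 0 < d x then 1 else if ∀ x ∈ Icc u v, d x < 0 then -1 else 0

private theorem abs_sg (u v : ℝ) (d : ℝ → ℝ) : |sg u v d| ≤ 1 := by
  unfold sg
  split_ifs <;> simp

private theorem sg_nonneg {u v x : ℝ} {d : ℝ → ℝ} (hx : x ∈ Icc u v) (h : 0 < d x) :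
    0 ≤ sg u v d := by
  unfold sg
  split_ifs with h1 h2
  · exact zero_le_one
  · exact absurd (h2 x hx) (not_lt.2 h.le)
  · exact le_rfl

private theorem sg_nonpos {u v x : ℝ} {d : ℝ → ℝ} (hx : x ∈ Icc u v) (h : d x < 0) :
    sg u v d ≤ 0 := by
  unfold sg
  split_ifs with h1 h2
  · exact absurd (h1 x hx) (not_lt.2 h.le)
  · norm_num
  · exact le_rfl

private theorem sg_zero {u v x : ℝ} {d : ℝ → ℝ} (hx : x ∈ Icc u v) (h : d x = 0) :
    sg u v d = 0 := by
  unfold sg
  split_ifs with h1 h2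
  · exact absurd (h1 x hx) (by simp [h])
  · exact absurd (h2 x hx) (by simp [h])
  · rfl

private theorem pos_iff {u v : ℝ} (huv : u < v) {d : ℝ → ℝ} (hd : Continuous d) :
    (∀ x ∈ Icc u v, 0 < d x) ↔ ∃ j : ℕ, ∀ q : ℚ, (q : ℝ) ∈ Icc u v → 1 / ((j : ℝ) + 1) ≤ d q := by
  constructor
  · intro h
    obtain ⟨x0, hx0, hmin⟩ := isCompact_Icc.exists_isMinOn (nonempty_Icc.2 huv.le) hd.continuousOn
    obtain ⟨j, hj⟩ := exists_nat_one_div_lt (h x0 hx0)
    exact ⟨j, fun q hq => hj.le.trans (hmin hq)⟩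
  · rintro ⟨j, hj⟩ x hx
    have hpos : (0 : ℝ) < 1 / ((j : ℝ) + 1) := by positivity
    by_contra hneg
    have hO : IsOpen {y | d y < 1 / ((j : ℝ) + 1)} := isOpen_lt hd continuous_const
    have hxO : x ∈ {y | d y < 1 / ((j : ℝ) + 1)} := lt_of_le_of_lt (not_lt.1 hneg) hpos
    have hxc : x ∈ closure (Ioo u v) := by rwa [closure_Ioo huv.ne]
    obtain ⟨q, hq1, hq2⟩ := Rat.denseRange_cast.exists_mem_open (hO.inter isOpen_Ioo)
      (mem_closure_iff.1 hxc _ hO hxO)
    exact absurd (hj q (Ioo_subset_Icc_self hq2)) (not_le.2 hq1)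

private theorem meas_pos {Ω : Type} [MeasurableSpace Ω] {d : Ω → ℝ → ℝ}
    (hd : ∀ o, Continuous (d o)) (hm : ∀ x, Measurable fun o => d o x) {u v : ℝ} (huv : u < v) :
    MeasurableSet {o | ∀ x ∈ Icc u v, 0 < d o x} := by
  have e : {o | ∀ x ∈ Icc u v, 0 < d o x} =
      ⋃ j : ℕ, ⋂ q : ℚ, {o | (q : ℝ) ∈ Icc u v → 1 / ((j : ℝ) + 1) ≤ d o q} := by
    ext o
    simp only [mem_iUnion, mem_iInter]
    exact pos_iff huv (hd o)
  rw [e]
  refine MeasurableSet.iUnion fun j => MeasurableSet.iInter fun q => ?_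
  by_cases hq : (q : ℝ) ∈ Icc u v
  · simp only [hq, forall_const]
    exact measurableSet_le measurable_const (hm q)
  · simp [hq]

private theorem meas_sg {Ω : Type} [MeasurableSpace Ω] {d : Ω → ℝ → ℝ}
    (hd : ∀ o, Continuous (d o)) (hm : ∀ x, Measurable fun o => d o x) {u v : ℝ} (huv : u < v) :
    Measurable fun o => sg u v (d o) := by
  have h1 := meas_pos hd hm huv
  have h2 : MeasurableSet {o | ∀ x ∈ Icc u v, d o x < 0} := by
    have := meas_pos (d := fun o x => - d o x) (fun o => (hd o).neg) (fun x => (hm x).neg) huv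
    simpa using this
  unfold sg
  exact Measurable.ite h1 measurable_const (Measurable.ite h2 measurable_const measurable_const)

theorem exists_ef : ∃ ef : (ℝ → ℝ) → ℝ → ℝ, (∀ d, ContDiff ℝ ∞ (ef d)) ∧ (∀ d x, |deriv (ef d) x| ≤ 1 / 4) ∧
    (∀ d x, x ∉ Ioo (0 : ℝ) 1 → ef d x = 0) ∧
    (∀ d, Continuous d → ∀ x ∈ Ioo (0 : ℝ) 1, (0 < ef d x ↔ 0 < d x) ∧ (ef d x < 0 ↔ d x < 0)) ∧
    ∀ {Ω : Type} [MeasurableSpace Ω] (d : Ω → ℝ → ℝ), (∀ o, Continuous (d o)) → (∀ x, Measurable fun o => d o x) →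
      ∀ x, Measurable fun o => ef (d o) x := by
  obtain ⟨u, v, b, huv, hint, hb0, hb, hσ⟩ := exists_bumps
  have hs : ∀ d : ℝ → ℝ, ∀ n, |sg (u n) (v n) d| ≤ 1 := fun d n => abs_sg _ _ _
  have huv' : ∀ n, ((u n : ℚ) : ℝ) < v n := fun n => by exact_mod_cast (huv n).2.1
  have hpos : ∀ d : ℝ → ℝ, Continuous d → ∀ x ∈ Ioo (0 : ℝ) 1, 0 < d x →
      0 < ∑' n, sg (u n) (v n) d * b n x := by
    intro d hd x hx hdx
    obtain ⟨ε, hε, hball⟩ := Metric.isOpen_iff.1 (isOpen_lt continuous_const hd) x hdx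
    obtain ⟨n, h1, h2, h3⟩ := hint x hx ε hε
    refine Summable.tsum_pos ((hσ _ (hs d)).1 x) (fun m => ?_) n ?_
    · rcases (hb0 m x).eq_or_lt with h | h
      · rw [← h, mul_zero]
      · exact mul_nonneg (sg_nonneg ⟨((hb m x).1 h).1.le, ((hb m x).1 h).2.le⟩ hdx) h.le
    · have h4 : sg (u n) (v n) d = 1 := by
        unfold sg
        rw [if_pos]
        intro y hy
        apply hball
        rw [Metric.mem_ball, Real.dist_eq, abs_lt]
        constructor <;> linarith [hy.1, hy.2]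
      rw [h4, one_mul]
      exact (hb n x).2 ⟨h1, h2⟩
  have hneg : ∀ d : ℝ → ℝ, Continuous d → ∀ x ∈ Ioo (0 : ℝ) 1, d x < 0 →
      ∑' n, sg (u n) (v n) d * b n x < 0 := by
    intro d hd x hx hdx
    obtain ⟨ε, hε, hball⟩ := Metric.isOpen_iff.1 (isOpen_lt hd continuous_const) x hdx
    obtain ⟨n, h1, h2, h3⟩ := hint x hx ε hε
    have : 0 < ∑' m, -(sg (u m) (v m) d * b m x) := by
      refine Summable.tsum_pos ((hσ _ (hs d)).1 x).neg (fun m => ?_) n ?_
      · rcases (hb0 m x).eq_or_lt with h | h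
        · rw [← h, mul_zero, neg_zero]
        · rw [neg_nonneg]
          exact mul_nonpos_of_nonpos_of_nonneg
            (sg_nonpos ⟨((hb m x).1 h).1.le, ((hb m x).1 h).2.le⟩ hdx) h.le
      · have h4 : sg (u n) (v n) d = -1 := by
          have h5 : ∀ y ∈ Icc ((u n : ℚ) : ℝ) (v n), d y < 0 := by
            intro y hy
            apply hball
            rw [Metric.mem_ball, Real.dist_eq, abs_lt]
            constructor <;> linarith [hy.1, hy.2]
          unfold sg
          rw [if_neg, if_pos h5]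
          intro h6
          have h7 : x ∈ Icc ((u n : ℚ) : ℝ) (v n) := ⟨h1.le, h2.le⟩
          exact absurd (h6 x h7) (not_lt.2 (h5 x h7).le)
        rw [h4, neg_one_mul, neg_neg]
        exact (hb n x).2 ⟨h1, h2⟩
    rw [tsum_neg] at this
    linarith
  have hzero : ∀ d : ℝ → ℝ, ∀ x, d x = 0 → ∑' n, sg (u n) (v n) d * b n x = 0 := by
    intro d x hdx
    rw [← tsum_zero (α := ℝ) (β := ℕ)]
    congr 1
    ext n
    rcases (hb0 n x).eq_or_lt with h | h
    · rw [← h, mul_zero]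
    · rw [sg_zero ⟨((hb n x).1 h).1.le, ((hb n x).1 h).2.le⟩ hdx, zero_mul]
  refine ⟨fun d x => ∑' n, sg (u n) (v n) d * b n x, fun d => (hσ _ (hs d)).2.1,
    fun d x => (hσ _ (hs d)).2.2 x, ?_, ?_, ?_⟩
  · intro d x hx
    have : ∀ n, b n x = 0 := by
      intro n
      by_contra hne
      have h := (hb n x).1 (lt_of_le_of_ne (hb0 n x) (Ne.symm hne))
      have h1 : (0 : ℝ) < u n := by exact_mod_cast (huv n).1
      have h2 : ((v n : ℚ) : ℝ) < 1 := by exact_mod_cast (huv n).2.2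
      exact hx ⟨h1.trans h.1, h.2.trans h2⟩
    simp [this]
  · intro d hd x hx
    rcases lt_trichotomy (d x) 0 with h | h | h
    · have h1 := hneg d hd x hx h
      exact ⟨⟨fun h2 => absurd h2 (not_lt.2 h1.le), fun h2 => absurd h2 (not_lt.2 h.le)⟩,
        ⟨fun _ => h, fun _ => h1⟩⟩
    · have h1 := hzero d x h
      simp [h1, h]
    · have h1 := hpos d hd x hx h
      exact ⟨⟨fun _ => h, fun _ => h1⟩,
        ⟨fun h2 => absurd h2 (not_lt.2 h1.le), fun h2 => absurd h2 (not_lt.2 h.le)⟩⟩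
  · intro Ω _ d hd hm x
    refine measurable_of_tendsto_metrizable
      (f := fun N o => ∑ n ∈ Finset.range N, sg (u n) (v n) (d o) * b n x) (fun N => ?_) ?_
    · exact Finset.measurable_sum _ fun n _ => (meas_sg hd hm (huv' n)).mul_const _
    · rw [tendsto_pi_nhds]
      intro o
      exact ((hσ _ (hs (d o))).1 x).hasSum.tendsto_sum_nat

end Pool.Agent.CIR
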