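import Mathlib

/-!
# CIR.Zer: measurable choice of a zero

PROOF. For a real `c` with `0 ≤ c ≤ 1`: `{ω | ∃ x ∈ Icc 0 c, φ ω x = 0} = ⋂ j : ℕ, ⋃ x ∈ ℚ ∩ Icc 0 c, {ω | |φ ω x| < 1 / (j + 1)}`. `⊆`: if `c = 0` take `x = 0`; if `c > 0` the rationals of `Icc 0 c` are dense in it and `φ ω` is continuous.
`⊇`: the continuous function `|φ ω|` attains its minimum on the compact set `Icc 0 c`; it is smaller than every `1 / (j + 1)`, so it is `0`. So these sets are measurable. (`c = 1` is the first claim.)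
Let `a ω = sInf {x ∈ Icc 0 1 | φ ω x = 0}` (this is `0` if the set is empty: `Real.sInf_empty`). If the set is nonempty, it is compact, so `a ω` belongs to it (`IsCompact.sInf_mem`). Measurability (`measurable_of_Iic`): for `c < 0`,
`{ω | a ω ≤ c}` is empty (`Real.sInf_nonneg`-like), for `c ≥ 1` it is everything; for `0 ≤ c < 1` it is the union of the set above and of the complement of `{ω | ∃ x ∈ Icc 0 1, φ ω x = 0}`.
-/

set_option autoImplicit false

open Set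

namespace Pool.Agent.CIR

namespace ZerAux

theorem exists_rat {f : ℝ → ℝ} (hf : Continuous f) {c x : ℝ} (hx : x ∈ Icc (0 : ℝ) c)
    (h0 : f x = 0) {e : ℝ} (he : 0 < e) : ∃ q : ℚ, (q : ℝ) ∈ Icc (0 : ℝ) c ∧ |f q| < e := by
  rcases eq_or_lt_of_le (hx.1.trans hx.2) with hc | hc
  · refine ⟨0, ?_, ?_⟩
    · rw [Rat.cast_zero, ← hc]
      exact ⟨le_refl _, le_refl _⟩
    · have h1 : x = 0 := le_antisymm (by rw [hc]; exact hx.2) hx.1
      rw [Rat.cast_zero, ← h1, h0, abs_zero]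
      exact he
  · have hU : IsOpen {y | |f y| < e} := isOpen_lt (continuous_abs.comp hf) continuous_const
    have hxU : x ∈ {y | |f y| < e} := by
      rw [mem_ofPred_eq, h0, abs_zero]
      exact he
    have hcl : x ∈ closure (Ioo (0 : ℝ) c) := by
      rw [closure_Ioo hc.ne]
      exact hx
    obtain ⟨y, hy1, hy2⟩ := mem_closure_iff.1 hcl _ hU hxU
    obtain ⟨z, hz, q, rfl⟩ := mem_closure_iff.1 (Rat.denseRange_cast (𝕜 := ℝ) y)
      ({y | |f y| < e} ∩ Ioo 0 c) (hU.inter isOpen_Ioo) ⟨hy1, hy2⟩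
    exact ⟨q, ⟨hz.2.1.le, hz.2.2.le⟩, hz.1⟩

theorem exists_zero {f : ℝ → ℝ} (hf : Continuous f) {c : ℝ} (hc : 0 ≤ c)
    (h : ∀ j : ℕ, ∃ q : ℚ, (q : ℝ) ∈ Icc (0 : ℝ) c ∧ |f q| < 1 / ((j : ℝ) + 1)) :
    ∃ x ∈ Icc (0 : ℝ) c, f x = 0 := by
  obtain ⟨x, hx, hmin⟩ := isCompact_Icc.exists_isMinOn (nonempty_Icc.2 hc)
    (continuous_abs.comp hf).continuousOn
  refine ⟨x, hx, ?_⟩
  by_contra hne
  have hpos : 0 < |f x| := abs_pos.2 hne
  obtain ⟨j, hj⟩ := exists_nat_one_div_lt hpos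
  obtain ⟨q, hq, hq2⟩ := h j
  have h1 : |f x| ≤ |f q| := hmin hq
  linarith

theorem meas {Ω : Type*} [MeasurableSpace Ω] {φ : Ω → ℝ → ℝ} (hc : ∀ ω, Continuous (φ ω))
    (hm : ∀ x, Measurable fun ω => φ ω x) {c : ℝ} (h0 : 0 ≤ c) :
    MeasurableSet {ω | ∃ x ∈ Icc (0 : ℝ) c, φ ω x = 0} := by
  have h1 : {ω | ∃ x ∈ Icc (0 : ℝ) c, φ ω x = 0} =
      ⋂ j : ℕ, ⋃ q : ℚ, {ω | (q : ℝ) ∈ Icc (0 : ℝ) c ∧ |φ ω q| < 1 / ((j : ℝ) + 1)} := by
    ext ω
    simp only [mem_ofPred_eq, mem_iInter, mem_iUnion]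
    constructor
    · rintro ⟨x, hx, hx0⟩ j
      exact exists_rat (hc ω) hx hx0 (by positivity)
    · intro h
      exact exists_zero (hc ω) h0 h
  rw [h1]
  refine MeasurableSet.iInter fun j => MeasurableSet.iUnion fun q => ?_
  refine MeasurableSet.inter (MeasurableSet.const _) ?_
  exact measurableSet_lt (continuous_abs.measurable.comp (hm q)) measurable_const

end ZerAux

open ZerAux

theorem measurable_zero {Ω : Type*} [MeasurableSpace Ω] {φ : Ω → ℝ → ℝ} (hc : ∀ ω, Continuous (φ ω))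
    (hm : ∀ x, Measurable fun ω => φ ω x) :
    MeasurableSet {ω | ∃ x ∈ Icc (0 : ℝ) 1, φ ω x = 0} ∧
      ∃ a : Ω → ℝ, Measurable a ∧ ∀ ω, (∃ x ∈ Icc (0 : ℝ) 1, φ ω x = 0) → φ ω (a ω) = 0 := by
  refine ⟨meas hc hm zero_le_one, fun ω => sInf {x | x ∈ Icc (0 : ℝ) 1 ∧ φ ω x = 0}, ?_, ?_⟩
  · have key : ∀ ω, (∃ x ∈ Icc (0 : ℝ) 1, φ ω x = 0) →
        sInf {x | x ∈ Icc (0 : ℝ) 1 ∧ φ ω x = 0} ∈ {x | x ∈ Icc (0 : ℝ) 1 ∧ φ ω x = 0} := by
      rintro ω ⟨x, hx⟩
      refine IsCompact.sInf_mem ?_ ⟨x, hx⟩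
      exact isCompact_Icc.inter_right (isClosed_eq (hc ω) continuous_const)
    refine measurable_of_Iic fun c => ?_
    rcases lt_or_ge c 0 with h | h
    · have h1 : (fun ω => sInf {x | x ∈ Icc (0 : ℝ) 1 ∧ φ ω x = 0}) ⁻¹' Iic c = ∅ := by
        rw [eq_empty_iff_forall_notMem]
        intro ω hω
        have h2 : 0 ≤ sInf {x | x ∈ Icc (0 : ℝ) 1 ∧ φ ω x = 0} :=
          Real.sInf_nonneg fun x hx => hx.1.1
        have h3 : sInf {x | x ∈ Icc (0 : ℝ) 1 ∧ φ ω x = 0} ≤ c := hω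
        linarith
      rw [h1]
      exact MeasurableSet.empty
    · rcases lt_or_ge c 1 with h' | h'
      · have h1 : (fun ω => sInf {x | x ∈ Icc (0 : ℝ) 1 ∧ φ ω x = 0}) ⁻¹' Iic c =
            {ω | ∃ x ∈ Icc (0 : ℝ) c, φ ω x = 0} ∪ {ω | ∃ x ∈ Icc (0 : ℝ) 1, φ ω x = 0}ᶜ := by
          ext ω
          simp only [mem_preimage, mem_Iic, mem_union, mem_compl_iff]
          constructor
          · intro h2
            by_cases h3 : ∃ x ∈ Icc (0 : ℝ) 1, φ ω x = 0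
            · left
              have h4 := key ω h3
              exact ⟨_, ⟨h4.1.1, h2⟩, h4.2⟩
            · right
              exact h3
          · rintro (h2 | h2)
            · obtain ⟨x, hx, hx0⟩ := h2
              refine le_trans (csInf_le ⟨0, fun y hy => hy.1.1⟩ ?_) hx.2
              exact ⟨⟨hx.1, hx.2.trans h'.le⟩, hx0⟩
            · have h3 : {x | x ∈ Icc (0 : ℝ) 1 ∧ φ ω x = 0} = ∅ := by
                rw [eq_empty_iff_forall_notMem]
                intro x hx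
                exact h2 ⟨x, hx⟩
              rw [h3, Real.sInf_empty]
              exact h
        rw [h1]
        exact (meas hc hm h).union (meas hc hm zero_le_one).compl
      · have h1 : (fun ω => sInf {x | x ∈ Icc (0 : ℝ) 1 ∧ φ ω x = 0}) ⁻¹' Iic c = univ := by
          rw [eq_univ_iff_forall]
          intro ω
          show sInf {x | x ∈ Icc (0 : ℝ) 1 ∧ φ ω x = 0} ≤ c
          by_cases h3 : ∃ x ∈ Icc (0 : ℝ) 1, φ ω x = 0
          · exact (key ω h3).1.2.trans h'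
          · have h4 : {x | x ∈ Icc (0 : ℝ) 1 ∧ φ ω x = 0} = ∅ := by
              rw [eq_empty_iff_forall_notMem]
              intro x hx
              exact h3 ⟨x, hx⟩
            rw [h4, Real.sInf_empty]
            exact h
        rw [h1]
        exact MeasurableSet.univ
  · rintro ω ⟨x, hx⟩
    have h1 : sInf {x | x ∈ Icc (0 : ℝ) 1 ∧ φ ω x = 0} ∈ {x | x ∈ Icc (0 : ℝ) 1 ∧ φ ω x = 0} := by
      refine IsCompact.sInf_mem ?_ ⟨x, hx⟩
      exact isCompact_Icc.inter_right (isClosed_eq (hc ω) continuous_const)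
    exact h1.2

end Pool.Agent.CIR
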