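import Pool.Agent.Lib.CIR.MinusN
import Pool.Agent.Lib.CIR.Sgn
import Pool.Agent.Lib.CIR.Prd
import Pool.Agent.Lib.CIR.Zer
import Pool.Agent.Lib.CIR.Asm
import Pool.Agent.Lib.CIR.LiftM

/-!
# CIR.MinusR: measurable normal forms, orientation reversing case

PROOF. Let `W = {h | Neg (lf h)}`, the complement of a measurable set (`measurableSet_pos`, `neg_iff_not`). For `h ∈ W`, `F = lf h`: `0 ≤ F 0 < 1`, `F 1 = F 0 - 1` (`lf_spec`, `Neg.add_one`).
(1) `F x - x` is `≥ 0` at `x = 0` and `< 0` at `x = 1`, so it has a zero in `Icc 0 1`; `F x - x + 1` is `> 0` at `x = 0` and `F 0 - 1 < 0` at `x = 1`, so it has a zero there too. `measurable_zero` for `φ h x = lf h x - x` and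
`φ h x = lf h x - x + 1` (continuous: `lf_cont`; measurable: `measurable_lf`) gives measurable `a b : H → ℝ` with `F (a h) = a h`, `F (b h) = b h - 1` for `h ∈ W`. `a h < b h`: if `b ≤ a` then `F b ≥ F a = a ≥ b > b - 1`, contradiction.
(2) `d h x = F (F (a h + (b h - a h) * x)) - (a h + (b h - a h) * x)`: continuous in `x`, measurable in `h`. Take `ef` from `exists_ef`, `e₀ h = ef (d h)`, `g h x = e₀ h (2 * x)`: smooth, zero outside `Ioo 0 1` (even outside `Ioo 0 (1/2)`),
`|deriv (g h) x| ≤ 1 / 2`. `P h x = g h (Int.fract x)` is smooth with `|deriv| ≤ 1 / 2` (`periodize`) and has period `1`. Let `m h x = (P h x - P h (-x)) / 2`: smooth, odd, period `1`, `|deriv (m h) x| ≤ 1 / 2`, so `x ↦ x + m h x` is strictly increasing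
(`strictMono_add`).
SIGNS. For `x ∈ Icc 0 1`: `m h (x / 2) = e₀ h x / 2`: `Int.fract (x / 2) = x / 2`, so `P h (x / 2) = e₀ h x`; and `P h (- x / 2) = 0`: for `x > 0`, `Int.fract (- x / 2) = 1 - x / 2 ≥ 1 / 2` and `g h` vanishes there; for `x = 0`, `P h 0 = e₀ h 0 = 0`.
For `x ∈ Ioo 0 1` use `exists_ef`; for `x = 0` and `x = 1`: `e₀ h x = 0` and `d h x = 0` (`F (F a) = a`; `F (F b) = F (b - 1) = F b + 1 = b`), so both sides of the equivalences are false.
(3) `G h = GM (m h)` is `Neg` (`neg_GM`), smooth, with derivative `- (1 + deriv (m h) x) ≤ - 1 / 2`; `h ↦ G h x` is measurable (last part of `exists_ef` with `Ω = H`). `exists_measurable_dif` gives `s`, `minus_nf` gives `Ψ`,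
and `cj_of_lift` gives `Cj h (s h)`.
-/

set_option autoImplicit false

open Set
open scoped ContDiff Manifold

namespace Pool.Agent.CIR

namespace MinusRAux

/-- The odd periodic extension. -/
noncomputable def mm (e : ℝ → ℝ) (x : ℝ) : ℝ := (e (2 * Int.fract x) - e (2 * Int.fract (-x))) / 2

theorem mm_props {e : ℝ → ℝ} (he : ContDiff ℝ ∞ e) (h4 : ∀ x, |deriv e x| ≤ 1 / 4)
    (h0 : ∀ x, x ∉ Ioo (0 : ℝ) 1 → e x = 0) :
    ContDiff ℝ ∞ (mm e) ∧ (∀ x, |deriv (mm e) x| ≤ 1 / 2) ∧ (∀ x, mm e (x + 1) = mm e x) ∧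
      (∀ x, mm e (-x) = -mm e x) ∧ ∀ x ∈ Icc (0 : ℝ) 1, mm e (x / 2) = e x / 2 := by
  have hg : ContDiff ℝ ∞ (fun x => e (2 * x)) := he.comp (contDiff_const.mul contDiff_id)
  have hg0 : ∀ x, x ∉ Ioo (0 : ℝ) 1 → (fun x => e (2 * x)) x = 0 := by
    intro x hx
    apply h0
    intro h
    apply hx
    exact ⟨by linarith [h.1], by linarith [h.1, h.2]⟩
  have hgd : ∀ x, |deriv (fun x => e (2 * x)) x| ≤ 1 / 2 := by
    intro x
    have h1 : deriv (fun x => e (2 * x)) x = (2 : ℝ) • deriv e (2 * x) := deriv_comp_mul_left 2 e x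
    rw [h1]
    have h2 := h4 (2 * x)
    rw [smul_eq_mul, abs_mul, abs_of_pos (by norm_num : (0 : ℝ) < 2)]
    linarith
  obtain ⟨hP, hPd⟩ := periodize hg hg0 hgd
  set P : ℝ → ℝ := fun x => (fun x => e (2 * x)) (Int.fract x) with hPdef
  have hmm : mm e = fun x => (P x - P (-x)) / 2 := rfl
  have hPn : ContDiff ℝ ∞ (fun x => P (-x)) := hP.comp contDiff_neg
  have hdP : Differentiable ℝ P := hP.differentiable (by simp)
  have hdPn : Differentiable ℝ (fun x => P (-x)) := hPn.differentiable (by simp)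
  refine ⟨?_, ?_, ?_, ?_, ?_⟩
  · rw [hmm]
    exact (hP.sub hPn).div_const 2
  · intro x
    have h1 : deriv (mm e) x = (deriv P x + deriv P (-x)) / 2 := by
      rw [hmm]
      have h2 : HasDerivAt P (deriv P x) x := (hdP x).hasDerivAt
      have h3 : HasDerivAt P (deriv P (-x)) (-x) := (hdP (-x)).hasDerivAt
      have h4 : HasDerivAt (fun x => P (-x)) (deriv P (-x) * (-1)) x := h3.comp x (hasDerivAt_neg x)
      have h5 := (h2.sub h4).div_const 2
      have h6 := h5.deriv
      have h7 : deriv (fun x => (P x - P (-x)) / 2) x = (deriv P x - deriv P (-x) * -1) / 2 := h6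
      rw [h7]
      ring
    rw [h1, abs_div, abs_of_pos (by norm_num : (0 : ℝ) < 2)]
    have h2 := abs_add_le (deriv P x) (deriv P (-x))
    have h3 := hPd x
    have h4 := hPd (-x)
    linarith
  · intro x
    unfold mm
    have h1 : Int.fract (x + 1) = Int.fract x := Int.fract_add_one x
    have h2 : Int.fract (-(x + 1)) = Int.fract (-x) := by
      have : -(x + 1) = -x - 1 := by ring
      rw [this, Int.fract_sub_one]
    rw [h1, h2]
  · intro x
    unfold mm
    rw [neg_neg]
    ring
  · intro x hx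
    unfold mm
    have h1 : Int.fract (x / 2) = x / 2 := Int.fract_eq_self.2 ⟨by linarith [hx.1], by linarith [hx.2]⟩
    have h2 : 2 * Int.fract (x / 2) = x := by rw [h1]; ring
    rw [h2]
    have h3 : e (2 * Int.fract (-(x / 2))) = 0 := by
      apply h0
      rcases hx.1.eq_or_lt with h | h
      · rw [← h]
        simp
      · have h4 : Int.fract (-(x / 2)) = 1 - x / 2 := by
          rw [Int.fract_eq_iff]
          refine ⟨by linarith [hx.2], by linarith, -1, ?_⟩
          push_cast
          ring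
        rw [h4]
        intro h5
        linarith [h5.2, hx.2]
    rw [h3, sub_zero]

end MinusRAux

open MinusRAux

theorem measurableSet_neg : MeasurableSet {h : H | Neg (lf h)} := by
  have h1 : {h : H | Neg (lf h)} = {h : H | Pos (lf h)}ᶜ := by
    ext h
    exact neg_iff_not h
  rw [h1]
  exact measurableSet_pos.compl

theorem minus : ∃ s : H → Dif, Measurable s ∧ ∀ h : H, Neg (lf h) → Cj h (s h) := by
  obtain ⟨-, a, ham, ha⟩ := measurable_zero (φ := fun (h : H) x => lf h x - x)
    (fun h => (lf_cont h).sub continuous_id)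
    (fun x => (measurable_lf.comp (measurable_id.prodMk measurable_const)).sub_const x)
  obtain ⟨-, b, hbm, hb⟩ := measurable_zero (φ := fun (h : H) x => lf h x - x + 1)
    (fun h => ((lf_cont h).sub continuous_id).add continuous_const)
    (fun x => ((measurable_lf.comp (measurable_id.prodMk measurable_const)).sub_const x).add_const 1)
  obtain ⟨ef, hef1, hef2, hef3, hef4, hef5⟩ := exists_ef
  set d : H → ℝ → ℝ := fun h x => lf h (lf h (a h + (b h - a h) * x)) - (a h + (b h - a h) * x) with hd
  have hdc : ∀ h, Continuous (d h) := by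
    intro h
    have h1 : Continuous (fun x : ℝ => a h + (b h - a h) * x) := by fun_prop
    exact ((lf_cont h).comp ((lf_cont h).comp h1)).sub h1
  have hdm : ∀ x, Measurable fun h => d h x := by
    intro x
    have h1 : Measurable (fun h : H => a h + (b h - a h) * x) := ham.add ((hbm.sub ham).mul_const x)
    have h2 : Measurable (fun h : H => lf h (a h + (b h - a h) * x)) :=
      measurable_lf.comp (measurable_id.prodMk h1)
    have h3 : Measurable (fun h : H => lf h (lf h (a h + (b h - a h) * x))) :=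
      measurable_lf.comp (measurable_id.prodMk h2)
    exact h3.sub h1
  have hm := fun h : H => mm_props (hef1 (d h)) (hef2 (d h)) (hef3 (d h))
  have hdiff : ∀ h : H, Differentiable ℝ (mm (ef (d h))) := fun h => (hm h).1.differentiable (by simp)
  have hmono : ∀ h : H, StrictMono fun x => x + mm (ef (d h)) x := fun h =>
    strictMono_add (hdiff h) (C := 1 / 2) (by norm_num) (hm h).2.1
  obtain ⟨s, hs1, hs2⟩ := exists_measurable_dif measurableSet_neg (fun h x => GM (mm (ef (d h))) x)
    (by
      intro h hh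
      refine ⟨Or.inr (neg_GM (hm h).1.continuous (hm h).2.2.1 (hmono h)), ?_, ?_⟩
      · exact (contDiff_id.add (hm h).1).neg
      · intro x
        have h1 : HasDerivAt (fun x => GM (mm (ef (d h))) x) (-(1 + deriv (mm (ef (d h))) x)) x :=
          ((hasDerivAt_id x).add (hdiff h x).hasDerivAt).neg
        rw [h1.deriv]
        have h2 := (abs_le.1 ((hm h).2.1 x)).1
        intro h3
        linarith)
    (by
      intro x
      have h1 : Measurable fun h => ef (d h) (2 * Int.fract x) := hef5 d hdc hdm _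
      have h2 : Measurable fun h => ef (d h) (2 * Int.fract (-x)) := hef5 d hdc hdm _
      exact ((((h1.sub h2).div_const 2).const_add x)).neg)
  refine ⟨s, hs1, ?_⟩
  intro h hF
  obtain ⟨-, -, h0, h1⟩ := lf_spec h
  have hF1 : lf h 1 = lf h 0 - 1 := by
    have := hF.add_one 0
    rwa [zero_add] at this
  have haF : lf h (a h) = a h := by
    have h2 : ∃ x ∈ Icc (0 : ℝ) 1, lf h x - x = 0 := by
      have h3 := intermediate_value_Icc' (zero_le_one (α := ℝ))
        ((lf_cont h).sub continuous_id).continuousOn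
      obtain ⟨x, hx, hx2⟩ := h3 (show (0 : ℝ) ∈ _ from ⟨by simp only [Pi.sub_apply, id]; linarith, by simp only [Pi.sub_apply, id]; linarith⟩)
      exact ⟨x, hx, hx2⟩
    have h3 := ha h h2
    linarith
  have hbF : lf h (b h) = b h - 1 := by
    have h2 : ∃ x ∈ Icc (0 : ℝ) 1, lf h x - x + 1 = 0 := by
      have h3 := intermediate_value_Icc' (zero_le_one (α := ℝ))
        ((lf_cont h).sub continuous_id).continuousOn
      obtain ⟨x, hx, hx2⟩ := h3 (show (-1 : ℝ) ∈ _ from ⟨by simp only [Pi.sub_apply, id]; linarith, by simp only [Pi.sub_apply, id]; linarith⟩)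
      refine ⟨x, hx, ?_⟩
      have hx3 : lf h x - x = -1 := hx2
      rw [hx3]
      norm_num
    have h3 := hb h h2
    linarith
  have hab : a h < b h := by
    by_contra hcon
    push Not at hcon
    have h2 := hF.strictAnti.antitone hcon
    rw [haF, hbF] at h2
    linarith
  have hd0 : d h 0 = 0 := by
    simp only [hd]
    rw [mul_zero, add_zero, haF, haF, sub_self]
  have hd1 : d h 1 = 0 := by
    simp only [hd]
    have h2 : a h + (b h - a h) * 1 = b h := by ring
    have h3 : lf h (b h - 1) = lf h (b h) + 1 := by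
      have := hF.sub_int (b h) 1
      push_cast at this
      exact this
    rw [h2, hbF, h3, hbF]
    ring
  have he0 : ef (d h) 0 = 0 := hef3 _ 0 (by simp)
  have he1 : ef (d h) 1 = 0 := hef3 _ 1 (by simp)
  have hsign : ∀ x ∈ Icc (0 : ℝ) 1, (0 < mm (ef (d h)) (x / 2) ↔ 0 < d h x) ∧
      (mm (ef (d h)) (x / 2) < 0 ↔ d h x < 0) := by
    intro x hx
    rw [(hm h).2.2.2.2 x hx]
    have h2 : (0 < ef (d h) x ↔ 0 < d h x) ∧ (ef (d h) x < 0 ↔ d h x < 0) := by
      rcases hx.1.eq_or_lt with h3 | h3
      · rw [← h3, he0, hd0]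
        exact ⟨Iff.rfl, Iff.rfl⟩
      · rcases hx.2.eq_or_lt with h4 | h4
        · rw [h4, he1, hd1]
          exact ⟨Iff.rfl, Iff.rfl⟩
        · exact hef4 (d h) (hdc h) x ⟨h3, h4⟩
    constructor
    · rw [← h2.1]
      constructor
      · intro h3; linarith
      · intro h3; linarith
    · rw [← h2.2]
      constructor
      · intro h3; linarith
      · intro h3; linarith
  obtain ⟨Ψ, hΨ, hconj⟩ := minus_nf hF hab haF hbF (hm h).1.continuous (hm h).2.2.1 (hm h).2.2.2.1 (hmono h)
    (fun x hx => (hsign x hx).1) (fun x hx => (hsign x hx).2)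
  exact cj_of_lift (lft_lf h) (hs2 h hF) (Or.inl hΨ) hconj

end Pool.Agent.CIR
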