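import Pool.Agent.Lib.CIR.PlusR
import Pool.Agent.Lib.CIR.MinusR
import Pool.Agent.Lib.CIR.Cover

/-!
# CIR.Real: every homeomorphism with a periodic point is conjugate to a smooth one, measurably

PROOF. `glue` with `ι = Option {c : ℕ × ℤ // 0 < c.1 ∧ IsCoprime c.2 (c.1 : ℤ)}`, `A none = {h | Neg (lf h)}` (`measurableSet_neg`, `minus`) and `A (some c) = {h | Pos (lf h) ∧ ∃ x, (lf h)^[c.1] x = x + c.2}` (`measurableSet_plus`, `plus`).
Let `h` have a periodic point. If `Neg (lf h)`, `h ∈ A none`. Otherwise `Pos (lf h)` (`lf_spec`), and `cover` with `exists_int_of_per (lft_lf h)` gives `c` with `h ∈ A (some c)`.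
-/

set_option autoImplicit false

open Set
open scoped ContDiff Manifold

namespace Pool.Agent.CIR

namespace RealAux

/-- The coprime pairs. -/
abbrev Cp := {c : ℕ × ℤ // 0 < c.1 ∧ IsCoprime c.2 (c.1 : ℤ)}

/-- The pieces. -/
def Ap : Option Cp → Set H
  | none => {h | Neg (lf h)}
  | some c => {h | Pos (lf h) ∧ ∃ x, (lf h)^[c.1.1] x = x + c.1.2}

theorem ex_s (i : Option Cp) : ∃ s : H → Dif, Measurable s ∧ ∀ h ∈ Ap i, Cj h (s h) := by
  cases i with
  | none =>
    obtain ⟨s, hs, h2⟩ := minus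
    exact ⟨s, hs, fun h hh => h2 h hh⟩
  | some c =>
    obtain ⟨s, hs, h2⟩ := plus c.2.1 c.2.2
    exact ⟨s, hs, fun h hh => h2 h hh.1 hh.2⟩

theorem meas_A (i : Option Cp) : MeasurableSet (Ap i) := by
  cases i with
  | none => exact measurableSet_neg
  | some c => exact measurableSet_plus c.1.1 c.1.2

end RealAux

open RealAux

theorem realize : ∃ s : H → Dif, Measurable s ∧ ∀ h : H, Per h → Cj h (s h) := by
  choose s hs hc using ex_s
  obtain ⟨s', hs', hc'⟩ := glue Ap meas_A s hs hc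
  refine ⟨s', hs', fun h hp => ?_⟩
  rcases (lf_spec h).1 with h1 | h1
  · obtain ⟨q, p, hq, hpq, hx⟩ := cover h1 (exists_int_of_per (lft_lf h) hp)
    exact hc' (some ⟨(q, p), hq, hpq⟩) h ⟨h1, hx⟩
  · exact hc' none h h1

end Pool.Agent.CIR
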