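import Pool.Agent.Lib.CIR.LiftM

/-!
# CIR.Tau: the translation number is measurable; homeomorphisms without periodic points

PROOF of `per_of_neg`: `F = lf h` is continuous, `F x - x` takes positive and negative values (`F n = F 0 - n`), so there is `a` with `F a = a` (intermediate value theorem); `h (E a) = E (F a) = E a`, so `h^[1]` has a fixed point.
PROOF of `irrational_of_not_per`: if the translation number is rational, it is `m / n` with `n > 0`; `CircleDeg1Lift.translationNumber_eq_rat_iff` gives `x` with `(hF.cdl ^ n) x = x + m`, i.e. `F^[n] x = x + m` (`CircleDeg1Lift.coe_pow`), and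
`h^[n] (E x) = E (F^[n] x) = E x` (`Lft.iter`, `E_add_int`).
PROOF of `exists_tau`: `CircleDeg1Lift.tendsto_translation_number₀`: `F^[n] 0 / n` tends to the translation number. On the measurable set `{h | Pos (lf h)}` (`measurableSet_pos`) the functions `h ↦ (lf h)^[n] 0 / n` are measurable (`measurable_lf_iter`);
let `τ h` be the translation number on this set and `0` outside: a pointwise limit of measurable functions (multiplied by an indicator).
-/

set_option autoImplicit false

open Set

namespace Pool.Agent.CIR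

theorem per_of_neg {h : H} (hn : Neg (lf h)) : Per h := by
  have hl : Lft h (lf h) := lft_lf h
  set F := lf h with hF
  have hc : Continuous fun x => F x - x := hn.1.sub continuous_id
  obtain ⟨m, hm⟩ := exists_nat_gt |F 0|
  have h1 : F ((m : ℤ) : ℝ) = F 0 - m := by
    have := hn.add_int 0 (m : ℤ)
    rw [zero_add] at this
    rw [this]
    push_cast
    ring
  have h2 : F ((-(m : ℤ) : ℤ) : ℝ) = F 0 + m := by
    have := hn.add_int 0 (-(m : ℤ))
    rw [zero_add] at this
    rw [this]
    push_cast
    ring
  have h3 := abs_lt.1 hm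
  have h5 : (0 : ℝ) ∈ Set.range fun x => F x - x := by
    refine mem_range_of_exists_le_of_exists_ge hc ⟨((m : ℤ) : ℝ), ?_⟩ ⟨((-(m : ℤ) : ℤ) : ℝ), ?_⟩
    · show F ((m : ℤ) : ℝ) - ((m : ℤ) : ℝ) ≤ 0
      rw [h1]
      push_cast
      have : (0 : ℝ) ≤ m := Nat.cast_nonneg m
      linarith [h3.2]
    · show 0 ≤ F ((-(m : ℤ) : ℤ) : ℝ) - ((-(m : ℤ) : ℤ) : ℝ)
      rw [h2]
      push_cast
      have : (0 : ℝ) ≤ m := Nat.cast_nonneg m
      linarith [h3.1]
  obtain ⟨a, ha⟩ := h5
  have ha' : F a = a := by
    have : F a - a = 0 := ha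
    linarith
  refine ⟨1, one_pos, E a, ?_⟩
  show h (E a) = E a
  rw [← hl, ha']

theorem irrational_of_not_per {h : Circle → Circle} {F : ℝ → ℝ} (hF : Pos F) (hl : Lft h F) (hp : ¬ Per h) :
    Irrational hF.cdl.translationNumber := by
  rintro ⟨q, hq⟩
  apply hp
  have hn : 0 < q.den := q.den_pos
  have hq2 : hF.cdl.translationNumber = (q.num : ℝ) / (q.den : ℝ) := by
    rw [← hq]
    exact_mod_cast (Rat.num_div_den q).symm
  obtain ⟨x, hx⟩ := (CircleDeg1Lift.translationNumber_eq_rat_iff (f := hF.cdl) hF.1 hn).1 hq2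
  rw [CircleDeg1Lift.coe_pow, Pos.cdl_coe] at hx
  refine ⟨q.den, hn, E x, ?_⟩
  rw [← hl.iter q.den x, hx, E_add_int]

theorem exists_tau : ∃ τ : H → ℝ, Measurable τ ∧ ∀ (h : H) (hp : Pos (lf h)), τ h = hp.cdl.translationNumber := by
  classical
  refine ⟨fun h => if hp : Pos (lf h) then hp.cdl.translationNumber else 0, ?_, ?_⟩
  · have hA : MeasurableSet {h : H | Pos (lf h)} := measurableSet_pos
    have hm : ∀ n : ℕ, Measurable ({h : H | Pos (lf h)}.indicator fun h : H => (lf h)^[n] 0 / (n : ℝ)) := by
      intro n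
      refine Measurable.indicator ?_ hA
      have h1 : Measurable fun h : H => (lf h)^[n] 0 :=
        (measurable_lf_iter n).comp (measurable_id.prodMk measurable_const)
      exact h1.div_const _
    refine measurable_of_tendsto_metrizable hm ?_
    rw [tendsto_pi_nhds]
    intro h
    by_cases hp : Pos (lf h)
    · simp only [dif_pos hp]
      have h2 := hp.cdl.tendsto_translation_number₀
      refine h2.congr fun n => ?_
      rw [Set.indicator_of_mem (show h ∈ {h : H | Pos (lf h)} from hp), CircleDeg1Lift.coe_pow, Pos.cdl_coe]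
    · simp only [dif_neg hp]
      refine tendsto_const_nhds.congr fun n => ?_
      rw [Set.indicator_of_notMem (show h ∉ {h : H | Pos (lf h)} from hp)]
  · intro h hp
    exact dif_pos hp

end Pool.Agent.CIR
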