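import Pool.Agent.Lib.CIR.Lift

/-!
# CIR.Uniq: conjugate rotations

PROOF. Let `k : H` with `k (E a * z) = E b * k z`, and let `K` be a lift of `k` (`exists_lift`). `x ↦ K (x + a)` and `x ↦ K x + b` are continuous lifts of the same map `z ↦ k (E a * z)`, so `K (x + a) = K x + b + m` for all `x`, with an integer `m`
(`lift_unique`). By induction `K (n a) = K 0 + n (b + m)`.
Case `K` is `Pos`: `|K x - x|` is bounded (`K x - x` is continuous and periodic; or `K.cdl`), so `n a - n (b + m)` is bounded in `n`, hence `a = b + m`; `a - b ∈ (-1/2, 1/2)` is the integer `m`, so `m = 0` and `a = b`.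
(Or: translation numbers, `CircleDeg1Lift.translationNumber_eq_of_semiconj` and `translationNumber_translate`.)
Case `K` is `Neg`: `|K x + x|` is bounded (apply the first case to `- K`), so `- a = b + m`; but `0 < a + b < 1`, contradiction.
-/

set_option autoImplicit false

open Set

namespace Pool.Agent.CIR

namespace UniqAux

/-- a semiconjugacy of translations -/
theorem eq_of_semi {K : ℝ → ℝ} (hK : Pos K) {a c : ℝ} (h : ∀ x, K (x + a) = K x + c) : a = c := by
  have h1 : Function.Semiconj hK.cdl
      (CircleDeg1Lift.translate (Multiplicative.ofAdd a) : CircleDeg1Lift)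
      (CircleDeg1Lift.translate (Multiplicative.ofAdd c) : CircleDeg1Lift) := by
    intro x
    have h2 := h x
    rw [CircleDeg1Lift.translate_apply, CircleDeg1Lift.translate_apply, hK.cdl_coe]
    rw [add_comm a x, h2, add_comm]
  have h2 := CircleDeg1Lift.translationNumber_eq_of_semiconj h1
  rwa [CircleDeg1Lift.translationNumber_translate, CircleDeg1Lift.translationNumber_translate] at h2

end UniqAux

theorem rot_unique {f g : Circle → Circle} {a b : ℝ} (hf : IsRot a f) (hg : IsRot b g) (ha : 0 < a) (ha' : a < 1 / 2)
    (hb : 0 < b) (hb' : b < 1 / 2) (h : Cj f g) : a = b := by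
  obtain ⟨k, hk⟩ := h
  obtain ⟨K, hK, hL⟩ := exists_lift k
  have hc : Continuous K := by
    rcases hK with h1 | h1
    · exact h1.1
    · exact h1.1
  have h1 : Lft (fun z => k (f z)) (fun x => K (x + a)) := by
    intro x
    change E (K (x + a)) = k (f (E x))
    rw [hL, add_comm, E_add, hf]
  have h2 : Lft (fun z => k (f z)) (fun x => K x + b) := by
    intro x
    change E (K x + b) = k (f (E x))
    rw [hk, hg, add_comm, E_add, hL]
  obtain ⟨m, hm⟩ := lift_unique (h := fun z => k (f z)) (F := fun x => K x + b)
    (G := fun x => K (x + a)) (hc.add continuous_const) (hc.comp (continuous_id.add continuous_const))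
    h2 h1
  rcases hK with h3 | h3
  · have h4 : a = b + m := UniqAux.eq_of_semi h3 (fun x => by rw [hm]; ring)
    have h5 : (m : ℝ) < 1 := by linarith
    have h6 : (-1 : ℝ) < m := by linarith
    have h7 : m < 1 := by exact_mod_cast h5
    have h8 : -1 < m := by exact_mod_cast h6
    have h9 : m = 0 := by omega
    rw [h4, h9]
    simp
  · exfalso
    have h4 : a = -b - m := UniqAux.eq_of_semi h3.neg (fun x => by
      change -K (x + a) = -K x + (-b - m)
      rw [hm]
      ring)
    have h5 : (m : ℝ) < 0 := by linarith
    have h6 : (-1 : ℝ) < m := by linarith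
    have h7 : m < 0 := by exact_mod_cast h5
    have h8 : -1 < m := by exact_mod_cast h6
    omega

end Pool.Agent.CIR
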