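import Pool.Agent.Lib.CIR.Smo
import Pool.Agent.Lib.CIR.DenD
import Pool.Agent.Lib.CIR.Tau
import Pool.Agent.Lib.CIR.Uniq

/-!
# CIR.RotA: diffeomorphisms without periodic points are conjugate to rotations, measurably

PROOF. `rot a = mulC (E a)`; it is measurable by `measurable_dif_iff` (`a ↦ E a * z` is continuous), `IsRot a (rot a)` by `mulC_apply`. Take `τ` from `exists_tau` and put `t f = τ (hm f)`, `α f = min (Int.fract (t f)) (1 - Int.fract (t f))`
(measurable: `measurable_hm`, `measurable_fract`).
Let `f : Dif` have no periodic point, `F = lf (hm f)` (`hm_coe`). `F` is `Pos` (`per_of_neg`, `lf_spec`), `t f` is its translation number, irrational (`irrational_of_not_per`), so `Int.fract (t f) =: ρ` is irrational, `0 < ρ < 1`, `ρ ≠ 1 / 2`, and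
`α f` is irrational, `0 < α f < 1 / 2`. `contDiff_lift` and `denjoy` give `Ψ` with `Ψ (F x) = Ψ x + t f`.
If `ρ < 1 / 2`: `α f = ρ`, and `G y = y + t f` is a lift of `rot (α f)` (`E (y + t f) = E (ρ + y + k) = E ρ * E y`, `k = ⌊t f⌋`); `cj_of_lift` with `Ψ`.
If `ρ > 1 / 2`: `α f = 1 - ρ`, and `G y = y - t f` is a lift of `rot (α f)` (`E (y - t f) = E (y - ρ) = E (1 - ρ) * E y`); `cj_of_lift` with `- Ψ` (`Pos.neg`): `- Ψ (F x) = - Ψ x - t f`.
The last part is `rot_unique`.
-/

set_option autoImplicit false

open Set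
open scoped ContDiff Manifold

namespace Pool.Agent.CIR

namespace RotAAux

/-- The family of rotations is measurable. -/
theorem measurable_rot : Measurable fun a : ℝ => mulC (E a) := by
  rw [measurable_dif_iff]
  intro z
  have h : Continuous fun a : ℝ => E a * z := by
    have := continuous_E
    fun_prop
  exact h.measurable

/-- The rotation by the fractional part. -/
theorem lft_fract (t : ℝ) : Lft (mulC (E (Int.fract t))) (fun y => y + t) := by
  intro y
  show E (y + t) = E (Int.fract t) * E y
  rw [← E_add, E_eq_iff]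
  exact ⟨⌊t⌋, by rw [Int.fract]; ring⟩

/-- The rotation by one minus the fractional part. -/
theorem lft_one_sub_fract (t : ℝ) : Lft (mulC (E (1 - Int.fract t))) (fun y => y - t) := by
  intro y
  show E (y - t) = E (1 - Int.fract t) * E y
  rw [← E_add, E_eq_iff]
  exact ⟨-⌊t⌋ - 1, by rw [Int.fract]; push_cast; ring⟩

/-- The fractional part of an irrational number is irrational. -/
theorem irrational_fract {t : ℝ} (h : Irrational t) : Irrational (Int.fract t) := by
  rw [Int.fract]
  exact h.sub_intCast ⌊t⌋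

end RotAAux

theorem rotation : ∃ (rot : ℝ → Dif) (α : Dif → ℝ), Measurable rot ∧ Measurable α ∧ (∀ a, IsRot a (rot a)) ∧
    (∀ f : Dif, ¬ Per f → Irrational (α f) ∧ 0 < α f ∧ α f < 1 / 2 ∧ Cj f (rot (α f))) ∧
    ∀ a b : ℝ, 0 < a → a < 1 / 2 → 0 < b → b < 1 / 2 → Cj (rot a) (rot b) → a = b := by
  obtain ⟨τ, hτm, hτ⟩ := exists_tau
  have hrot : ∀ a, IsRot a (mulC (E a)) := fun a z => mulC_apply _ _
  have ht : Measurable fun f : Dif => Int.fract (τ (hm f)) :=
    measurable_fract.comp (hτm.comp measurable_hm)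
  refine ⟨fun a => mulC (E a), fun f => min (Int.fract (τ (hm f))) (1 - Int.fract (τ (hm f))),
    RotAAux.measurable_rot, ht.min (measurable_const.sub ht), hrot, ?_, ?_⟩
  · intro f hf
    have hpos : Pos (lf (hm f)) := by
      rcases (lf_spec (hm f)).1 with h | h
      · exact h
      · exact absurd (per_of_neg h) hf
    have hl : Lft f (lf (hm f)) := lft_lf (hm f)
    have hirr : Irrational hpos.cdl.translationNumber := irrational_of_not_per hpos hl hf
    have hs := contDiff_lift f hpos.cont hl
    obtain ⟨Ψ, hΨ, hΨF⟩ := denjoy hpos hs.1 hs.2 hirr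
    rw [← hτ (hm f) hpos] at hirr hΨF
    set t := τ (hm f) with ht'
    have hρ := RotAAux.irrational_fract hirr
    have h0 : 0 < Int.fract t := lt_of_le_of_ne (Int.fract_nonneg t) (fun h => hρ ⟨0, by rw [← h]; simp⟩)
    have h1 : Int.fract t < 1 := Int.fract_lt_one t
    have hne : Int.fract t ≠ 1 / 2 := fun h => hρ ⟨1 / 2, by rw [h]; push_cast; ring⟩
    rcases lt_or_gt_of_ne hne with h | h
    · have hmin : min (Int.fract t) (1 - Int.fract t) = Int.fract t := min_eq_left (by linarith)
      show Irrational (min (Int.fract t) (1 - Int.fract t)) ∧ 0 < min (Int.fract t) (1 - Int.fract t) ∧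
        min (Int.fract t) (1 - Int.fract t) < 1 / 2 ∧ Cj f (mulC (E (min (Int.fract t) (1 - Int.fract t))))
      rw [hmin]
      exact ⟨hρ, h0, h, cj_of_lift hl (RotAAux.lft_fract t) (Or.inl hΨ) hΨF⟩
    · have hmin : min (Int.fract t) (1 - Int.fract t) = 1 - Int.fract t := min_eq_right (by linarith)
      show Irrational (min (Int.fract t) (1 - Int.fract t)) ∧ 0 < min (Int.fract t) (1 - Int.fract t) ∧
        min (Int.fract t) (1 - Int.fract t) < 1 / 2 ∧ Cj f (mulC (E (min (Int.fract t) (1 - Int.fract t))))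
      rw [hmin]
      refine ⟨?_, by linarith, by linarith, cj_of_lift hl (RotAAux.lft_one_sub_fract t) (Or.inr hΨ.neg) ?_⟩
      · have := hρ.ratCast_sub 1
        simpa using this
      · intro x
        show -Ψ (lf (hm f) x) = -Ψ x - t
        rw [hΨF]
        ring
  · intro a b ha ha' hb hb' h
    exact rot_unique (hrot a) (hrot b) ha ha' hb hb' h

end Pool.Agent.CIR
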