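import Pool.Agent.Lib.CIR.CB
import Pool.Agent.Lib.CIR.Real
import Pool.Agent.Lib.CIR.Absb
import Pool.Agent.Lib.CIR.RotA

/-!
# CIR.Final: topological conjugacy of circle diffeomorphisms is an orbit equivalence relation
-/

set_option autoImplicit false

open Set
open scoped ContDiff Manifold

namespace Pool.Agent.CIR

/-! ### Conjugacy -/

theorem Cj.refl (f : Circle → Circle) : Cj f f := ⟨Homeomorph.refl _, fun _ => rfl⟩

theorem Cj.symm {f g : Circle → Circle} (h : Cj f g) : Cj g f := by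
  obtain ⟨k, hk⟩ := h
  refine ⟨k.symm, fun z => ?_⟩
  rw [Homeomorph.symm_apply_eq, hk, Homeomorph.apply_symm_apply]

theorem Cj.trans {f g k : Circle → Circle} (h : Cj f g) (h' : Cj g k) : Cj f k := by
  obtain ⟨a, ha⟩ := h
  obtain ⟨b, hb⟩ := h'
  refine ⟨a.trans b, fun z => ?_⟩
  rw [Homeomorph.trans_apply, Homeomorph.trans_apply, ha, hb]

theorem Cj.iter {f g : Circle → Circle} {k : H} (h : ∀ z, k (f z) = g (k z)) (n : ℕ) (z : Circle) :
    k (f^[n] z) = g^[n] (k z) := by
  induction n generalizing z with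
  | zero => rfl
  | succ n ih => rw [Function.iterate_succ_apply, Function.iterate_succ_apply, ih, h]

theorem Cj.per {f g : Circle → Circle} (h : Cj f g) (hf : Per f) : Per g := by
  obtain ⟨k, hk⟩ := h
  obtain ⟨n, hn, z, hz⟩ := hf
  exact ⟨n, hn, k z, by rw [← Cj.iter hk, hz]⟩

theorem Cj.per_iff {f g : Circle → Circle} (h : Cj f g) : Per f ↔ Per g := ⟨h.per, h.symm.per⟩

theorem Cj.eq_id {f g : Circle → Circle} (h : Cj f g) (hf : ∀ z, f z = z) (z : Circle) : g z = z := by
  obtain ⟨k, hk⟩ := h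
  have h1 := hk (k.symm z)
  rw [hf, Homeomorph.apply_symm_apply] at h1
  exact h1.symm

theorem cj_iff {f g : H} : Cj f g ↔ ∃ k : H, k * f * k⁻¹ = g := by
  constructor
  · rintro ⟨k, hk⟩
    refine ⟨k, Homeomorph.ext fun z => ?_⟩
    show k (f (k.symm z)) = g z
    rw [hk, Homeomorph.apply_symm_apply]
  · rintro ⟨k, hk⟩
    refine ⟨k, fun z => ?_⟩
    rw [← hk]
    show _ = k (f (k.symm (k z)))
    rw [Homeomorph.symm_apply_apply]

theorem per_conj {f k : H} : Per ⇑(k * f * k⁻¹) ↔ Per ⇑f :=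
  ((cj_iff.2 ⟨k, rfl⟩ : Cj f ((k * f * k⁻¹ : H) : Circle → Circle)).per_iff).symm

theorem per_one : Per ⇑(1 : H) := ⟨1, Nat.one_pos, 1, rfl⟩

/-! ### Rotations -/

/-- The rotation by `a` as a homeomorphism. -/
noncomputable def rotH (a : ℝ) : H := Homeomorph.mulLeft (E a)

theorem rotH_apply (a : ℝ) (z : Circle) : rotH a z = E a * z := rfl


theorem E_inj {a b : ℝ} (ha : 0 < a) (ha' : a < 1 / 2) (hb : 0 < b) (hb' : b < 1 / 2) (h : E a = E b) : a = b := by
  obtain ⟨m, hm⟩ := E_eq_iff.1 h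
  have h1 : (m : ℝ) < 1 := by linarith
  have h2 : (-1 : ℝ) < m := by linarith
  have h3 : m = 0 := by
    have h1' : m < 1 := by exact_mod_cast h1
    have h2' : -1 < m := by exact_mod_cast h2
    omega
  rw [hm, h3]
  simp

theorem rotH_iter (a : ℝ) (n : ℕ) (z : Circle) : (rotH a)^[n] z = E (n * a) * z := by
  induction n generalizing z with
  | zero => simp [E]
  | succ n ih =>
    rw [Function.iterate_succ_apply, ih, rotH_apply, ← mul_assoc]
    congr 1
    unfold E
    rw [← Circle.exp_add]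
    congr 1
    push_cast
    ring

theorem rotH_not_per {a : ℝ} (ha : Irrational a) : ¬ Per (rotH a) := by
  rintro ⟨n, hn, z, hz⟩
  rw [rotH_iter, mul_eq_right] at hz
  have h1 : E (n * a) = E 0 := by rw [hz]; simp [E]
  obtain ⟨m, hm⟩ := E_eq_iff.1 h1
  rw [zero_add] at hm
  have h2 : (n : ℝ) ≠ 0 := by exact_mod_cast hn.ne'
  apply ha
  exact ⟨(m : ℚ) / n, by push_cast; rw [← hm]; field_simp⟩


/-! ### The space and the action -/

/-- The space on which the group acts: homeomorphisms with a periodic point and irrational rotations, with a real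
coordinate. -/
def YS : Set (H × ℝ) :=
  {y | (Per y.1 ∧ (y.1 = 1 → y.2 = 0)) ∨ ∃ a, Irrational a ∧ 0 < a ∧ a < 1 / 2 ∧ y.1 = rotH a}

/-- The group. -/
abbrev Gp := H × Multiplicative ℝ

open Classical in
/-- Conjugation and translation. -/
noncomputable def actF (g : Gp) (y : H × ℝ) : H × ℝ :=
  if Per y.1 then (g.1 * y.1 * g.1⁻¹, if y.1 = 1 then y.2 else y.2 + Multiplicative.toAdd g.2)
  else (y.1, y.2 + Multiplicative.toAdd g.2)

theorem actF_mem (g : Gp) {y : H × ℝ} (hy : y ∈ YS) : actF g y ∈ YS := by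
  classical
  unfold actF
  by_cases hp : Per y.1
  · rw [if_pos hp]
    refine Or.inl ⟨per_conj.2 hp, fun h1 => ?_⟩
    have h2 : y.1 = 1 := by
      have h3 : g.1 * y.1 = g.1 := by
        rwa [mul_inv_eq_one] at h1
      exact mul_eq_left.1 h3
    rw [if_pos h2]
    rcases hy with hy | ⟨a, ha, _, _, hy⟩
    · exact hy.2 h2
    · exact absurd (hy ▸ hp) (rotH_not_per ha)
  · rw [if_neg hp]
    rcases hy with hy | hy
    · exact absurd hy.1 hp
    · exact Or.inr hy

theorem actF_id {g : Gp} {h : H} {u : ℝ} (hp : Per h) (h1 : h = 1) :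
    actF g (h, u) = (g.1 * h * g.1⁻¹, u) := by
  unfold actF
  rw [if_pos (show Per ⇑(h, u).1 from hp), if_pos (show (h, u).1 = 1 from h1)]

theorem actF_per {g : Gp} {h : H} {u : ℝ} (hp : Per h) (h1 : h ≠ 1) :
    actF g (h, u) = (g.1 * h * g.1⁻¹, u + Multiplicative.toAdd g.2) := by
  unfold actF
  rw [if_pos (show Per ⇑(h, u).1 from hp), if_neg (show ¬ (h, u).1 = 1 from h1)]

theorem actF_not {g : Gp} {h : H} {u : ℝ} (hp : ¬ Per h) :
    actF g (h, u) = (h, u + Multiplicative.toAdd g.2) := by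
  unfold actF
  rw [if_neg (show ¬ Per ⇑(h, u).1 from hp)]

theorem actF_one (y : H × ℝ) : actF 1 y = y := by
  unfold actF
  split_ifs <;> simp

theorem conj_ne {k h : H} (h1 : h ≠ 1) : k * h * k⁻¹ ≠ 1 := by
  intro h3
  apply h1
  have h4 : k * h = k := by rwa [mul_inv_eq_one] at h3
  exact mul_eq_left.1 h4

theorem actF_mul (g k : Gp) (y : H × ℝ) : actF (g * k) y = actF g (actF k y) := by
  obtain ⟨h, u⟩ := y
  by_cases hp : Per h
  · have hp' : Per ⇑(k.1 * h * k.1⁻¹) := per_conj.2 hp
    have e : (g * k).1 * h * (g * k).1⁻¹ = g.1 * (k.1 * h * k.1⁻¹) * g.1⁻¹ := by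
      show g.1 * k.1 * h * (g.1 * k.1)⁻¹ = _
      group
    by_cases h1 : h = 1
    · have h2 : k.1 * h * k.1⁻¹ = 1 := by rw [h1]; group
      rw [actF_id hp h1, actF_id hp h1, actF_id hp' h2, e]
    · rw [actF_per hp h1, actF_per hp h1, actF_per hp' (conj_ne h1), e]
      refine Prod.ext rfl ?_
      show u + Multiplicative.toAdd (g.2 * k.2) = u + Multiplicative.toAdd k.2 + Multiplicative.toAdd g.2
      rw [toAdd_mul]
      ring
  · rw [actF_not hp, actF_not hp, actF_not hp]
    refine Prod.ext rfl ?_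
    show u + Multiplicative.toAdd (g.2 * k.2) = u + Multiplicative.toAdd k.2 + Multiplicative.toAdd g.2
    rw [toAdd_mul]
    ring

/-- The action. -/
noncomputable scoped instance actY : MulAction Gp YS where
  smul g y := ⟨actF g y.1, actF_mem g y.2⟩
  one_smul y := Subtype.ext (actF_one y.1)
  mul_smul g k y := Subtype.ext (actF_mul g k y.1)

theorem smul_coe (g : Gp) (y : YS) : ((g • y : YS) : H × ℝ) = actF g y.1 := rfl


/-! ### Measurability -/

attribute [local instance] isTopologicalGroup polishSpace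

noncomputable scoped instance mulMeas : MeasurableSpace (Multiplicative ℝ) := borel _

scoped instance mulBorel : BorelSpace (Multiplicative ℝ) := ⟨rfl⟩

theorem measurable_toAdd' : Measurable (Multiplicative.toAdd : Multiplicative ℝ → ℝ) := by
  have h : Continuous (Multiplicative.toAdd : Multiplicative ℝ → ℝ) := continuous_toAdd
  exact h.measurable

theorem measurable_rotH : Measurable rotH := by
  rw [measurable_H_iff]
  intro z
  have h : Continuous fun a => E a * z := continuous_E.mul continuous_const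
  exact h.measurable

theorem rotH_injOn : InjOn rotH {a | Irrational a ∧ 0 < a ∧ a < 1 / 2} := by
  intro a ha b hb hab
  have h1 : rotH a 1 = rotH b 1 := by rw [hab]
  rw [rotH_apply, rotH_apply, mul_one, mul_one] at h1
  exact E_inj ha.2.1 ha.2.2 hb.2.1 hb.2.2 h1

theorem measurableSet_irr : MeasurableSet {a : ℝ | Irrational a ∧ 0 < a ∧ a < 1 / 2} := by
  have h1 : MeasurableSet {a : ℝ | Irrational a} := by
    have h2 : {a : ℝ | Irrational a} = (range ((↑) : ℚ → ℝ))ᶜ := rfl
    rw [h2]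
    exact (countable_range _).measurableSet.compl
  exact h1.inter (measurableSet_Ioi.inter measurableSet_Iio)

theorem measurableSet_YS : MeasurableSet YS := by
  have h1 : MeasurableSet {y : H × ℝ | Per y.1} := measurable_fst measurableSet_per
  have h2 : MeasurableSet {y : H × ℝ | y.1 = 1 → y.2 = 0} := by
    have h3 : {y : H × ℝ | y.1 = 1 → y.2 = 0} = {y : H × ℝ | y.1 ∈ ({1} : Set H)}ᶜ ∪ {y | y.2 ∈ ({0} : Set ℝ)} := by
      ext y
      simp only [mem_ofPred_eq, mem_union, mem_compl_iff, mem_singleton_iff]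
      tauto
    rw [h3]
    exact (measurable_fst (measurableSet_singleton _)).compl.union (measurable_snd (measurableSet_singleton _))
  have h4 : MeasurableSet {y : H × ℝ | ∃ a, Irrational a ∧ 0 < a ∧ a < 1 / 2 ∧ y.1 = rotH a} := by
    have h5 : {y : H × ℝ | ∃ a, Irrational a ∧ 0 < a ∧ a < 1 / 2 ∧ y.1 = rotH a} =
        Prod.fst ⁻¹' (rotH '' {a | Irrational a ∧ 0 < a ∧ a < 1 / 2}) := by
      ext y
      simp only [mem_ofPred_eq, mem_preimage, mem_image]
      constructor
      · rintro ⟨a, h1, h2, h3, h4⟩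
        exact ⟨a, ⟨h1, h2, h3⟩, h4.symm⟩
      · rintro ⟨a, ⟨h1, h2, h3⟩, h4⟩
        exact ⟨a, h1, h2, h3, h4.symm⟩
    rw [h5]
    exact measurable_fst (measurableSet_irr.image_of_measurable_injOn measurable_rotH rotH_injOn)
  exact (h1.inter h2).union h4

theorem measurable_actF : Measurable fun p : Gp × (H × ℝ) => actF p.1 p.2 := by
  classical
  have hP : MeasurableSet {p : Gp × (H × ℝ) | Per p.2.1} :=
    (measurable_fst.comp measurable_snd) measurableSet_per
  have h1 : MeasurableSet {p : Gp × (H × ℝ) | p.2.1 = 1} :=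
    (measurable_fst.comp measurable_snd) (measurableSet_singleton (1 : H))
  have hc : Measurable fun p : Gp × (H × ℝ) => p.1.1 * p.2.1 * p.1.1⁻¹ := by fun_prop
  have ht : Measurable fun p : Gp × (H × ℝ) => p.2.2 + Multiplicative.toAdd p.1.2 := by
    have h2 : Measurable fun p : Gp × (H × ℝ) => Multiplicative.toAdd p.1.2 :=
      measurable_toAdd'.comp (measurable_snd.comp measurable_fst)
    exact (measurable_snd.comp measurable_snd).add h2
  unfold actF
  refine Measurable.ite hP (hc.prodMk (Measurable.ite h1 (measurable_snd.comp measurable_snd) ht)) ?_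
  exact (measurable_fst.comp measurable_snd).prodMk ht

/-! ### The Cayley transform and the angle -/

/-- The angle of the image of `1`. -/
noncomputable def aa (h : H) : ℝ := Complex.arg (h 1) / (2 * Real.pi)

theorem aa_rotH {a : ℝ} (ha : 0 < a) (ha' : a < 1 / 2) : aa (rotH a) = a := by
  unfold aa
  rw [rotH_apply, mul_one]
  unfold E
  have hp := Real.pi_pos
  rw [Circle.arg_exp (by nlinarith) (by nlinarith)]
  field_simp

theorem measurable_aa : Measurable aa := by
  unfold aa
  have h1 : Measurable fun h : H => (h 1 : Circle) := measurable_H_iff.1 measurable_id 1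
  have h3 : Continuous fun z : Circle => (z : ℂ) := continuous_subtype_val
  have h2 : Measurable fun h : H => ((h 1 : Circle) : ℂ) := h3.measurable.comp h1
  exact (Complex.measurable_arg.comp h2).div_const _

/-! ### Orbits -/

/-- The orbit equivalence relation on `YS`. -/
def S (y y' : YS) : Prop := ∃ g : Gp, g • y = y'

theorem S_equiv : Equivalence S where
  refl y := ⟨1, one_smul _ _⟩
  symm := by
    rintro y y' ⟨g, rfl⟩
    exact ⟨g⁻¹, inv_smul_smul _ _⟩
  trans := by
    rintro x y z ⟨g, rfl⟩ ⟨k, rfl⟩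
    exact ⟨k * g, mul_smul _ _ _⟩

theorem S_of_per {y y' : YS} (hp : Per y.1.1) (hp' : Per y'.1.1) (h : Cj y.1.1 y'.1.1) : S y y' := by
  obtain ⟨⟨f, u⟩, hy⟩ := y
  obtain ⟨⟨g, v⟩, hy'⟩ := y'
  replace hp : Per f := hp
  replace hp' : Per g := hp'
  replace h : Cj f g := h
  have h0 := h
  obtain ⟨k, hk⟩ := cj_iff.1 h
  by_cases h1 : f = 1
  · have h2 : g = 1 := by
      rw [← hk, h1]
      group
    have hu : u = 0 := by
      rcases hy with hy | ⟨a, ha, _, _, hy⟩
      · exact hy.2 h1
      · exact absurd ((show f = rotH a from hy) ▸ hp) (rotH_not_per ha)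
    have hv : v = 0 := by
      rcases hy' with hy' | ⟨a, ha, _, _, hy'⟩
      · exact hy'.2 h2
      · exact absurd ((show g = rotH a from hy') ▸ hp') (rotH_not_per ha)
    refine ⟨1, ?_⟩
    rw [one_smul]
    apply Subtype.ext
    show (f, u) = (g, v)
    rw [h1, h2, hu, hv]
  · refine ⟨(k, Multiplicative.ofAdd (v - u)), ?_⟩
    apply Subtype.ext
    rw [smul_coe]
    show actF _ (f, u) = (g, v)
    rw [actF_per hp h1]
    refine Prod.ext hk ?_
    show u + (v - u) = v
    ring

theorem S_of_not {y y' : YS} (hp : ¬ Per y.1.1) (h : y.1.1 = y'.1.1) : S y y' := by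
  obtain ⟨⟨f, u⟩, hy⟩ := y
  obtain ⟨⟨g, v⟩, hy'⟩ := y'
  replace hp : ¬ Per f := hp
  replace h : f = g := h
  refine ⟨(1, Multiplicative.ofAdd (v - u)), ?_⟩
  apply Subtype.ext
  rw [smul_coe]
  show actF _ (f, u) = (g, v)
  rw [actF_not hp]
  refine Prod.ext h ?_
  show u + (v - u) = v
  ring

theorem cj_of_S {y y' : YS} (h : S y y') : Cj y.1.1 y'.1.1 := by
  obtain ⟨⟨f, u⟩, hy⟩ := y
  obtain ⟨⟨g, v⟩, hy'⟩ := y'
  obtain ⟨a, ha⟩ := h
  have h1 : actF a (f, u) = (g, v) := by
    have := congrArg Subtype.val ha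
    rwa [smul_coe] at this
  show Cj f g
  by_cases hp : Per f
  · by_cases h2 : f = 1
    · rw [actF_id hp h2] at h1
      exact cj_iff.2 ⟨a.1, (Prod.ext_iff.1 h1).1⟩
    · rw [actF_per hp h2] at h1
      exact cj_iff.2 ⟨a.1, (Prod.ext_iff.1 h1).1⟩
  · rw [actF_not hp] at h1
    have h3 : f = g := (Prod.ext_iff.1 h1).1
    rw [h3]
    exact Cj.refl _

theorem eq_of_S {y y' : YS} (hp : ¬ Per y.1.1) (h : S y y') : y.1.1 = y'.1.1 := by
  obtain ⟨⟨f, u⟩, hy⟩ := y
  obtain ⟨⟨g, v⟩, hy'⟩ := y'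
  obtain ⟨a, ha⟩ := h
  have h1 : actF a (f, u) = (g, v) := by
    have := congrArg Subtype.val ha
    rwa [smul_coe] at this
  rw [actF_not hp] at h1
  exact (Prod.ext_iff.1 h1).1

/-! ### The reduction of `Dif` to `YS` -/

section Red

variable [StandardBorelSpace Dif]

open MeasureTheory

open Classical in
/-- The reduction of `Dif` to `YS`. -/
noncomputable def iF (α : Dif → ℝ) (f : Dif) : H × ℝ :=
  if Per f then (hm f, if hm f = 1 then 0 else embeddingReal Dif f) else (rotH (α f), embeddingReal Dif f)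

theorem iF_per {α : Dif → ℝ} {f : Dif} (hp : Per f) :
    (iF α f).1 = hm f := by
  unfold iF
  rw [if_pos hp]

theorem iF_not {α : Dif → ℝ} {f : Dif} (hp : ¬ Per f) :
    iF α f = (rotH (α f), embeddingReal Dif f) := by
  unfold iF
  rw [if_neg hp]

theorem iF_mem {α : Dif → ℝ} (hα : ∀ f : Dif, ¬ Per f → Irrational (α f) ∧ 0 < α f ∧ α f < 1 / 2) (f : Dif) :
    iF α f ∈ YS := by
  by_cases hp : Per f
  · refine Or.inl ⟨?_, fun h1 => ?_⟩
    · rw [iF_per hp]
      exact hp
    · rw [iF_per hp] at h1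
      unfold iF
      rw [if_pos hp]
      exact if_pos h1
  · rw [iF_not hp]
    obtain ⟨h1, h2, h3⟩ := hα f hp
    exact Or.inr ⟨α f, h1, h2, h3, rfl⟩

theorem iF_inj {α : Dif → ℝ} (hα : ∀ f : Dif, ¬ Per f → Irrational (α f) ∧ 0 < α f ∧ α f < 1 / 2) :
    Function.Injective (iF α) := by
  intro f g h
  by_cases hp : Per f <;> by_cases hq : Per g
  · apply hm_inj
    rw [← iF_per (α := α) hp, ← iF_per (α := α) hq, h]
  · exfalso
    have h1 : hm f = rotH (α g) := by
      rw [← iF_per (α := α) hp, h, iF_not hq]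
    exact rotH_not_per (hα g hq).1 (h1 ▸ hp)
  · exfalso
    have h1 : hm g = rotH (α f) := by
      rw [← iF_per (α := α) hq, ← h, iF_not hp]
    exact rotH_not_per (hα f hp).1 (h1 ▸ hq)
  · rw [iF_not hp, iF_not hq] at h
    exact (measurableEmbedding_embeddingReal Dif).injective (Prod.ext_iff.1 h).2

theorem measurable_iF {α : Dif → ℝ} (hα : Measurable α) : Measurable (iF α) := by
  classical
  unfold iF
  refine Measurable.ite (measurable_hm measurableSet_per) (measurable_hm.prodMk ?_) ?_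
  · exact Measurable.ite (measurable_hm (measurableSet_singleton (1 : H))) measurable_const
      (measurable_embeddingReal Dif)
  · exact (measurable_rotH.comp hα).prodMk (measurable_embeddingReal Dif)

end Red

theorem rotH_of_not {y : H × ℝ} (hy : y ∈ YS) (hp : ¬ Per y.1) :
    Irrational (aa y.1) ∧ 0 < aa y.1 ∧ aa y.1 < 1 / 2 ∧ y.1 = rotH (aa y.1) := by
  rcases hy with hy | ⟨a, h1, h2, h3, hy⟩
  · exact absurd hy.1 hp
  · have h4 : aa y.1 = a := by rw [hy, aa_rotH h2 h3]
    rw [h4]
    exact ⟨h1, h2, h3, hy⟩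

theorem zero_of_one {y : H × ℝ} (hy : y ∈ YS) (h : y.1 = 1) : y.2 = 0 := by
  rcases hy with hy | ⟨a, h1, _, _, hy⟩
  · exact hy.2 h
  · exfalso
    apply rotH_not_per h1
    rw [← hy, h]
    exact per_one

/-- The identity. -/
noncomputable def idD : Dif := Diffeomorph.refl _ _ _

open Classical in
/-- The normal form. -/
noncomputable def nf (s : H → Dif) (rot : ℝ → Dif) (h : H) : Dif := if Per h then s h else rot (aa h)

open MeasureTheory

open Classical in
/-- The reduction of `YS` to `Dif`. -/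
noncomputable def jF (s : H → Dif) (enc : Dif → ℝ → Dif) (rot : ℝ → Dif) [StandardBorelSpace YS] (y : YS) : Dif :=
  if y.1.1 = 1 then idD else enc (nf s rot y.1.1) (embeddingReal YS y)

section J

variable {s : H → Dif} {enc : Dif → ℝ → Dif} {rot : ℝ → Dif}

theorem cj_nf (hs : ∀ h : H, Per h → Cj h (s h)) (hr : ∀ a, IsRot a (rot a)) {y : H × ℝ} (hy : y ∈ YS) :
    Cj y.1 (nf s rot y.1) := by
  by_cases hp : Per y.1
  · unfold nf
    rw [if_pos hp]
    exact hs _ hp
  · obtain ⟨_, _, _, h4⟩ := rotH_of_not hy hp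
    unfold nf
    rw [if_neg hp]
    have h5 : ⇑(rot (aa y.1)) = ⇑y.1 := by
      funext z
      rw [hr]
      conv_rhs => rw [h4]
      rfl
    rw [h5]
    exact Cj.refl _

theorem nf_ne (hs : ∀ h : H, Per h → Cj h (s h)) (hr : ∀ a, IsRot a (rot a)) {y : H × ℝ} (hy : y ∈ YS) (h1 : y.1 ≠ 1) :
    ∃ z, nf s rot y.1 z ≠ z := by
  by_contra! h2
  apply h1
  ext z
  exact congrArg _ ((cj_nf hs hr hy).symm.eq_id h2 z)

variable [StandardBorelSpace YS]

theorem jF_one {y : YS} (h : y.1.1 = 1) : jF s enc rot y = idD := by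
  unfold jF
  rw [if_pos h]

theorem jF_ne {y : YS} (h : y.1.1 ≠ 1) : jF s enc rot y = enc (nf s rot y.1.1) (embeddingReal YS y) := by
  unfold jF
  rw [if_neg h]

theorem jF_inj (hs : ∀ h : H, Per h → Cj h (s h)) (hr : ∀ a, IsRot a (rot a))
    (he : ∀ f : Dif, (∃ z, f z ≠ z) → ∀ w : ℝ, Cj f (enc f w) ∧ enc f w 1 = cay w) :
    Function.Injective (jF s enc rot) := by
  intro y y' h
  have key : ∀ y y' : YS, y.1.1 = 1 → y'.1.1 ≠ 1 → jF s enc rot y ≠ jF s enc rot y' := by
    intro y y' h1 h2 h3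
    rw [jF_one h1, jF_ne h2] at h3
    have h4 := (he _ (nf_ne hs hr y'.2 h2) (embeddingReal YS y')).2
    rw [← h3] at h4
    exact cay_ne_one _ h4.symm
  by_cases h1 : y.1.1 = 1 <;> by_cases h2 : y'.1.1 = 1
  · apply Subtype.ext
    refine Prod.ext (h1.trans h2.symm) ?_
    rw [zero_of_one y.2 h1, zero_of_one y'.2 h2]
  · exact absurd h (key _ _ h1 h2)
  · exact absurd h.symm (key _ _ h2 h1)
  · rw [jF_ne h1, jF_ne h2] at h
    have h3 := (he _ (nf_ne hs hr y.2 h1) (embeddingReal YS y)).2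
    have h4 := (he _ (nf_ne hs hr y'.2 h2) (embeddingReal YS y')).2
    rw [h, h4] at h3
    exact ((measurableEmbedding_embeddingReal YS).injective (cay_injective h3)).symm

theorem measurable_jF (hs : Measurable s) (hr : Measurable rot) (he : Measurable (Function.uncurry enc)) :
    Measurable (jF s enc rot) := by
  classical
  have h1 : Measurable fun y : YS => y.1.1 := measurable_fst.comp measurable_subtype_coe
  have h2 : Measurable (nf s rot) := by
    unfold nf
    exact Measurable.ite measurableSet_per hs (hr.comp measurable_aa)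
  unfold jF
  refine Measurable.ite (h1 (measurableSet_singleton (1 : H))) measurable_const ?_
  exact he.comp ((h2.comp h1).prodMk (measurable_embeddingReal YS))

theorem jF_cj (hs : ∀ h : H, Per h → Cj h (s h)) (hr : ∀ a, IsRot a (rot a))
    (he : ∀ f : Dif, (∃ z, f z ≠ z) → ∀ w : ℝ, Cj f (enc f w) ∧ enc f w 1 = cay w) (y : YS) :
    Cj y.1.1 (jF s enc rot y) := by
  by_cases h1 : y.1.1 = 1
  · rw [jF_one h1, h1]
    exact Cj.refl _
  · rw [jF_ne h1]
    exact (cj_nf hs hr y.2).trans (he _ (nf_ne hs hr y.2 h1) _).1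

end J

/-- The diffeomorphisms up to topological conjugacy are Borel isomorphic to the orbits in `YS`. -/
theorem exists_iso [StandardBorelSpace Dif] : ∃ Φ : Dif ≃ᵐ YS, ∀ f g : Dif, Cj f g ↔ ∃ a : Gp, a • Φ f = Φ g := by
  have : StandardBorelSpace YS := measurableSet_YS.standardBorel
  obtain ⟨s, hsm, hs⟩ := realize
  obtain ⟨enc, hem, he⟩ := absorb
  obtain ⟨rot, α, hrm, hαm, hr, hα, hu⟩ := rotation
  have hα' : ∀ f : Dif, ¬ Per f → Irrational (α f) ∧ 0 < α f ∧ α f < 1 / 2 := fun f hf =>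
    ⟨(hα f hf).1, (hα f hf).2.1, (hα f hf).2.2.1⟩
  have hrot : ∀ a, ⇑(rot a) = ⇑(rotH a) := fun a => funext (hr a)
  let i : Dif → YS := fun f => ⟨iF α f, iF_mem hα' f⟩
  have him : Measurable i := (measurable_iF hαm).subtype_mk
  have hii : Function.Injective i := fun f g h => iF_inj hα' (congrArg Subtype.val h)
  have hcj : ∀ f : Dif, Cj f (i f).1.1 := by
    intro f
    show Cj f (iF α f).1
    by_cases hp : Per f
    · rw [iF_per hp]
      exact Cj.refl _
    · rw [iF_not hp]
      show Cj f (rotH (α f))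
      rw [← hrot]
      exact (hα f hp).2.2.2
  have hR : ∀ f g : Dif, Cj f g ↔ S (i f) (i g) := by
    intro f g
    constructor
    · intro h
      have h1 : Cj (i f).1.1 (i g).1.1 := (hcj f).symm.trans (h.trans (hcj g))
      by_cases hp : Per f
      · exact S_of_per ((hcj f).per hp) ((hcj g).per (h.per hp)) h1
      · have hq : ¬ Per g := fun hq => hp (h.symm.per hq)
        refine S_of_not (fun h2 => hp ((hcj f).symm.per h2)) ?_
        show (iF α f).1 = (iF α g).1
        rw [iF_not hp, iF_not hq]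
        show rotH (α f) = rotH (α g)
        have h3 : Cj (rot (α f)) (rot (α g)) := by
          have h4 := (hα f hp).2.2.2.symm.trans (h.trans (hα g hq).2.2.2)
          exact h4
        rw [hu _ _ (hα' f hp).2.1 (hα' f hp).2.2 (hα' g hq).2.1 (hα' g hq).2.2 h3]
    · intro h
      exact (hcj f).trans ((cj_of_S h).trans (hcj g).symm)
  have hij : ∀ y, S (i (jF s enc rot y)) y := by
    intro y
    have h1 : Cj y.1.1 (jF s enc rot y) := jF_cj hs hr he y
    have h2 : Cj (i (jF s enc rot y)).1.1 y.1.1 := (hcj _).symm.trans h1.symm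
    by_cases hp : Per y.1.1
    · exact S_of_per ((hcj _).per (h1.per hp)) hp h2
    · refine S_of_not (fun h3 => hp (h2.per h3)) ?_
      have hq : ¬ Per (jF s enc rot y) := fun hq => hp (h1.symm.per hq)
      obtain ⟨_, h4, h5, h6⟩ := rotH_of_not y.2 hp
      show (iF α (jF s enc rot y)).1 = y.1.1
      rw [iF_not hq]
      show rotH (α _) = _
      have h7 : Cj (rot (α (jF s enc rot y))) (rot (aa y.1.1)) := by
        have h8 : ⇑(rot (aa y.1.1)) = ⇑y.1.1 := by
          rw [hrot, ← h6]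
        rw [h8]
        exact (hα _ hq).2.2.2.symm.trans h1.symm
      rw [hu _ _ (hα' _ hq).2.1 (hα' _ hq).2.2 h4 h5 h7, ← h6]
  obtain ⟨Φ, hΦ⟩ := cantor_bernstein S_equiv him (measurable_jF hsm hrm hem) hii (jF_inj hs hr he) hR hij
  exact ⟨Φ, hΦ⟩

/-- Topological conjugacy is an orbit equivalence relation of a Borel action of a Polish group. -/
theorem main [StandardBorelSpace Dif] : ∃ act : MulAction Gp Dif,
    (Measurable fun p : Gp × Dif => act.smul p.1 p.2) ∧ ∀ f g : Dif, Cj f g ↔ ∃ a : Gp, act.smul a f = g := by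
  obtain ⟨Φ, hΦ⟩ := exists_iso
  refine ⟨{ smul := fun a f => Φ.symm (a • Φ f)
            one_smul := fun f => ?_
            mul_smul := fun a b f => ?_ }, ?_, fun f g => ?_⟩
  · show Φ.symm ((a * b) • Φ f) = Φ.symm (a • Φ (Φ.symm (b • Φ f)))
    rw [MeasurableEquiv.apply_symm_apply, mul_smul]
  · show Φ.symm ((1 : Gp) • Φ f) = f
    rw [one_smul, MeasurableEquiv.symm_apply_apply]
  · show Measurable fun p : Gp × Dif => Φ.symm (p.1 • Φ p.2)
    refine Φ.symm.measurable.comp ?_
    refine Measurable.subtype_mk ?_ (h := fun p : Gp × Dif => (p.1 • Φ p.2).2)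
    exact measurable_actF.comp (measurable_fst.prodMk
      (measurable_subtype_coe.comp (Φ.measurable.comp measurable_snd)))
  · rw [hΦ]
    constructor
    · rintro ⟨a, ha⟩
      refine ⟨a, ?_⟩
      show Φ.symm (a • Φ f) = g
      rw [ha, MeasurableEquiv.symm_apply_apply]
    · rintro ⟨a, ha⟩
      refine ⟨a, ?_⟩
      rw [← ha]
      show _ = Φ (Φ.symm (a • Φ f))
      rw [MeasurableEquiv.apply_symm_apply]

end Pool.Agent.CIR
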