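import Pool.Agent.Lib.CIR.Ext

/-!
# CIR.Intv: interval homeomorphisms with the same signs are conjugate

PROOF of `comp_conj` (one component): if `x < A x` for all `x ∈ Ioo c d` (then also `x < B x`): apply `ext_conj` with `I = J = Ioo c d`, `a = a' = (c + d) / 2` and `η` the affine increasing map with `η a = a`, `η (A a) = B a`
(`Ioo c d` is invariant: `A c = c`, `A d = d`, strictly increasing). Otherwise, by the intermediate value theorem and `hne`, `A x < x` for all `x ∈ Ioo c d`, and `B x < x`; apply `ext_conj` to `A.symm`, `B.symm`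
(`x < A.symm x`): it gives `ψ (A.symm x) = B.symm (ψ x)`; put `A x` for `x`: `ψ x = B.symm (ψ (A x))`, so `ψ (A x) = B (ψ x)`.

PROOF of `conj_of_sign`. Let `Z = {x ∈ Icc 0 1 | A x = x} = {x ∈ Icc 0 1 | B x = x}` (from `h`, `h'`), closed, `0, 1 ∈ Z`. For `x ∈ Icc 0 1`, `x ∉ Z` put `c x = sSup (Z ∩ Icc 0 x)`, `d x = sInf (Z ∩ Icc x 1)`; these are in `Z`,
`c x < x < d x`, and `Ioo (c x) (d x)` contains no point of `Z`. For every pair `(c, d)` with `c < d`, `c, d ∈ Z`, `Ioo c d ∩ Z = ∅` choose `ψ c d` by `comp_conj`. Define `η x = x` for `x ∈ Z` and `η x = ψ (c x) (d x) x` otherwise.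
STRICTLY MONOTONE: let `x < y` in `Icc 0 1`. If there is `z ∈ Z` with `x ≤ z ≤ y`: `η x ≤ z`, with equality only for `x = z` (if `x ∉ Z` then `η x < d x ≤ z`; if `x ∈ Z` then `η x = x`), similarly `z ≤ η y` with equality only for `y = z`;
so `η x < η y`. If there is no such `z`: `c x = c y`, `d x = d y`, and `ψ (c x) (d x)` is strictly monotone there.
SURJECTIVE from `Icc 0 1` to `Icc 0 1`: on `Z` it is the identity, every component is mapped onto itself. A strictly monotone map of `Icc 0 1` onto `Icc 0 1` is continuous (e.g. `StrictMonoOn.orderIso` and `OrderIso.continuous`, or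
`StrictMonoOn.continuousWithinAt...of surjective` lemmas in Mathlib.Topology.Order.MonotoneContinuity).
CONJUGACY: for `x ∈ Z`: `A x = x = B x`. For `x ∉ Z`: `A x` lies in the same component (it is invariant), so `η (A x) = ψ (c x) (d x) (A x) = B (ψ (c x) (d x) x) = B (η x)`.
-/

set_option autoImplicit false

open Set

namespace Pool.Agent.CIR

namespace IntvAux

theorem inv_mem (A : ℝ ≃o ℝ) {c d : ℝ} (hAc : A c = c) (hAd : A d = d) (x : ℝ) :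
    A x ∈ Ioo c d ↔ x ∈ Ioo c d := by
  have h1 : A c < A x ↔ c < x := A.lt_iff_lt
  have h2 : A x < A d ↔ x < d := A.lt_iff_lt
  rw [hAc] at h1
  rw [hAd] at h2
  exact and_congr h1 h2

theorem fix_between (A : ℝ ≃o ℝ) {x y : ℝ} (hx : A x < x) (hy : y < A y) :
    ∃ t ∈ uIcc x y, A t = t := by
  have hc : ContinuousOn (fun t => A t - t) (uIcc x y) :=
    (A.continuous.sub continuous_id).continuousOn
  have h := intermediate_value_uIcc hc
  have h0 : (0 : ℝ) ∈ uIcc (A x - x) (A y - y) := by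
    rw [mem_uIcc]
    left
    constructor <;> linarith
  obtain ⟨t, ht, h1⟩ := h h0
  refine ⟨t, ht, ?_⟩
  simp only at h1
  linarith

theorem case_up (A B : ℝ ≃o ℝ) {c d : ℝ} (hcd : c < d) (hAc : A c = c) (hAd : A d = d)
    (hBc : B c = c) (hBd : B d = d) (hA : ∀ x ∈ Ioo c d, x < A x) (hB : ∀ x ∈ Ioo c d, x < B x) :
    ∃ ψ : ℝ → ℝ, StrictMonoOn ψ (Ioo c d) ∧ BijOn ψ (Ioo c d) (Ioo c d) ∧
      ∀ x ∈ Ioo c d, ψ (A x) = B (ψ x) := by
  obtain ⟨m, hm⟩ : ∃ m, m = (c + d) / 2 := ⟨_, rfl⟩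
  have hmI : m ∈ Ioo c d := by
    constructor <;> rw [hm] <;> linarith
  have h1 := hA m hmI
  have h2 := hB m hmI
  have hs : 0 < (B m - m) / (A m - m) := div_pos (by linarith) (by linarith)
  have hne : A m - m ≠ 0 := by linarith
  obtain ⟨ψ, p1, p2, _, p4⟩ := ext_conj A B (I := Ioo c d) (J := Ioo c d) ordConnected_Ioo
    ordConnected_Ioo hA hB (inv_mem A hAc hAd) (inv_mem B hBc hBd) hmI hmI
    (η := fun t => m + (t - m) * ((B m - m) / (A m - m)))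
    (by fun_prop)
    (by
      intro s _ t _ hst
      have : (s - m) * ((B m - m) / (A m - m)) < (t - m) * ((B m - m) / (A m - m)) :=
        mul_lt_mul_of_pos_right (by linarith) hs
      simp only
      linarith)
    (by simp)
    (by
      rw [mul_div_cancel₀ _ hne]
      ring)
  exact ⟨ψ, p1, p2, p4⟩

theorem symm_up (A : ℝ ≃o ℝ) {c d : ℝ} (hAc : A c = c) (hAd : A d = d)
    (hA : ∀ x ∈ Ioo c d, A x < x) : ∀ x ∈ Ioo c d, x < A.symm x := by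
  intro x hx
  have h1 : A (A.symm x) = x := A.apply_symm_apply x
  have h2 : A.symm x ∈ Ioo c d := by
    rw [← inv_mem A hAc hAd, h1]
    exact hx
  have h3 := hA _ h2
  rwa [h1] at h3

theorem symm_fix (A : ℝ ≃o ℝ) {c : ℝ} (hAc : A c = c) : A.symm c = c := by
  rw [OrderIso.symm_apply_eq]
  exact hAc.symm

theorem comp (A B : ℝ ≃o ℝ) {c d : ℝ} (hcd : c < d) (hAc : A c = c) (hAd : A d = d) (hBc : B c = c) (hBd : B d = d)
    (hne : ∀ x ∈ Ioo c d, A x ≠ x) (h : ∀ x ∈ Ioo c d, x < A x ↔ x < B x) (h' : ∀ x ∈ Ioo c d, A x < x ↔ B x < x) :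
    ∃ ψ : ℝ → ℝ, StrictMonoOn ψ (Ioo c d) ∧ BijOn ψ (Ioo c d) (Ioo c d) ∧ ∀ x ∈ Ioo c d, ψ (A x) = B (ψ x) := by
  by_cases hu : ∀ x ∈ Ioo c d, x < A x
  · exact case_up A B hcd hAc hAd hBc hBd hu (fun x hx => (h x hx).1 (hu x hx))
  · have hdn : ∀ x ∈ Ioo c d, A x < x := by
      intro y hy
      by_contra hcon
      have hy1 : y < A y := lt_of_le_of_ne (not_lt.1 hcon) (hne y hy).symm
      apply hu
      intro x hx
      by_contra hcon2
      have hx1 : A x < x := lt_of_le_of_ne (not_lt.1 hcon2) (hne x hx)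
      obtain ⟨t, ht, h1⟩ := fix_between A hx1 hy1
      exact hne t (ordConnected_Ioo.uIcc_subset hx hy ht) h1
    have hdB : ∀ x ∈ Ioo c d, B x < x := fun x hx => (h' x hx).1 (hdn x hx)
    obtain ⟨ψ, p1, p2, p3⟩ := case_up A.symm B.symm hcd (symm_fix A hAc) (symm_fix A hAd)
      (symm_fix B hBc) (symm_fix B hBd) (symm_up A hAc hAd hdn) (symm_up B hBc hBd hdB)
    refine ⟨ψ, p1, p2, ?_⟩
    intro x hx
    have h1 := p3 (A x) ((inv_mem A hAc hAd x).2 hx)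
    rw [A.symm_apply_apply] at h1
    rw [h1, B.apply_symm_apply]

/-- The closed set of fixed points and of the points outside the interval. -/
def Z (A : ℝ ≃o ℝ) : Set ℝ := {x | x ≤ 0 ∨ 1 ≤ x ∨ A x = x}

theorem closed_Z (A : ℝ ≃o ℝ) : IsClosed (Z A) := by
  have h1 : IsClosed {x : ℝ | x ≤ 0} := isClosed_le continuous_id continuous_const
  have h2 : IsClosed {x : ℝ | 1 ≤ x} := isClosed_le continuous_const continuous_id
  have h3 : IsClosed {x : ℝ | A x = x} := isClosed_eq A.continuous continuous_id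
  exact h1.union (h2.union h3)

/-- Complementary intervals. -/
def Comp (A : ℝ ≃o ℝ) (p : ℝ × ℝ) : Prop :=
  p.1 < p.2 ∧ p.1 ∈ Z A ∧ p.2 ∈ Z A ∧ ∀ t ∈ Ioo p.1 p.2, t ∉ Z A

theorem exists_comp (A : ℝ ≃o ℝ) {x : ℝ} (hx : x ∉ Z A) : ∃ p, Comp A p ∧ x ∈ Ioo p.1 p.2 := by
  have hx' : ¬ (x ≤ 0 ∨ 1 ≤ x ∨ A x = x) := hx
  push Not at hx'
  obtain ⟨x0, x1, _⟩ := hx'
  have hc := closed_Z A
  have n1 : (Z A ∩ Iic x).Nonempty := ⟨0, Or.inl (le_refl _), x0.le⟩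
  have n2 : (Z A ∩ Ici x).Nonempty := ⟨1, Or.inr (Or.inl (le_refl _)), x1.le⟩
  have b1 : BddAbove (Z A ∩ Iic x) := ⟨x, fun z hz => hz.2⟩
  have b2 : BddBelow (Z A ∩ Ici x) := ⟨x, fun z hz => hz.2⟩
  have m1 := (hc.inter isClosed_Iic).csSup_mem n1 b1
  have m2 := (hc.inter isClosed_Ici).csInf_mem n2 b2
  have l1 : sSup (Z A ∩ Iic x) < x := by
    refine lt_of_le_of_ne m1.2 ?_
    intro h
    apply hx
    rw [← h]
    exact m1.1
  have l2 : x < sInf (Z A ∩ Ici x) := by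
    refine lt_of_le_of_ne m2.2 ?_
    intro h
    apply hx
    rw [h]
    exact m2.1
  refine ⟨(sSup (Z A ∩ Iic x), sInf (Z A ∩ Ici x)), ⟨l1.trans l2, m1.1, m2.1, ?_⟩, l1, l2⟩
  intro t ht htZ
  rcases le_total t x with h | h
  · exact absurd (le_csSup b1 ⟨htZ, h⟩) (not_le.2 ht.1)
  · exact absurd (csInf_le b2 ⟨htZ, h⟩) (not_le.2 ht.2)

theorem comp_unique (A : ℝ ≃o ℝ) {p q : ℝ × ℝ} (hp : Comp A p) (hq : Comp A q) {x : ℝ}
    (h1 : x ∈ Ioo p.1 p.2) (h2 : x ∈ Ioo q.1 q.2) : p = q := by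
  obtain ⟨_, a1, a2, a3⟩ := hp
  obtain ⟨_, b1, b2, b3⟩ := hq
  obtain ⟨c1, c2⟩ := h1
  obtain ⟨d1, d2⟩ := h2
  apply Prod.ext
  · rcases lt_trichotomy p.1 q.1 with h | h | h
    · exact absurd b1 (a3 _ ⟨h, by linarith⟩)
    · exact h
    · exact absurd a1 (b3 _ ⟨h, by linarith⟩)
  · rcases lt_trichotomy p.2 q.2 with h | h | h
    · exact absurd a2 (b3 _ ⟨by linarith, h⟩)
    · exact h
    · exact absurd b2 (a3 _ ⟨by linarith, h⟩)

theorem comp_in (A : ℝ ≃o ℝ) {p : ℝ × ℝ} (hp : Comp A p) : 0 ≤ p.1 ∧ p.2 ≤ 1 := by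
  obtain ⟨a0, a1, a2, a3⟩ := hp
  have h0 : ∀ t ∈ Ioo p.1 p.2, 0 < t ∧ t < 1 := by
    intro t ht
    have : ¬ (t ≤ 0 ∨ 1 ≤ t ∨ A t = t) := a3 t ht
    push Not at this
    exact ⟨this.1, this.2.1⟩
  constructor
  · by_contra hcon
    have hcon : p.1 < 0 := not_le.1 hcon
    obtain ⟨t, t1, t2⟩ := exists_between (lt_min a0 hcon)
    have := (h0 t ⟨t1, lt_of_lt_of_le t2 (min_le_left _ _)⟩).1
    have t3 := lt_of_lt_of_le t2 (min_le_right _ _)
    linarith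
  · by_contra hcon
    have hcon : 1 < p.2 := not_le.1 hcon
    obtain ⟨t, t1, t2⟩ := exists_between (max_lt a0 hcon)
    have := (h0 t ⟨lt_of_le_of_lt (le_max_left _ _) t1, t2⟩).2
    have t3 := lt_of_le_of_lt (le_max_right _ _) t1
    linarith

theorem global (A B : ℝ ≃o ℝ) (hA0 : A 0 = 0) (hA1 : A 1 = 1) (hB0 : B 0 = 0) (hB1 : B 1 = 1)
    (h : ∀ x ∈ Icc (0 : ℝ) 1, x < A x ↔ x < B x) (h' : ∀ x ∈ Icc (0 : ℝ) 1, A x < x ↔ B x < x) :
    ∃ η : ℝ → ℝ, Continuous η ∧ StrictMono η ∧ η 0 = 0 ∧ η 1 = 1 ∧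
      ∀ x ∈ Icc (0 : ℝ) 1, η (A x) = B (η x) := by
  classical
  have fixB : ∀ x ∈ Icc (0 : ℝ) 1, A x = x → B x = x := by
    intro x hx h1
    have h2 := h x hx
    have h3 := h' x hx
    rw [h1] at h2 h3
    rcases lt_trichotomy (B x) x with h4 | h4 | h4
    · exact absurd (h3.2 h4) (lt_irrefl _)
    · exact h4
    · exact absurd (h2.2 h4) (lt_irrefl _)
  have fixZ : ∀ x ∈ Icc (0 : ℝ) 1, x ∈ Z A → A x = x := by
    intro x hx hz
    rcases hz with h1 | h1 | h1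
    · have : x = 0 := le_antisymm h1 hx.1
      rw [this, hA0]
    · have : x = 1 := le_antisymm hx.2 h1
      rw [this, hA1]
    · exact h1
  have ex : ∀ p : ℝ × ℝ, ∃ ψ : ℝ → ℝ, Comp A p → StrictMonoOn ψ (Ioo p.1 p.2) ∧
      BijOn ψ (Ioo p.1 p.2) (Ioo p.1 p.2) ∧ ∀ x ∈ Ioo p.1 p.2, ψ (A x) = B (ψ x) := by
    intro p
    by_cases hp : Comp A p
    · obtain ⟨c0, c1⟩ := comp_in A hp
      have i1 : p.1 ∈ Icc (0 : ℝ) 1 := ⟨c0, by have := hp.1; linarith⟩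
      have i2 : p.2 ∈ Icc (0 : ℝ) 1 := ⟨by have := hp.1; linarith, c1⟩
      have hsub : ∀ x ∈ Ioo p.1 p.2, x ∈ Icc (0 : ℝ) 1 := fun x hx =>
        ⟨c0.trans hx.1.le, hx.2.le.trans c1⟩
      have e1 := fixZ _ i1 hp.2.1
      have e2 := fixZ _ i2 hp.2.2.1
      obtain ⟨ψ, q⟩ := comp A B hp.1 e1 e2 (fixB _ i1 e1) (fixB _ i2 e2)
        (fun x hx h1 => hp.2.2.2 x hx (Or.inr (Or.inr h1)))
        (fun x hx => h x (hsub x hx)) (fun x hx => h' x (hsub x hx))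
      exact ⟨ψ, fun _ => q⟩
    · exact ⟨id, fun h => absurd h hp⟩
  choose ψ hψ using ex
  have ex2 : ∀ x : ℝ, ∃ p : ℝ × ℝ, x ∉ Z A → Comp A p ∧ x ∈ Ioo p.1 p.2 := by
    intro x
    by_cases hx : x ∈ Z A
    · exact ⟨(0, 0), fun h => absurd hx h⟩
    · obtain ⟨p, hp⟩ := exists_comp A hx
      exact ⟨p, fun _ => hp⟩
  choose P hP using ex2
  obtain ⟨η, hη⟩ : ∃ η : ℝ → ℝ, η = fun x => if x ∈ Z A then x else ψ (P x) x := ⟨_, rfl⟩
  have F1 : ∀ x, x ∈ Z A → η x = x := by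
    intro x hx
    rw [hη]
    simp [hx]
  have F2 : ∀ p, Comp A p → ∀ x ∈ Ioo p.1 p.2, η x = ψ p x := by
    intro p hp x hx
    have hxZ := hp.2.2.2 x hx
    have e : P x = p := comp_unique A (hP x hxZ).1 hp (hP x hxZ).2 hx
    rw [hη]
    simp [hxZ, e]
  have F3 : ∀ p, Comp A p → ∀ x ∈ Ioo p.1 p.2, η x ∈ Ioo p.1 p.2 := by
    intro p hp x hx
    rw [F2 p hp x hx]
    exact (hψ p hp).2.1.mapsTo hx
  have smono : StrictMono η := by
    intro x y hxy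
    by_cases hx : x ∈ Z A
    · by_cases hy : y ∈ Z A
      · rw [F1 x hx, F1 y hy]
        exact hxy
      · obtain ⟨p, hp, hyp⟩ := exists_comp A hy
        rw [F1 x hx]
        have h1 : x ≤ p.1 := by
          by_contra hcon
          exact hp.2.2.2 x ⟨not_le.1 hcon, hxy.trans hyp.2⟩ hx
        exact lt_of_le_of_lt h1 (F3 p hp y hyp).1
    · obtain ⟨p, hp, hxp⟩ := exists_comp A hx
      by_cases hy : y ∈ Z A
      · rw [F1 y hy]
        have h1 : p.2 ≤ y := by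
          by_contra hcon
          exact hp.2.2.2 y ⟨hxp.1.trans hxy, not_le.1 hcon⟩ hy
        exact lt_of_lt_of_le (F3 p hp x hxp).2 h1
      · obtain ⟨q, hq, hyq⟩ := exists_comp A hy
        rcases le_or_gt p.2 q.1 with h1 | h1
        · exact (F3 p hp x hxp).2.trans (lt_of_le_of_lt h1 (F3 q hq y hyq).1)
        · rcases lt_or_ge y p.2 with h2 | h2
          · have hyp : y ∈ Ioo p.1 p.2 := ⟨hxp.1.trans hxy, h2⟩
            rw [F2 p hp x hxp, F2 p hp y hyp]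
            exact (hψ p hp).1 hxp hyp hxy
          · exact absurd hp.2.2.1 (hq.2.2.2 _ ⟨h1, lt_of_le_of_lt h2 hyq.2⟩)
  have surj : Function.Surjective η := by
    intro y
    by_cases hy : y ∈ Z A
    · exact ⟨y, F1 y hy⟩
    · obtain ⟨p, hp, hyp⟩ := exists_comp A hy
      obtain ⟨x, hx, h1⟩ := (hψ p hp).2.1.surjOn hyp
      exact ⟨x, by rw [F2 p hp x hx, h1]⟩
  refine ⟨η, smono.monotone.continuous_of_surjective surj, smono, F1 0 (Or.inl (le_refl _)),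
    F1 1 (Or.inr (Or.inl (le_refl _))), ?_⟩
  intro x hx
  by_cases hxZ : x ∈ Z A
  · have h1 := fixZ x hx hxZ
    rw [h1, F1 x hxZ, fixB x hx h1]
  · obtain ⟨p, hp, hxp⟩ := exists_comp A hxZ
    obtain ⟨c0, c1⟩ := comp_in A hp
    have i1 : p.1 ∈ Icc (0 : ℝ) 1 := ⟨c0, by have := hp.1; linarith⟩
    have i2 : p.2 ∈ Icc (0 : ℝ) 1 := ⟨by have := hp.1; linarith, c1⟩
    have e1 := fixZ _ i1 hp.2.1
    have e2 := fixZ _ i2 hp.2.2.1
    rw [F2 p hp x hxp, F2 p hp (A x) ((inv_mem A e1 e2 x).2 hxp)]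
    exact (hψ p hp).2.2 x hxp

end IntvAux

theorem comp_conj (A B : ℝ ≃o ℝ) {c d : ℝ} (hcd : c < d) (hAc : A c = c) (hAd : A d = d) (hBc : B c = c) (hBd : B d = d)
    (hne : ∀ x ∈ Ioo c d, A x ≠ x) (h : ∀ x ∈ Ioo c d, x < A x ↔ x < B x) (h' : ∀ x ∈ Ioo c d, A x < x ↔ B x < x) :
    ∃ ψ : ℝ → ℝ, StrictMonoOn ψ (Ioo c d) ∧ BijOn ψ (Ioo c d) (Ioo c d) ∧ ∀ x ∈ Ioo c d, ψ (A x) = B (ψ x) := by
  exact IntvAux.comp A B hcd hAc hAd hBc hBd hne h h'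

theorem conj_of_sign (A B : ℝ ≃o ℝ) (hA0 : A 0 = 0) (hA1 : A 1 = 1) (hB0 : B 0 = 0) (hB1 : B 1 = 1)
    (h : ∀ x ∈ Icc (0 : ℝ) 1, x < A x ↔ x < B x) (h' : ∀ x ∈ Icc (0 : ℝ) 1, A x < x ↔ B x < x) :
    ∃ η : ℝ → ℝ, ContinuousOn η (Icc 0 1) ∧ StrictMonoOn η (Icc 0 1) ∧ η 0 = 0 ∧ η 1 = 1 ∧
      ∀ x ∈ Icc (0 : ℝ) 1, η (A x) = B (η x) := by
  obtain ⟨η, a1, a2, a3, a4, a5⟩ := IntvAux.global A B hA0 hA1 hB0 hB1 h h'
  exact ⟨η, a1.continuousOn, a2.strictMonoOn _, a3, a4, a5⟩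

end Pool.Agent.CIR
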