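import Pool.Agent.Lib.CIR.Bas

/-!
# CIR.Lift: every homeomorphism of the circle has a lift; the normalised lift `lf h`

PROOF of `lift_unique`: `E (G x) = E (F x)` for all `x`, so `G x - F x` is an integer (`E_eq_iff`); it is continuous, so constant (`ℝ` is preconnected, integer valued continuous function:
e.g. `IsPreconnected` + `Int.isClosedEmbedding_coe_real`-like, or the intermediate value theorem).

PROOF of `exists_lift`. (1) A continuous `F` with `E (F x) = h (E x)`: `E` is a covering map (`Circle.isCoveringMap_exp` composed with the homeomorphism `x ↦ 2 π x`; one can also lift through `Circle.exp` itself: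
a lift `F'` of `h ∘ E` through `Circle.exp`, then `F = F' / (2 π)`); `ℝ` is simply connected and locally path connected, see `IsCoveringMap.existsUnique_continuousMap_lifts` / `IsCoveringMap.liftPath`,
`IsCoveringMap.monodromy...` in Mathlib.Topology.Homotopy.Lifting.
(2) `E (F (x + 1)) = E (F x)`, so `F (x + 1) = F x + d` with an integer `d` not depending on `x` (as in `lift_unique`).
(3) `F` is injective: let `F x = F y`, `x < y`. Then `h (E x) = h (E y)`, so `E x = E y` and `y = x + m` with an integer `m ≥ 1`; `F (x + m) = F x + m * d`, so `d = 0` and `F` is periodic with period `1`. But `F` is injective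
on `[0, 1)` (by the same argument: `F s = F t` implies `s - t` is an integer), continuous, so strictly monotone (or antitone) on `[0, 1)`: say monotone; then `F 1 = lim F t (t → 1-) ≥ F (1/2) > F 0`, contradiction to `F 1 = F 0`.
More generally `F s = F t + m` (`m` an integer) implies that `s - t` is an integer.
(4) `F : ℝ → ℝ` is continuous and injective, so strictly monotone or strictly antitone (`Continuous.strictMono_of_inj`). If strictly monotone, `d = F 1 - F 0 > 0`; if `d ≥ 2`, by the intermediate value theorem there is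
`y ∈ (0, 1)` with `F y = F 0 + 1`, so `y` is an integer by (3), contradiction. So `d = 1` and `F` is `Pos`. The antitone case in the same way.

`lf h` is chosen by `exists_lift_norm`: subtract the integer `⌊F 0⌋` from a lift.
-/

set_option autoImplicit false

open Set
open scoped ContDiff Manifold

namespace Pool.Agent.CIR

namespace LiftAux

theorem const_of_int {g : ℝ → ℝ} (hg : Continuous g) (h : ∀ x, ∃ m : ℤ, g x = m) :
    ∃ m : ℤ, ∀ x, g x = m := by
  obtain ⟨m, hm⟩ := h 0
  refine ⟨m, fun x => ?_⟩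
  have hd : DiscreteTopology (range ((↑) : ℤ → ℝ)) :=
    (Int.isClosedEmbedding_coe_real.isEmbedding.toHomeomorph.symm).isEmbedding.discreteTopology
  obtain ⟨y, _, hy⟩ := isPreconnected_univ.eqOn_const_of_mapsTo (T := range ((↑) : ℤ → ℝ))
    ⟨hd⟩ hg.continuousOn (fun x _ => by obtain ⟨k, hk⟩ := h x; exact ⟨k, hk.symm⟩) ⟨0, 0, by simp⟩
  have h1 : g x = y := hy (mem_univ x)
  have h2 : g 0 = y := hy (mem_univ 0)
  rw [h1, ← h2, hm]

theorem add_int_of {G : ℝ → ℝ} {k : ℝ} (h : ∀ y, G (y + 1) = G y + k) (m : ℤ) (y : ℝ) :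
    G (y + m) = G y + m * k := by
  induction m using Int.induction_on with
  | zero => simp
  | succ n ih =>
    have : y + ((n + 1 : ℤ) : ℝ) = (y + ((n : ℤ) : ℝ)) + 1 := by push_cast; ring
    rw [this, h, ih]
    push_cast
    ring
  | pred n ih =>
    have h1 := h (y + ((-(n : ℤ) - 1 : ℤ) : ℝ))
    have : y + ((-(n : ℤ) - 1 : ℤ) : ℝ) + 1 = y + ((-(n : ℤ) : ℤ) : ℝ) := by push_cast; ring
    rw [this, ih] at h1
    push_cast at h1 ⊢
    linarith

theorem lift_exists (g : Circle → Circle) (hg : Continuous g) (a e : ℝ) (he : E e = g (E a)) :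
    ∃ F : ℝ → ℝ, Continuous F ∧ F a = e ∧ ∀ x : ℝ, E (F x) = g (E x) := by
  have cov := Circle.isCoveringMap_exp
  let g' : C(ℝ, Circle) := ⟨fun x : ℝ => g (E x), hg.comp continuous_E⟩
  obtain ⟨F, ⟨h1, h2⟩, _⟩ := cov.existsUnique_continuousMap_lifts g' a (2 * Real.pi * e) he
  have hpi : (2 * Real.pi) ≠ 0 := by positivity
  refine ⟨fun x => F x / (2 * Real.pi), F.continuous.div_const _, ?_, fun x => ?_⟩
  · show F a / (2 * Real.pi) = e
    rw [h1]
    field_simp
  · show Circle.exp (2 * Real.pi * (F x / (2 * Real.pi))) = g (E x)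
    rw [mul_div_cancel₀ _ hpi]
    exact congrFun h2 x

theorem diff_int {F G : ℝ → ℝ} (hF : Continuous F) (hG : Continuous G)
    (h : ∀ x, E (G x) = E (F x)) : ∃ m : ℤ, ∀ x, G x = F x + m := by
  obtain ⟨m, hm⟩ := const_of_int (g := fun x => G x - F x) (hG.sub hF) (fun x => by
    obtain ⟨m, hm⟩ := E_eq_iff.1 (h x)
    exact ⟨m, by rw [hm]; ring⟩)
  refine ⟨m, fun x => ?_⟩
  have h1 : G x - F x = m := hm x
  linarith

theorem comp_id {F F' : ℝ → ℝ} (hF : Continuous F) (hF' : Continuous F') {a : ℝ}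
    (ha : F' (F a) = a) (h : ∀ x, E (F' (F x)) = E x) : ∀ x, F' (F x) = x := by
  obtain ⟨m, hm⟩ := diff_int (F := fun x => x) (G := fun x => F' (F x)) continuous_id
    (hF'.comp hF) h
  intro x
  have h1 : F' (F x) = x + m := hm x
  have h2 : F' (F a) = a + m := hm a
  rw [ha] at h2
  rw [h1]
  linarith

theorem per_int {F : ℝ → ℝ} (hF : Continuous F) (f : Circle → Circle)
    (h : ∀ x : ℝ, E (F x) = f (E x)) : ∃ k : ℤ, ∀ x, F (x + 1) = F x + k := by
  refine diff_int (F := F) (G := fun x => F (x + 1)) hF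
    (hF.comp (continuous_id.add continuous_const)) (fun x => ?_)
  show E (F (x + 1)) = E (F x)
  rw [h, h, E_add_one]

end LiftAux

open LiftAux

theorem lift_unique {h : Circle → Circle} {F G : ℝ → ℝ} (hF : Continuous F) (hG : Continuous G) (h1 : Lft h F) (h2 : Lft h G) :
    ∃ m : ℤ, ∀ x, G x = F x + m :=
  diff_int hF hG (fun x => (h2 x).trans (h1 x).symm)

theorem exists_lift (h : H) : ∃ F, (Pos F ∨ Neg F) ∧ Lft h F := by
  obtain ⟨e0, he0⟩ := E_surj (h (E 0))
  obtain ⟨F, hFc, hF0, hF⟩ := lift_exists h h.continuous 0 e0 he0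
  obtain ⟨F', hF'c, hF'0, hF'⟩ := lift_exists h.symm h.symm.continuous e0 0 (by
    rw [he0, Homeomorph.symm_apply_apply])
  have h1 : ∀ x, F' (F x) = x := comp_id hFc hF'c (a := 0) (by rw [hF0, hF'0]) (fun x => by
    rw [hF', hF, Homeomorph.symm_apply_apply])
  obtain ⟨k, hk⟩ := per_int hFc h hF
  obtain ⟨k', hk'⟩ := per_int hF'c h.symm hF'
  have hkk : k * k' = 1 := by
    have h3 := add_int_of hk' k (F 0)
    rw [← hk 0, h1, h1] at h3
    have h4 : ((k * k' : ℤ) : ℝ) = ((1 : ℤ) : ℝ) := by push_cast; linarith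
    exact_mod_cast h4
  have hinj : Function.Injective F := fun x y hxy => by rw [← h1 x, ← h1 y, hxy]
  rcases Int.eq_one_or_neg_one_of_mul_eq_one hkk with hk1 | hk1
  · have hm : StrictMono F := by
      rcases hFc.strictMono_of_inj hinj with h | h
      · exact h
      · have h3 : F (0 + 1) < F 0 := h (by norm_num)
        rw [hk 0, hk1] at h3
        push_cast at h3
        linarith
    refine ⟨F, Or.inl ⟨hFc, hm, fun x => ?_⟩, hF⟩
    rw [hk x, hk1]
    push_cast
    ring
  · have hm : StrictAnti F := by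
      rcases hFc.strictMono_of_inj hinj with h | h
      · have h3 : F 0 < F (0 + 1) := h (by norm_num)
        rw [hk 0, hk1] at h3
        push_cast at h3
        linarith
      · exact h
    refine ⟨F, Or.inr ⟨hFc, hm, fun x => ?_⟩, hF⟩
    rw [hk x, hk1]
    push_cast
    ring

theorem exists_lift_norm (h : H) : ∃ F, (Pos F ∨ Neg F) ∧ Lft h F ∧ 0 ≤ F 0 ∧ F 0 < 1 := by
  obtain ⟨F, h1, h2⟩ := exists_lift h
  refine ⟨fun x => F x + ((-⌊F 0⌋ : ℤ) : ℝ), ?_, h2.add_int _, ?_, ?_⟩
  · rcases h1 with h1 | h1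
    · exact Or.inl (h1.add_const _)
    · refine Or.inr ⟨h1.1.add continuous_const, fun _ _ h => ?_, fun x => ?_⟩
      · have := h1.2.1 h
        show _ + ((-⌊F 0⌋ : ℤ) : ℝ) < _ + ((-⌊F 0⌋ : ℤ) : ℝ)
        linarith
      · show F (x + 1) + ((-⌊F 0⌋ : ℤ) : ℝ) = F x + ((-⌊F 0⌋ : ℤ) : ℝ) - 1
        rw [h1.add_one]
        ring
  · show 0 ≤ F 0 + ((-⌊F 0⌋ : ℤ) : ℝ)
    push_cast
    have := Int.floor_le (F 0)
    linarith
  · show F 0 + ((-⌊F 0⌋ : ℤ) : ℝ) < 1
    push_cast
    have := Int.lt_floor_add_one (F 0)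
    linarith

/-- The normalised lift. -/
noncomputable def lf (h : H) : ℝ → ℝ := (exists_lift_norm h).choose

theorem lf_spec (h : H) : (Pos (lf h) ∨ Neg (lf h)) ∧ Lft h (lf h) ∧ 0 ≤ lf h 0 ∧ lf h 0 < 1 :=
  (exists_lift_norm h).choose_spec

theorem lft_lf (h : H) : Lft h (lf h) := (lf_spec h).2.1

theorem lf_cont (h : H) : Continuous (lf h) := by
  rcases (lf_spec h).1 with h1 | h1
  · exact h1.1
  · exact h1.1

theorem pos_iff_lt (h : H) : Pos (lf h) ↔ lf h 0 < lf h 1 := by
  constructor
  · intro h1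
    exact h1.2.1 one_pos
  · intro h1
    rcases (lf_spec h).1 with h2 | h2
    · exact h2
    · exact absurd h1 (h2.2.1 one_pos).asymm

theorem neg_iff_not (h : H) : Neg (lf h) ↔ ¬ Pos (lf h) := by
  constructor
  · intro h1 h2
    exact (h1.2.1 one_pos).asymm (h2.2.1 one_pos)
  · intro h1
    exact (lf_spec h).1.resolve_left h1

end Pool.Agent.CIR
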