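import Pool.Agent.Lib.CIR.Bas
import Pool.Agent.Lib.CIR.Ext

/-!
# CIR.MinusC: conjugacy of degree minus one lifts from a fundamental interval

PROOF of `exists_pos_ext`: `ext_conj` with `A = B` = translation by `1` (`OrderIso.addRight 1`), `I = J = univ`, `a = c`, `a' = ψ c`, `η = ψ`.

PROOF of `minus_conj`. `F b = b - 1 < a = F a` gives `b - 1 < a < b`. `F` is a bijection (`Neg.bij`), let `F'` be its inverse, strictly decreasing and continuous; `F' a = a`, `F' (b - 1) = b`, so `F'` maps `[b - 1, a]` onto `[a, b]`.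
Define `ψ x = η x` for `a ≤ x` and `ψ x = G (η (F' x))` for `x < a`. At `x = a` both formulas give `a'` (`G (η a) = G a' = a'`), so `ψ` is continuous and strictly increasing on `[b - 1, b]` (`G ∘ η ∘ F'` is increasing: two decreasing maps);
`ψ (b - 1) = G (η b) = G b' = b' - 1 = ψ b - 1`. `exists_pos_ext` with `c = b - 1` gives `Ψ`.
CONJUGACY. For `x ∈ [a, b]`: `F x ∈ [b - 1, a]`, `Ψ (F x) = G (η (F' (F x))) = G (η x) = G (Ψ x)`. For `x ∈ [b - 1, a]`: `x = F y` with `y ∈ [a, b]`; `F x = F (F y) ∈ [a, b]`, `Ψ (F x) = η (F (F y)) = G (G (η y)) = G (Ψ x)` because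
`Ψ x = G (η y)`. Every real number is `x + m` with `x ∈ [b - 1, b]`, `m` an integer: `Ψ (F (x + m)) = Ψ (F x - m) = Ψ (F x) - m = G (Ψ x) - m = G (Ψ x + m) = G (Ψ (x + m))` (`Neg.add_int`, `Pos.sub_int`, ...).
-/

set_option autoImplicit false

open Set

namespace Pool.Agent.CIR

theorem exists_pos_ext {ψ : ℝ → ℝ} {c : ℝ} (hc : ContinuousOn ψ (Icc c (c + 1))) (hm : StrictMonoOn ψ (Icc c (c + 1)))
    (h1 : ψ (c + 1) = ψ c + 1) : ∃ Ψ, Pos Ψ ∧ ∀ x ∈ Icc c (c + 1), Ψ x = ψ x := by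
  obtain ⟨Ψ, hΨ1, hΨ2, hΨ3, hΨ4⟩ := ext_conj (OrderIso.addRight (1 : ℝ)) (OrderIso.addRight (1 : ℝ))
    (I := univ) (J := univ) ordConnected_univ ordConnected_univ (fun x _ => lt_add_one x)
    (fun x _ => lt_add_one x) (fun x => by simp) (fun x => by simp) (a := c) (a' := ψ c)
    (mem_univ _) (mem_univ _) (η := ψ) hc hm rfl h1
  have hmono : StrictMono Ψ := fun x y hxy => hΨ1 (mem_univ x) (mem_univ y) hxy
  have hsurj : Function.Surjective Ψ := fun y => by
    obtain ⟨x, -, hx⟩ := hΨ2.surjOn (mem_univ y)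
    exact ⟨x, hx⟩
  exact ⟨Ψ, ⟨hmono.monotone.continuous_of_surjective hsurj, hmono, fun x => hΨ4 x (mem_univ x)⟩, hΨ3⟩

theorem minus_conj {F G : ℝ → ℝ} (hF : Neg F) (hG : Neg G) {a b a' b' : ℝ} (hab : a < b) (ha : F a = a)
    (hb : F b = b - 1) (hab' : a' < b') (ha' : G a' = a') (hb' : G b' = b' - 1) {η : ℝ → ℝ}
    (hη : ContinuousOn η (Icc a b)) (hη' : StrictMonoOn η (Icc a b)) (h0 : η a = a') (h1 : η b = b')
    (hc : ∀ x ∈ Icc a b, η (F (F x)) = G (G (η x))) : ∃ Ψ, Pos Ψ ∧ ∀ x, Ψ (F x) = G (Ψ x) := by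
  classical
  have hba : b - 1 < a := by
    have := hF.strictAnti hab
    rwa [ha, hb] at this
  have hFb1 : F (b - 1) = b := by
    have := hF.add_one (b - 1)
    rw [sub_add_cancel, hb] at this
    linarith
  obtain ⟨F', hF'c, hF'a, hF1, hF2⟩ : ∃ F' : ℝ → ℝ, Continuous F' ∧ StrictAnti F' ∧
      (∀ y, F (F' y) = y) ∧ ∀ x, F' (F x) = x := by
    refine ⟨fun y => hF.neg.oi.symm (-y), hF.neg.oi.symm.continuous.comp continuous_neg,
      fun x y hxy => hF.neg.oi.symm.strictMono (neg_lt_neg hxy), fun y => ?_, fun x => ?_⟩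
    · have h : hF.neg.oi (hF.neg.oi.symm (-y)) = -y := OrderIso.apply_symm_apply _ _
      have h' : -F (hF.neg.oi.symm (-y)) = -y := h
      exact neg_inj.1 h'
    · exact hF.neg.oi.symm_apply_apply x
  have hF'aa : F' a = a := by
    have := hF2 a
    rwa [ha] at this
  have hF'b : F' (b - 1) = b := by
    have := hF2 b
    rwa [hb] at this
  set ψ : ℝ → ℝ := fun x => if a ≤ x then η x else G (η (F' x)) with hψ
  have hψr : ∀ x, a ≤ x → ψ x = η x := fun x hx => by simp only [hψ, if_pos hx]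
  have hψl : ∀ x, x ≤ a → ψ x = G (η (F' x)) := fun x hx => by
    rcases hx.lt_or_eq with h | h
    · simp only [hψ, if_neg (not_le.2 h)]
    · rw [h, hψr a le_rfl, hF'aa, h0, ha']
  have hmaps : ∀ x ∈ Icc (b - 1) a, F' x ∈ Icc a b := fun x hx => by
    constructor
    · have := hF'a.antitone hx.2
      rwa [hF'aa] at this
    · have := hF'a.antitone hx.1
      rwa [hF'b] at this
  have hcont : ContinuousOn ψ (Icc (b - 1) (b - 1 + 1)) := by
    rw [sub_add_cancel, ← Icc_union_Icc_eq_Icc hba.le hab.le]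
    refine ContinuousOn.union_of_isClosed ?_ ?_ isClosed_Icc isClosed_Icc
    · refine ContinuousOn.congr (f := fun x => G (η (F' x))) ?_ (fun x hx => hψl x hx.2)
      exact hG.cont.comp_continuousOn (hη.comp hF'c.continuousOn hmaps)
    · exact hη.congr fun x hx => hψr x hx.1
  have hmono : StrictMonoOn ψ (Icc (b - 1) (b - 1 + 1)) := by
    rw [sub_add_cancel]
    intro x hx y hy hxy
    rcases le_or_gt a x with h | h
    · rw [hψr x h, hψr y (h.trans hxy.le)]
      exact hη' ⟨h, hx.2⟩ ⟨h.trans hxy.le, hy.2⟩ hxy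
    · rcases le_or_gt a y with h' | h'
      · rw [hψl x h.le, hψr y h']
        have h2 : η a ≤ η y := hη'.monotoneOn ⟨le_rfl, hab.le⟩ ⟨h', hy.2⟩ h'
        have h3 : η a < η (F' x) := by
          refine hη' ⟨le_rfl, hab.le⟩ (hmaps x ⟨hx.1, h.le⟩) ?_
          have := hF'a h
          rwa [hF'aa] at this
        have h4 := hG.strictAnti h3
        rw [h0, ha'] at h4
        rw [h0] at h2
        exact h4.trans_le h2
      · rw [hψl x h.le, hψl y h'.le]
        exact hG.strictAnti (hη' (hmaps y ⟨hy.1, h'.le⟩) (hmaps x ⟨hx.1, h.le⟩) (hF'a hxy))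
  obtain ⟨Ψ, hΨ, hΨψ⟩ := exists_pos_ext hcont hmono (by
    rw [sub_add_cancel, hψr b hab.le, hψl (b - 1) hba.le, hF'b, h1, hb']
    ring)
  rw [sub_add_cancel] at hΨψ
  have key : ∀ x ∈ Icc (b - 1) b, Ψ (F x) = G (Ψ x) := by
    intro x hx
    rw [hΨψ x hx]
    rcases le_total a x with h | h
    · have h3 : F x ≤ a := by
        have := hF.strictAnti.antitone h
        rwa [ha] at this
      have h4 : b - 1 ≤ F x := by
        have := hF.strictAnti.antitone hx.2
        rwa [hb] at this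
      rw [hΨψ (F x) ⟨h4, h3.trans hab.le⟩, hψl _ h3, hF2, hψr x h]
    · have h3 : a ≤ F x := by
        have := hF.strictAnti.antitone h
        rwa [ha] at this
      have h4 : F x ≤ b := by
        have := hF.strictAnti.antitone hx.1
        rwa [hFb1] at this
      rw [hΨψ (F x) ⟨hba.le.trans h3, h4⟩, hψr _ h3, hψl x h]
      have h5 := hc (F' x) (hmaps x ⟨hx.1, h⟩)
      rw [hF1] at h5
      exact h5
  refine ⟨Ψ, hΨ, fun z => ?_⟩
  obtain ⟨x, m, hx, hz⟩ : ∃ (x : ℝ) (m : ℤ), x ∈ Icc (b - 1) b ∧ z = x + m := by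
    refine ⟨z - ⌊z - (b - 1)⌋, ⌊z - (b - 1)⌋, ⟨?_, ?_⟩, by ring⟩
    · linarith [Int.floor_le (z - (b - 1))]
    · linarith [Int.lt_floor_add_one (z - (b - 1))]
  rw [hz, hF.add_int, hΨ.sub_int, hΨ.add_int, hG.add_int, key x hx]

end Pool.Agent.CIR
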