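import Pool.Agent.Lib.CIR.MinusC
import Pool.Agent.Lib.CIR.Intv

/-!
# CIR.MinusN: the normal form of an orientation reversing homeomorphism

Notation: `l = b - a`, `M x = x + m x`, `G x = - M x`.
(1) `m 0 = 0` (odd), `m (1 / 2) = m (- 1 / 2) = - m (1 / 2)` (period `1`, odd), so `m (1 / 2) = 0`. `M` is `Pos`, `G` is `Neg`; `G 0 = 0`, `G (1 / 2) = - 1 / 2 = 1 / 2 - 1`. `M` is odd, so `G (G x) = - M (- M x) = M (M x)`.
(2) `A x = (F (F (a + l x)) - a) / l` is an order isomorphism of `ℝ` (`Neg.comp`, `Pos.oi`, affine maps), `A 0 = 0`, `A 1 = 1` (`F (F b) = F (b - 1) = F b + 1 = b`). `B x = 2 M (M (x / 2))` is one too, `B 0 = 0`, `B 1 = 1`.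
(3) For `x ∈ Icc 0 1`: `x < A x ↔ 0 < F (F (a + l x)) - (a + l x) ↔ 0 < m (x / 2)` and `x < B x ↔ x / 2 < M (M (x / 2)) ↔ x / 2 < M (x / 2) ↔ 0 < m (x / 2)` (`M` strictly increasing). The same for `<` reversed. So `conj_of_sign` gives
`η₀`; `η x = η₀ ((x - a) / l) / 2` is continuous and strictly increasing on `Icc a b`, `η a = 0`, `η b = 1 / 2`, and `η (F (F x)) = η₀ (A y) / 2 = B (η₀ y) / 2 = M (M (η x)) = G (G (η x))` with `y = (x - a) / l`. Apply `minus_conj` with
`a' = 0`, `b' = 1 / 2`.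
-/

set_option autoImplicit false

open Set

namespace Pool.Agent.CIR

/-- The model map. -/
noncomputable def GM (m : ℝ → ℝ) (x : ℝ) : ℝ := -(x + m x)

namespace MinusNAux

theorem pos_M {m : ℝ → ℝ} (hm : Continuous m) (hm1 : ∀ x, m (x + 1) = m x) (hmono : StrictMono fun x => x + m x) :
    Pos (fun x => x + m x) :=
  ⟨continuous_id.add hm, hmono, fun x => by
    show x + 1 + m (x + 1) = x + m x + 1
    rw [hm1]
    ring⟩

end MinusNAux

theorem neg_GM {m : ℝ → ℝ} (hm : Continuous m) (hm1 : ∀ x, m (x + 1) = m x) (hmono : StrictMono fun x => x + m x) :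
    Neg (GM m) := by
  exact (MinusNAux.pos_M hm hm1 hmono).neg

namespace MinusNAux

/-- The rescaled second iterate. -/
noncomputable def Af (F : ℝ → ℝ) (a b x : ℝ) : ℝ := (F (F (a + (b - a) * x)) - a) / (b - a)

/-- The second iterate of the model. -/
noncomputable def Bf (m : ℝ → ℝ) (x : ℝ) : ℝ := 2 * ((x / 2 + m (x / 2)) + m (x / 2 + m (x / 2)))

theorem Af_mono {F : ℝ → ℝ} (hF : Neg F) {a b : ℝ} (hab : a < b) : StrictMono (Af F a b) := by
  intro x y hxy
  have hl : 0 < b - a := sub_pos.2 hab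
  have h1 : a + (b - a) * x < a + (b - a) * y := by
    have := mul_lt_mul_of_pos_left hxy hl
    linarith
  have h2 := hF.strictAnti (hF.strictAnti h1)
  unfold Af
  exact div_lt_div_of_pos_right (by linarith) hl

theorem Af_surj {F : ℝ → ℝ} (hF : Neg F) {a b : ℝ} (hab : a < b) : Function.Surjective (Af F a b) := by
  intro y
  have hl : b - a ≠ 0 := (sub_pos.2 hab).ne'
  obtain ⟨z, hz⟩ := (hF.comp hF).surj (a + (b - a) * y)
  refine ⟨(z - a) / (b - a), ?_⟩
  unfold Af
  have h1 : a + (b - a) * ((z - a) / (b - a)) = z := by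
    rw [mul_div_cancel₀ _ hl]
    ring
  rw [h1]
  have hz' : F (F z) = a + (b - a) * y := hz
  rw [hz', div_eq_iff hl]
  ring

theorem Bf_mono {m : ℝ → ℝ} (hmono : StrictMono fun x => x + m x) : StrictMono (Bf m) := by
  intro x y hxy
  have h1 : x / 2 < y / 2 := by linarith
  have h2 := hmono (hmono h1)
  have h3 : (x / 2 + m (x / 2)) + m (x / 2 + m (x / 2)) < (y / 2 + m (y / 2)) + m (y / 2 + m (y / 2)) := h2
  unfold Bf
  linarith

theorem Bf_surj {m : ℝ → ℝ} (hM : Pos fun x => x + m x) : Function.Surjective (Bf m) := by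
  intro y
  obtain ⟨z, hz⟩ := (hM.comp hM).surj (y / 2)
  refine ⟨2 * z, ?_⟩
  unfold Bf
  have h1 : 2 * z / 2 = z := by ring
  rw [h1]
  have hz' : (z + m z) + m (z + m z) = y / 2 := hz
  rw [hz']
  ring

theorem lt_iff {m : ℝ → ℝ} (hmono : StrictMono fun x => x + m x) (x : ℝ) : x < Bf m x ↔ 0 < m (x / 2) := by
  constructor
  · intro h
    by_contra h2
    push Not at h2
    have h3 : x / 2 + m (x / 2) ≤ x / 2 := by linarith
    have h4 : (x / 2 + m (x / 2)) + m (x / 2 + m (x / 2)) ≤ x / 2 + m (x / 2) := hmono.monotone h3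
    unfold Bf at h
    linarith
  · intro h
    have h3 : x / 2 < x / 2 + m (x / 2) := by linarith
    have h4 : x / 2 + m (x / 2) < (x / 2 + m (x / 2)) + m (x / 2 + m (x / 2)) := hmono h3
    unfold Bf
    linarith

theorem gt_iff {m : ℝ → ℝ} (hmono : StrictMono fun x => x + m x) (x : ℝ) : Bf m x < x ↔ m (x / 2) < 0 := by
  constructor
  · intro h
    by_contra h2
    push Not at h2
    have h3 : x / 2 ≤ x / 2 + m (x / 2) := by linarith
    have h4 : x / 2 + m (x / 2) ≤ (x / 2 + m (x / 2)) + m (x / 2 + m (x / 2)) := hmono.monotone h3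
    unfold Bf at h
    linarith
  · intro h
    have h3 : x / 2 + m (x / 2) < x / 2 := by linarith
    have h4 : (x / 2 + m (x / 2)) + m (x / 2 + m (x / 2)) < x / 2 + m (x / 2) := hmono h3
    unfold Bf
    linarith

theorem GM_GM {m : ℝ → ℝ} (hodd : ∀ x, m (-x) = -m x) (x : ℝ) : GM m (GM m x) = (x + m x) + m (x + m x) := by
  unfold GM
  rw [hodd]
  ring

end MinusNAux

open MinusNAux in
theorem minus_nf {F : ℝ → ℝ} (hF : Neg F) {a b : ℝ} (hab : a < b) (ha : F a = a) (hb : F b = b - 1) {m : ℝ → ℝ}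
    (hm : Continuous m) (hm1 : ∀ x, m (x + 1) = m x) (hodd : ∀ x, m (-x) = -m x) (hmono : StrictMono fun x => x + m x)
    (hs : ∀ x ∈ Icc (0 : ℝ) 1, 0 < m (x / 2) ↔ 0 < F (F (a + (b - a) * x)) - (a + (b - a) * x))
    (hs' : ∀ x ∈ Icc (0 : ℝ) 1, m (x / 2) < 0 ↔ F (F (a + (b - a) * x)) - (a + (b - a) * x) < 0) :
    ∃ Ψ, Pos Ψ ∧ ∀ x, Ψ (F x) = GM m (Ψ x) := by
  have hM : Pos (fun x => x + m x) := pos_M hm hm1 hmono
  have hG : Neg (GM m) := neg_GM hm hm1 hmono
  have hl : 0 < b - a := sub_pos.2 hab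
  have hl' : b - a ≠ 0 := hl.ne'
  have m0 : m 0 = 0 := by
    have h := hodd 0
    rw [neg_zero] at h
    linarith
  have mh : m (1 / 2) = 0 := by
    have h := hm1 (-(1 / 2))
    have h2 := hodd (1 / 2)
    have h3 : (-(1 / 2) + 1 : ℝ) = 1 / 2 := by norm_num
    rw [h3, h2] at h
    linarith
  have hG0 : GM m 0 = 0 := by
    unfold GM
    rw [m0]
    norm_num
  have hG1 : GM m (1 / 2) = 1 / 2 - 1 := by
    unfold GM
    rw [mh]
    norm_num
  let A : ℝ ≃o ℝ := (Af_mono hF hab).orderIsoOfSurjective (Af F a b) (Af_surj hF hab)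
  let B : ℝ ≃o ℝ := (Bf_mono hmono).orderIsoOfSurjective (Bf m) (Bf_surj hM)
  have hA : ∀ x, A x = Af F a b x := fun _ => rfl
  have hB : ∀ x, B x = Bf m x := fun _ => rfl
  have hA0 : A 0 = 0 := by
    rw [hA]
    unfold Af
    rw [mul_zero, add_zero, ha, ha, sub_self, zero_div]
  have hFb : F (F b) = b := by
    have h := hF.sub_int b 1
    push_cast at h
    rw [hb, h, hb]
    ring
  have hA1 : A 1 = 1 := by
    rw [hA]
    unfold Af
    have h1 : a + (b - a) * 1 = b := by ring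
    rw [h1, hFb, div_self hl']
  have hB0 : B 0 = 0 := by
    rw [hB]
    unfold Bf
    simp [m0]
  have hB1 : B 1 = 1 := by
    rw [hB]
    unfold Bf
    rw [mh, add_zero, mh]
    norm_num
  have hsg : ∀ x ∈ Icc (0 : ℝ) 1, x < A x ↔ x < B x := by
    intro x hx
    rw [hB, lt_iff hmono, hs x hx, hA]
    unfold Af
    rw [lt_div_iff₀ hl]
    constructor
    · intro h
      linarith
    · intro h
      linarith
  have hsg' : ∀ x ∈ Icc (0 : ℝ) 1, A x < x ↔ B x < x := by
    intro x hx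
    rw [hB, gt_iff hmono, hs' x hx, hA]
    unfold Af
    rw [div_lt_iff₀ hl]
    constructor
    · intro h
      linarith
    · intro h
      linarith
  obtain ⟨η, hηc, hηm, hη0, hη1, hη⟩ := conj_of_sign A B hA0 hA1 hB0 hB1 hsg hsg'
  have hmem : ∀ x ∈ Icc a b, (x - a) / (b - a) ∈ Icc (0 : ℝ) 1 := by
    intro x hx
    refine ⟨div_nonneg (by linarith [hx.1]) hl.le, ?_⟩
    rw [div_le_one hl]
    linarith [hx.2]
  refine minus_conj hF hG hab ha hb (a' := 0) (b' := 1 / 2) (by norm_num) hG0 hG1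
    (η := fun x => η ((x - a) / (b - a)) / 2) ?_ ?_ ?_ ?_ ?_
  · have h1 : ContinuousOn (fun x : ℝ => (x - a) / (b - a)) (Icc a b) := by fun_prop
    exact (hηc.comp h1 hmem).div_const 2
  · intro x hx y hy hxy
    have h1 : (x - a) / (b - a) < (y - a) / (b - a) := div_lt_div_of_pos_right (by linarith) hl
    have h2 := hηm (hmem x hx) (hmem y hy) h1
    show η ((x - a) / (b - a)) / 2 < η ((y - a) / (b - a)) / 2
    linarith
  · show η ((a - a) / (b - a)) / 2 = 0
    rw [sub_self, zero_div, hη0, zero_div]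
  · show η ((b - a) / (b - a)) / 2 = 1 / 2
    rw [div_self hl', hη1]
  · intro x hx
    show η ((F (F x) - a) / (b - a)) / 2 = GM m (GM m (η ((x - a) / (b - a)) / 2))
    have h1 : (F (F x) - a) / (b - a) = A ((x - a) / (b - a)) := by
      rw [hA]
      unfold Af
      have h2 : a + (b - a) * ((x - a) / (b - a)) = x := by
        rw [mul_div_cancel₀ _ hl']
        ring
      rw [h2]
    rw [h1, hη _ (hmem x hx), hB, GM_GM hodd]
    unfold Bf
    ring

end Pool.Agent.CIR
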