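import Pool.Agent.Lib.CIR.Cay

/-!
# CIR.Mob: the parabolic Moebius transformations fixing `1`

PROOF. For `t : ℝ`, `z : Circle` let `num t z = (2 i + t) z - t`, `den t z = t z + 2 i - t` (complex numbers). `den t z ≠ 0`: for `t = 0` it is `2 i`; for `t ≠ 0` a zero would be `z = (t - 2 i) / t`, `|z|² = (t² + 4) / t² > 1`.
Define `m t z = 1` if `z = 1` and `m t z = cay (acay z + t)` otherwise. Then `(m t z : ℂ) = num t z / den t z` for all `z`: for `z = 1` both are `2 i`; for `z = cay w = (w + i) / (w - i)`, multiplying by `w - i`: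
`(2 i + t) (w + i) - t (w - i) = 2 i (w + t + i)` and `t (w + i) + (2 i - t) (w - i) = 2 i (w + t - i)`.
Also `m (-t) (m t z) = z` (`acay_cay`, `cay_acay`, `cay_ne_one`), so `m t` is a bijection with inverse `m (-t)`. It is smooth: `z ↦ (m t z : ℂ) = num t z / den t z` is `ContMDiff` as a map `Circle → ℂ` (`contMDiff_coe_sphere`, or the coercion lemma for
`Circle` in Mathlib.Geometry.Manifold.Instances.Sphere; multiplication by constants, sums, and division by a function without zeros: compose with a function `ℂ → ℂ` which is `ContDiffAt ℝ ∞`), and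
`ContMDiff.codRestrict_sphere` (see how Mathlib proves `contMDiff_circleExp` and the Lie group structure of `Circle`). So `mob t : Dif` is defined (`Diffeomorph` structure with `Equiv`).
MEASURABILITY of `(t, z) ↦ mob t z : Circle`: its coercion to `ℂ` is continuous in `(t, z)` (quotient of continuous functions, `den ≠ 0`), and the map into the circle is continuous iff the coercion is (`Continuous.subtype_mk` /
`Topology.IsInducing.subtypeVal`...); `ℝ × Circle` has the Borel σ-algebra (second countable).
-/

set_option autoImplicit false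

open Set
open scoped ContDiff Manifold

namespace Pool.Agent.CIR

namespace MobAux

attribute [local instance] finrank_real_complex_fact'

/-- The numerator. -/
noncomputable def num (t : ℝ) (z : ℂ) : ℂ := (2 * Complex.I + t) * z - t

/-- The denominator. -/
noncomputable def den (t : ℝ) (z : ℂ) : ℂ := t * z + 2 * Complex.I - t

theorem den_ne (t : ℝ) (z : Circle) : den t z ≠ 0 := by
  intro h
  unfold den at h
  have h1 : (t : ℂ) * z = (t : ℂ) - 2 * Complex.I := by linear_combination h
  have h2 := congrArg Complex.normSq h1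
  rw [map_mul, Circle.normSq_coe, mul_one, Complex.normSq_ofReal, Complex.normSq_apply] at h2
  simp at h2

open Classical in
/-- The transformation. -/
noncomputable def m (t : ℝ) (z : Circle) : Circle := if z = 1 then 1 else cay (acay z + t)

theorem m_one (t : ℝ) : m t 1 = 1 := if_pos rfl

theorem m_cay (t w : ℝ) : m t (cay w) = cay (w + t) := by
  unfold m
  rw [if_neg (cay_ne_one w), acay_cay]

theorem m_inv (t : ℝ) (z : Circle) : m (-t) (m t z) = z := by
  by_cases hz : z = 1
  · rw [hz, m_one, m_one]
  · rw [← cay_acay hz, m_cay, m_cay]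
    congr 1
    ring

theorem m_inv' (t : ℝ) (z : Circle) : m t (m (-t) z) = z := by
  have h := m_inv (-t) z
  rwa [neg_neg] at h

theorem coe_m (t : ℝ) (z : Circle) : (m t z : ℂ) = num t z / den t z := by
  by_cases hz : z = 1
  · rw [hz, m_one]
    unfold num den
    have hI : (Complex.I : ℂ) ≠ 0 := Complex.I_ne_zero
    simp only [Circle.coe_one]
    have h1 : (2 * Complex.I + (t : ℂ)) * 1 - t = 2 * Complex.I := by ring
    have h2 : (t : ℂ) * 1 + 2 * Complex.I - t = 2 * Complex.I := by ring
    rw [h1, h2, div_self (mul_ne_zero two_ne_zero hI)]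
  · obtain ⟨w, rfl⟩ : ∃ w, z = cay w := ⟨acay z, (cay_acay hz).symm⟩
    rw [m_cay, eq_div_iff (den_ne t (cay w)), cay_coe]
    unfold num den
    rw [cay_coe]
    have hs := sub_I_ne w
    have hs' := sub_I_ne (w + t)
    push_cast at hs' ⊢
    have e1 : (t : ℂ) * (((w : ℂ) + Complex.I) / (w - Complex.I)) + 2 * Complex.I - t =
        2 * Complex.I * ((w : ℂ) + t - Complex.I) / (w - Complex.I) := by
      field_simp
      ring
    have e2 : (2 * Complex.I + (t : ℂ)) * (((w : ℂ) + Complex.I) / (w - Complex.I)) - t =
        2 * Complex.I * ((w : ℂ) + t + Complex.I) / (w - Complex.I) := by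
      field_simp
      ring
    rw [e1, e2]
    field_simp

theorem smooth_m (t : ℝ) : ContMDiff 𝓘(ℝ, EuclideanSpace ℝ (Fin 1))
    𝓘(ℝ, EuclideanSpace ℝ (Fin 1)) ∞ (m t) := by
  have h1 : ContMDiff 𝓘(ℝ, EuclideanSpace ℝ (Fin 1)) 𝓘(ℝ, ℂ) ∞
      (fun z : Circle => num t z / den t z) := by
    intro z
    have hg : ContDiffAt ℝ ∞ (fun w : ℂ => num t w / den t w) (z : ℂ) := by
      simp only [div_eq_mul_inv]
      refine ContDiffAt.mul ?_ (ContDiffAt.inv ?_ (den_ne t z))
      · unfold num
        fun_prop
      · unfold den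
        fun_prop
    exact hg.contMDiffAt.comp z (contMDiff_coe_sphere z)
  have hs : ∀ z : Circle, num t z / den t z ∈ Metric.sphere (0 : ℂ) 1 := fun z => by
    rw [← coe_m]
    simp
  have h2 := ContMDiff.codRestrict_sphere (n := 1) (E := ℂ) h1 hs
  have h3 : m t = (Set.codRestrict (fun z : Circle => num t z / den t z) _ hs :
      Circle → Metric.sphere (0 : ℂ) 1) := by
    funext z
    exact Subtype.ext (coe_m t z)
  rw [h3]
  exact h2

theorem cont_m : Continuous fun p : ℝ × Circle => m p.1 p.2 := by
  have h : Continuous fun p : ℝ × Circle => (m p.1 p.2 : ℂ) := by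
    have h1 : (fun p : ℝ × Circle => (m p.1 p.2 : ℂ)) =
        fun p : ℝ × Circle => num p.1 p.2 / den p.1 p.2 := funext fun p => coe_m _ _
    rw [h1]
    refine Continuous.div ?_ ?_ fun p => den_ne _ _
    · unfold num
      fun_prop
    · unfold den
      fun_prop
  exact Continuous.subtype_mk h _

/-- The diffeomorphism. -/
noncomputable def mob (t : ℝ) : Dif where
  toFun := m t
  invFun := m (-t)
  left_inv := m_inv t
  right_inv := m_inv' t
  contMDiff_toFun := smooth_m t
  contMDiff_invFun := smooth_m (-t)

end MobAux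

open MobAux

theorem exists_mob : ∃ mob : ℝ → Dif, (∀ t, mob t 1 = 1) ∧ (∀ t w, mob t (cay w) = cay (w + t)) ∧
    (Measurable fun p : ℝ × Circle => mob p.1 p.2) ∧ ∀ t z, (mob t).symm z = mob (-t) z := by
  refine ⟨MobAux.mob, m_one, m_cay, ?_, fun t z => rfl⟩
  exact cont_m.measurable

end Pool.Agent.CIR
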