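import Pool.Agent.Lib.CIR.Final
import Pool.Agent.Lib.P9aeaaa.Final

/-!
# CIR.Out: the main theorem for Polish topologies on the space of diffeomorphisms
-/

set_option autoImplicit false

namespace Pool.Agent.CIR

open scoped ContDiff Manifold

theorem out (τ : TopologicalSpace Dif) (hτ : @PolishSpace Dif τ)
    (hev : ∀ z : Circle, @Continuous Dif Circle τ _ fun f => f z) :
    ∃ (G : Type) (_ : Group G) (_ : TopologicalSpace G) (_ : IsTopologicalGroup G)
      (_ : PolishSpace G) (_ : MulAction G Dif),
      (@Measurable (G × Dif) Dif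
        (@Prod.instMeasurableSpace G Dif (borel G) (@borel Dif τ)) (@borel Dif τ)
        fun p => p.1 • p.2) ∧
      ∀ f g : Dif, Cj f g ↔ ∃ a : G, a • f = g := by
  have h1 : @borel Dif τ = difMeas := Pool.Agent.Lib.P9aeaaa.borel_eq_evalSigma τ hτ hev
  have h2 : StandardBorelSpace Dif := by
    have : @StandardBorelSpace Dif (@borel Dif τ) :=
      @standardBorel_of_polish Dif (@borel Dif τ) τ (@BorelSpace.mk Dif τ (@borel Dif τ) rfl) hτ
    rwa [h1] at this
  have h3 := isTopologicalGroup
  have h4 := polishSpace
  obtain ⟨act, hm, ho⟩ := main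
  refine ⟨Gp, inferInstance, inferInstance, inferInstance, inferInstance, act, ?_, ho⟩
  rw [h1]
  have h5 : borel Gp = Prod.instMeasurableSpace := (Prod.borelSpace.measurable_eq).symm
  rw [h5]
  exact hm

end Pool.Agent.CIR
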