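import Pool.Agent.Lib.CIR.Bas
import Pool.Agent.Lib.CIR.Ext

/-!
# CIR.PlusC: conjugacy of degree one lifts from a fundamental interval

Work in the group `ℝ ≃o ℝ`: `f = hF.oi` (`Pos.oi`), `T` = translation by `1` (`OrderIso.addRight 1`), `f * T = T * f`; `S = f ^ r * T ^ (-t)`, `Q = f ^ q * T ^ (-p)`: `S x = F^[r] x - t`, `Q x = F^[q] x - p`; all these commute.
`S ^ q = Q ^ r * T` because `r p - t q = 1` (exponents of `f`: `r q` on both sides; exponents of `T`: `- t q = - p r + 1`).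

PROOF of `lt_step`: `Q a = a`, so `(S ^ q) a = (Q ^ r) (a + 1) = a + 1`. For `x ∈ [a, a + 1)`: `(S ^ q) x ≥ (S ^ q) a = a + 1 > x`; by commutation with `T` this holds for all `x` (write `x = x₀ + m`, `x₀ ∈ [a, a + 1)`). If `S x ≤ x` then
`(S ^ n) x ≤ x` for all `n : ℕ` (monotone), contradiction for `n = q`.

PROOF of `plus_conj`: let `S', Q'` be the corresponding maps for `G`, `b = S a`, `b' = S' a'`. `ext_conj` with `A = S`, `B = S'`, `I = J = univ` gives `ψ : ℝ → ℝ` strictly monotone and bijective (so an element `Ψ` of `ℝ ≃o ℝ`, continuous), with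
`Ψ * S = S' * Ψ` and `ψ = η` on `[a, b]`. CLAIM `Ψ * Q = Q' * Ψ`: for `x ∈ [a, b]`, `Q x ∈ [a, b]` (`Q a = a`, `Q b = Q (S a) = S (Q a) = b`), so it is `hc`. Every `x` is `(S ^ n) x₀` with `x₀ ∈ [a, b)`, `n : ℤ` (`exists_step`), and
`Ψ Q S^n x₀ = Ψ S^n Q x₀ = S'^n Ψ Q x₀ = S'^n Q' Ψ x₀ = Q' S'^n Ψ x₀ = Q' Ψ S^n x₀`. Finally `f = S ^ p * Q ^ (-t)` (exponents: `f`: `r p - q t = 1`; `T`: `- t p + p t = 0`) and `T = S ^ q * Q ^ (-r)` (exponents: `f`: `r q - q r = 0`;
`T`: `- t q + p r = 1`), the same for `G`; so `Ψ * f = g * Ψ` and `Ψ * T = T * Ψ`, i.e. `Ψ (x + 1) = Ψ x + 1`.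
-/

set_option autoImplicit false

open Set

namespace Pool.Agent.CIR

namespace PlusCAux

theorem iter_shift {F : ℝ → ℝ} (hF : Pos F) (r : ℕ) (t : ℤ) (n : ℕ) (x : ℝ) :
    (fun y => F^[r] y - t)^[n] x = F^[r * n] x - n * t := by
  induction n with
  | zero => simp
  | succ n ih =>
    rw [Function.iterate_succ_apply', ih]
    have h1 := (hF.iter r).sub_int (F^[r * n] x) (n * t)
    push_cast at h1
    show F^[r] (F^[r * n] x - n * t) - t = _
    rw [h1, ← Function.iterate_add_apply, show r + r * n = r * (n + 1) by ring]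
    push_cast
    ring

/-- translation by one -/
noncomputable def T : ℝ ≃o ℝ := OrderIso.addRight 1

theorem T_apply (x : ℝ) : T x = x + 1 := rfl

theorem T_symm_apply (x : ℝ) : T⁻¹ x = x - 1 := by
  show T.symm x = x - 1
  rw [OrderIso.symm_apply_eq, T_apply]
  ring

theorem T_zpow (m : ℤ) (x : ℝ) : (T ^ m) x = x + m := by
  induction m generalizing x with
  | zero => simp
  | succ n ih =>
    rw [zpow_add_one, RelIso.mul_apply, T_apply, ih]
    push_cast
    ring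
  | pred n ih =>
    rw [zpow_sub_one, RelIso.mul_apply, T_symm_apply, ih]
    push_cast
    ring

theorem pow_apply {F : ℝ → ℝ} (hF : Pos F) (n : ℕ) (x : ℝ) : (hF.oi ^ n) x = F^[n] x := by
  induction n generalizing x with
  | zero => simp
  | succ n ih =>
    rw [pow_succ, RelIso.mul_apply, ih, Function.iterate_succ_apply]
    rfl

theorem comm {F : ℝ → ℝ} (hF : Pos F) : Commute hF.oi T := by
  ext x
  rw [RelIso.mul_apply, RelIso.mul_apply, T_apply, T_apply]
  exact hF.add_one x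

/-- words in `f` and `T` -/
noncomputable def W {F : ℝ → ℝ} (hF : Pos F) (m n : ℤ) : ℝ ≃o ℝ := hF.oi ^ m * T ^ n

theorem W_mul {F : ℝ → ℝ} (hF : Pos F) (m n m' n' : ℤ) : W hF m n * W hF m' n' = W hF (m + m') (n + n') := by
  unfold W
  have h := ((comm hF).zpow_zpow m' n).eq
  rw [zpow_add, zpow_add, mul_assoc, ← mul_assoc (T ^ n), ← h]
  group

theorem W_zpow {F : ℝ → ℝ} (hF : Pos F) (m n k : ℤ) : (W hF m n) ^ k = W hF (m * k) (n * k) := by
  unfold W
  rw [((comm hF).zpow_zpow m n).mul_zpow, ← zpow_mul, ← zpow_mul]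

theorem W_one_zero {F : ℝ → ℝ} (hF : Pos F) : W hF 1 0 = hF.oi := by
  simp [W]

theorem W_zero_one {F : ℝ → ℝ} (hF : Pos F) : W hF 0 1 = T := by
  simp [W]

theorem W_apply {F : ℝ → ℝ} (hF : Pos F) (r : ℕ) (t : ℤ) (x : ℝ) : W hF r (-t) x = F^[r] x - t := by
  unfold W
  rw [RelIso.mul_apply, T_zpow, zpow_natCast, pow_apply]
  have h1 := (hF.iter r).sub_int x t
  rw [← h1]
  push_cast
  rfl

theorem W_f {F : ℝ → ℝ} (hF : Pos F) {q r : ℕ} {p t : ℤ} (hrt : (r : ℤ) * p - t * q = 1) :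
    hF.oi = (W hF r (-t)) ^ p * (W hF q (-p)) ^ (-t) := by
  rw [W_zpow, W_zpow, W_mul, ← W_one_zero]
  congr 1
  · linarith
  · ring

theorem W_T {F : ℝ → ℝ} (hF : Pos F) {q r : ℕ} {p t : ℤ} (hrt : (r : ℤ) * p - t * q = 1) :
    T = (W hF r (-t)) ^ (q : ℤ) * (W hF q (-p)) ^ (-(r : ℤ)) := by
  rw [W_zpow, W_zpow, W_mul, ← W_zero_one hF]
  congr 1
  · ring
  · linarith

theorem W_comm {F : ℝ → ℝ} (hF : Pos F) (m n m' n' : ℤ) : Commute (W hF m n) (W hF m' n') := by
  show _ * _ = _ * _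
  rw [W_mul, W_mul, add_comm m, add_comm n]

end PlusCAux

open PlusCAux

theorem lt_step {F : ℝ → ℝ} (hF : Pos F) {q r : ℕ} {p t : ℤ} (hq : 0 < q) (hrt : (r : ℤ) * p - t * q = 1) {a : ℝ}
    (ha : F^[q] a = a + p) (x : ℝ) : x < F^[r] x - t := by
  have hS : Pos (fun y => F^[r] y - t) := by
    have := (hF.iter r).add_const (-(t : ℝ))
    simpa [sub_eq_add_neg] using this
  have hQa : ∀ n : ℕ, F^[q * n] a = a + n * p := by
    intro n
    have h1 := iter_shift hF q p n a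
    have h2 : (fun y => F^[q] y - p)^[n] a = a := by
      apply Function.iterate_fixed
      show F^[q] a - p = a
      rw [ha]
      ring
    rw [h2] at h1
    linarith
  have hSa : (fun y => F^[r] y - t)^[q] a = a + 1 := by
    rw [iter_shift hF r t q a, mul_comm r q, hQa r]
    have : ((r : ℝ) * p - t * q) = 1 := by exact_mod_cast hrt
    linarith
  have hSq := hS.iter q
  -- x = x0 + m
  have hlt : x < (fun y => F^[r] y - t)^[q] x := by
    have h1 := hSq.add_int (x - ⌊x - a⌋) ⌊x - a⌋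
    rw [sub_add_cancel] at h1
    have h2 : a ≤ x - ⌊x - a⌋ := by
      have := Int.floor_le (x - a)
      linarith
    have h3 := hSq.strictMono.monotone h2
    have h4 := Int.lt_floor_add_one (x - a)
    rw [h1]
    rw [hSa] at h3
    linarith
  by_contra hcon
  push Not at hcon
  have key : ∀ n : ℕ, (fun y => F^[r] y - t)^[n] x ≤ x := by
    intro n
    induction n with
    | zero => exact le_rfl
    | succ n ih =>
      rw [Function.iterate_succ_apply']
      exact (hS.strictMono.monotone ih).trans hcon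
  exact absurd (key q) (not_le.2 hlt)

theorem plus_conj {F G : ℝ → ℝ} (hF : Pos F) (hG : Pos G) {q r : ℕ} {p t : ℤ} (hq : 0 < q)
    (hrt : (r : ℤ) * p - t * q = 1) {a a' : ℝ} (ha : F^[q] a = a + p) (ha' : G^[q] a' = a' + p) {η : ℝ → ℝ}
    (hη : ContinuousOn η (Icc a (F^[r] a - t))) (hη' : StrictMonoOn η (Icc a (F^[r] a - t))) (h0 : η a = a')
    (h1 : η (F^[r] a - t) = G^[r] a' - t)
    (hc : ∀ x ∈ Icc a (F^[r] a - t), η (F^[q] x - p) = G^[q] (η x) - p) :
    ∃ Ψ, Pos Ψ ∧ ∀ x, Ψ (F x) = G (Ψ x) := by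
  set S := W hF r (-t) with hSdef
  set S' := W hG r (-t) with hS'def
  set Q := W hF q (-p) with hQdef
  set Q' := W hG q (-p) with hQ'def
  have hSa : ∀ x, S x = F^[r] x - t := W_apply hF r t
  have hS'a : ∀ x, S' x = G^[r] x - t := W_apply hG r t
  have hQa : ∀ x, Q x = F^[q] x - p := W_apply hF q p
  have hQ'a : ∀ x, Q' x = G^[q] x - p := W_apply hG q p
  have hSlt : ∀ x ∈ (univ : Set ℝ), x < S x := fun x _ => by
    rw [hSa]
    exact lt_step hF hq hrt ha x
  have hS'lt : ∀ x ∈ (univ : Set ℝ), x < S' x := fun x _ => by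
    rw [hS'a]
    exact lt_step hG hq hrt ha' x
  rw [← hSa a] at hη hη' h1 hc
  rw [← hS'a a'] at h1
  obtain ⟨ψ, hψm, hψb, hψη, hψS⟩ := ext_conj S S' ordConnected_univ ordConnected_univ hSlt hS'lt
    (fun _ => by simp) (fun _ => by simp) (mem_univ a) (mem_univ a') hη hη' h0 h1
  have hmono : StrictMono ψ := fun x y h => hψm (mem_univ x) (mem_univ y) h
  have hsurj : Function.Surjective ψ := fun y => by
    obtain ⟨x, _, hx⟩ := hψb.surjOn (mem_univ y)
    exact ⟨x, hx⟩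
  set Ψ : ℝ ≃o ℝ := hmono.orderIsoOfSurjective ψ hsurj with hΨdef
  have hΨ : ∀ x, Ψ x = ψ x := fun _ => rfl
  have hΨS : Ψ * S = S' * Ψ := by
    ext x
    rw [RelIso.mul_apply, RelIso.mul_apply, hΨ, hΨ]
    exact hψS x (mem_univ x)
  have hΨSn : ∀ n : ℤ, Ψ * S ^ n = S' ^ n * Ψ := by
    intro n
    have : SemiconjBy Ψ S S' := hΨS
    exact this.zpow_right n
  have hQfix : Q a = a := by
    rw [hQa, ha]
    ring
  have hSQ : Commute S Q := W_comm hF _ _ _ _
  have hSQ' : Commute S' Q' := W_comm hG _ _ _ _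
  have hQb : Q (S a) = S a := by
    have := congrArg (fun A : ℝ ≃o ℝ => A a) hSQ.eq
    simp only [RelIso.mul_apply] at this
    rw [← this, hQfix]
  have hΨQ : Ψ * Q = Q' * Ψ := by
    ext x
    obtain ⟨n, hn1, hn2⟩ := exists_step S ordConnected_univ hSlt (fun _ => by simp) (mem_univ a) (mem_univ x)
    obtain ⟨x0, hx0⟩ : ∃ x0, (S ^ n) x0 = x := (S ^ n).surjective x
    have ha0 : a ≤ x0 := by
      rw [← hx0] at hn1
      exact (S ^ n).le_iff_le.1 hn1
    have hb0 : x0 < S a := by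
      rw [← hx0, zpow_add_one, RelIso.mul_apply] at hn2
      exact (S ^ n).lt_iff_lt.1 hn2
    have hmem : x0 ∈ Icc a (S a) := ⟨ha0, hb0.le⟩
    have hQmem : Q x0 ∈ Icc a (S a) := by
      constructor
      · rw [← hQfix]
        exact Q.le_iff_le.2 ha0
      · rw [← hQb]
        exact Q.le_iff_le.2 hb0.le
    have hloc : Ψ (Q x0) = Q' (Ψ x0) := by
      rw [hΨ, hΨ, hψη _ hQmem, hψη _ hmem, hQa, hQ'a]
      exact hc x0 hmem
    have e1 : ∀ y, Q ((S ^ n) y) = (S ^ n) (Q y) := fun y => by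
      have := congrArg (fun A : ℝ ≃o ℝ => A y) (hSQ.zpow_left n).eq
      simpa only [RelIso.mul_apply] using this.symm
    have e2 : ∀ y, Q' ((S' ^ n) y) = (S' ^ n) (Q' y) := fun y => by
      have := congrArg (fun A : ℝ ≃o ℝ => A y) (hSQ'.zpow_left n).eq
      simpa only [RelIso.mul_apply] using this.symm
    have e3 : ∀ y, Ψ ((S ^ n) y) = (S' ^ n) (Ψ y) := fun y => by
      have := congrArg (fun A : ℝ ≃o ℝ => A y) (hΨSn n)
      simpa only [RelIso.mul_apply] using this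
    rw [RelIso.mul_apply, RelIso.mul_apply, ← hx0, e1, e3, e3, e2, hloc]
  have hΨf : Ψ * hF.oi = hG.oi * Ψ := by
    have h2 : SemiconjBy Ψ S S' := hΨS
    have h3 : SemiconjBy Ψ Q Q' := hΨQ
    have h4 := (h2.zpow_right p).mul_right (h3.zpow_right (-t))
    rw [← W_f hF hrt, ← W_f hG hrt] at h4
    exact h4
  have hΨT : Ψ * T = T * Ψ := by
    have h2 : SemiconjBy Ψ S S' := hΨS
    have h3 : SemiconjBy Ψ Q Q' := hΨQ
    have h4 := (h2.zpow_right (q : ℤ)).mul_right (h3.zpow_right (-(r : ℤ)))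
    rw [← W_T hF hrt, ← W_T hG hrt] at h4
    exact h4
  refine ⟨Ψ, ⟨Ψ.continuous, Ψ.strictMono, fun x => ?_⟩, fun x => ?_⟩
  · have := congrArg (fun A : ℝ ≃o ℝ => A x) hΨT
    simpa only [RelIso.mul_apply, T_apply] using this
  · have := congrArg (fun A : ℝ ≃o ℝ => A x) hΨf
    simpa only [RelIso.mul_apply, Pos.oi_coe] using this

end Pool.Agent.CIR
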