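import Pool.Agent.Lib.CIR.PlusC
import Pool.Agent.Lib.CIR.Intv

/-!
# CIR.PlusN: the normal form of an orientation preserving homeomorphism with a periodic point

Notation: `b = F^[r] a - t`, `l = b - a > 0` (`lt_step`), `G x = x + e (q x) / q + p / q`, `R x = x + e (q x) / q`.
(1) `R` is continuous, strictly increasing (`hm` at `q x`, divided by `q`), `R 0 = 0`, `R (x + 1 / q) = R x + 1 / q`, so `R (x + k / q) = R x + k / q` for integers `k`; `R` is `Pos` (`k = q`). So is `G`, and by induction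
`G^[n] x = R^[n] x + n p / q` (`R` commutes with the translation by `p / q`). So `G^[q] 0 = 0 + p` and `G^[r] 0 - t = r p / q - t = 1 / q`.
(2) `A x = (F^[q] (a + l x) - p - a) / l` is an order isomorphism of `ℝ` (increasing bijection; `Pos.iter`, `Pos.oi` and affine maps), `A 0 = 0`, and `A 1 = 1` because
`F^[q] b = F^[q] (F^[r] a - t) = F^[r] (F^[q] a) - t = F^[r] (a + p) - t = b + p`. `B x = q R^[q] (x / q)` is an order isomorphism, `B 0 = 0`, `B 1 = 1`.
(3) For `x ∈ Icc 0 1`: `x < A x ↔ 0 < F^[q] (a + l x) - p - (a + l x) ↔ 0 < e x`; `x < B x ↔ x / q < R^[q] (x / q) ↔ x / q < R (x / q) ↔ 0 < e x` (`CircleDeg1Lift.iterate_pos_lt_iff` and `lt_iterate_pos_iff` with `m = 0` for `Pos.cdl`, or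
`Monotone` iterate lemmas). The same for `<` reversed. So `conj_of_sign` gives `η₀`, and `η x = η₀ ((x - a) / l) / q` is continuous and strictly increasing on `Icc a b`, `η a = 0`, `η b = 1 / q = G^[r] 0 - t`,
`η (F^[q] x - p) = η₀ (A y) / q = B (η₀ y) / q = R^[q] (η₀ y / q) = G^[q] (η x) - p` with `y = (x - a) / l`. Apply `plus_conj` with `a' = 0`.
-/

set_option autoImplicit false

open Set

namespace Pool.Agent.CIR

/-- The model map. -/
noncomputable def GP (q : ℕ) (p : ℤ) (e : ℝ → ℝ) (x : ℝ) : ℝ := x + e (q * x) / q + p / q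

theorem pos_GP {q : ℕ} (hq : 0 < q) (p : ℤ) {e : ℝ → ℝ} (he : Continuous e) (he1 : ∀ x, e (x + 1) = e x)
    (hm : StrictMono fun x => x + e x) : Pos (GP q p e) := by
  have hq0 : (0 : ℝ) < q := by exact_mod_cast hq
  refine ⟨?_, ?_, ?_⟩
  · unfold GP
    fun_prop
  · intro x y hxy
    have h1 : (q : ℝ) * x < q * y := by nlinarith
    have h2 : (q : ℝ) * x + e (q * x) < q * y + e (q * y) := hm h1
    have h3 : ((q : ℝ) * x + e (q * x)) / q < (q * y + e (q * y)) / q := by gcongr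
    have e1 : ∀ z : ℝ, ((q : ℝ) * z + e (q * z)) / q = z + e (q * z) / q := by
      intro z
      field_simp
    rw [e1, e1] at h3
    show x + e (q * x) / q + p / q < y + e (q * y) / q + p / q
    linarith
  · intro x
    have hp : Function.Periodic e 1 := he1
    have h1 : e ((q : ℝ) * (x + 1)) = e (q * x) := by
      have h2 := hp.nat_mul q ((q : ℝ) * x)
      rw [mul_one] at h2
      rw [mul_add, mul_one]
      exact h2
    show x + 1 + e (q * (x + 1)) / q + p / q = x + e (q * x) / q + p / q + 1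
    rw [h1]
    ring

namespace PlusNAux

theorem GP_eq (q : ℕ) (p : ℤ) (e : ℝ → ℝ) (x : ℝ) : GP q p e x = GP q 0 e x + p / q := by
  unfold GP
  simp

theorem R_add {q : ℕ} (hq : 0 < q) {e : ℝ → ℝ} (he1 : ∀ x, e (x + 1) = e x) (x : ℝ) (k : ℤ) :
    GP q 0 e (x + k / q) = GP q 0 e x + k / q := by
  have hq0 : (0 : ℝ) < q := by exact_mod_cast hq
  have hp : Function.Periodic e 1 := he1
  have h1 : e ((q : ℝ) * (x + k / q)) = e (q * x) := by
    have h2 := hp.int_mul k ((q : ℝ) * x)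
    rw [mul_one] at h2
    have h3 : (q : ℝ) * (x + k / q) = q * x + k := by field_simp
    rw [h3]
    exact h2
  unfold GP
  rw [h1]
  ring

theorem R_iter_add {q : ℕ} (hq : 0 < q) {e : ℝ → ℝ} (he1 : ∀ x, e (x + 1) = e x) (x : ℝ) (k : ℤ) (n : ℕ) :
    (GP q 0 e)^[n] (x + k / q) = (GP q 0 e)^[n] x + k / q := by
  induction n with
  | zero => rfl
  | succ n ih => rw [Function.iterate_succ_apply', Function.iterate_succ_apply', ih, R_add hq he1]

theorem G_iter {q : ℕ} (hq : 0 < q) (p : ℤ) {e : ℝ → ℝ} (he1 : ∀ x, e (x + 1) = e x) (x : ℝ) (n : ℕ) :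
    (GP q p e)^[n] x = (GP q 0 e)^[n] x + n * p / q := by
  induction n with
  | zero => simp
  | succ n ih =>
    rw [Function.iterate_succ_apply', Function.iterate_succ_apply', ih, GP_eq q p]
    have h1 := R_add hq he1 ((GP q 0 e)^[n] x) (n * p)
    push_cast at h1
    rw [h1]
    push_cast
    ring

theorem R_iter_zero {q : ℕ} {e : ℝ → ℝ} (he0 : e 0 = 0) (n : ℕ) : (GP q 0 e)^[n] 0 = 0 := by
  have h : GP q 0 e 0 = 0 := by
    unfold GP
    simp [he0]
  induction n with
  | zero => rfl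
  | succ n ih => rw [Function.iterate_succ_apply', ih, h]

/-- The return map of the first map in the coordinate of the interval. -/
noncomputable def Af (F : ℝ → ℝ) (q : ℕ) (p : ℤ) (a l : ℝ) (x : ℝ) : ℝ := (F^[q] (a + l * x) - p - a) / l

theorem Af_mono {F : ℝ → ℝ} (hF : Pos F) (q : ℕ) (p : ℤ) {a l : ℝ} (hl : 0 < l) : StrictMono (Af F q p a l) := by
  intro x y hxy
  have h1 : a + l * x < a + l * y := by nlinarith
  have h2 := (hF.iter q).strictMono h1
  unfold Af
  exact div_lt_div_of_pos_right (by linarith) hl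

theorem Af_surj {F : ℝ → ℝ} (hF : Pos F) (q : ℕ) (p : ℤ) {a l : ℝ} (hl : 0 < l) :
    Function.Surjective (Af F q p a l) := by
  intro y
  obtain ⟨z, hz⟩ := (hF.iter q).surj (l * y + a + p)
  refine ⟨(z - a) / l, ?_⟩
  unfold Af
  have h1 : a + l * ((z - a) / l) = z := by field_simp; ring
  rw [h1, hz]
  field_simp
  ring

/-- The return map of the model in the coordinate of the interval. -/
noncomputable def Bf (q : ℕ) (e : ℝ → ℝ) (x : ℝ) : ℝ := q * (GP q 0 e)^[q] (x / q)

theorem Bf_mono {q : ℕ} (hq : 0 < q) {e : ℝ → ℝ} (hR : Pos (GP q 0 e)) : StrictMono (Bf q e) := by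
  intro x y hxy
  have hq0 : (0 : ℝ) < q := by exact_mod_cast hq
  have h1 : x / q < y / q := div_lt_div_of_pos_right hxy hq0
  have h2 := (hR.iter q).strictMono h1
  unfold Bf
  exact mul_lt_mul_of_pos_left h2 hq0

theorem Bf_surj {q : ℕ} (hq : 0 < q) {e : ℝ → ℝ} (hR : Pos (GP q 0 e)) : Function.Surjective (Bf q e) := by
  intro y
  have hq0 : (0 : ℝ) < q := by exact_mod_cast hq
  obtain ⟨z, hz⟩ := (hR.iter q).surj (y / q)
  refine ⟨q * z, ?_⟩
  unfold Bf
  have h1 : (q : ℝ) * z / q = z := by field_simp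
  rw [h1, hz]
  field_simp

theorem lt_Bf {q : ℕ} (hq : 0 < q) {e : ℝ → ℝ} (hR : Pos (GP q 0 e)) (x : ℝ) : x < Bf q e x ↔ 0 < e x := by
  have hq0 : (0 : ℝ) < q := by exact_mod_cast hq
  have h1 := hR.cdl.lt_iterate_pos_iff (x := x / q) (m := 0) hq
  rw [Pos.cdl_coe] at h1
  simp only [Int.cast_zero, mul_zero, add_zero] at h1
  have h2 : x < Bf q e x ↔ x / q < (GP q 0 e)^[q] (x / q) := by
    unfold Bf
    rw [div_lt_iff₀ hq0, mul_comm]
  rw [h2, h1]
  unfold GP
  have h3 : (q : ℝ) * (x / q) = x := by field_simp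
  rw [h3]
  simp only [Int.cast_zero, zero_div, add_zero]
  constructor
  · intro h
    have h4 : 0 < e x / q := by linarith
    exact (div_pos_iff_of_pos_right hq0).1 h4
  · intro h
    have h4 : 0 < e x / q := div_pos h hq0
    linarith

theorem Bf_lt {q : ℕ} (hq : 0 < q) {e : ℝ → ℝ} (hR : Pos (GP q 0 e)) (x : ℝ) : Bf q e x < x ↔ e x < 0 := by
  have hq0 : (0 : ℝ) < q := by exact_mod_cast hq
  have h1 := hR.cdl.iterate_pos_lt_iff (x := x / q) (m := 0) hq
  rw [Pos.cdl_coe] at h1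
  simp only [Int.cast_zero, mul_zero, add_zero] at h1
  have h2 : Bf q e x < x ↔ (GP q 0 e)^[q] (x / q) < x / q := by
    unfold Bf
    rw [lt_div_iff₀ hq0, mul_comm]
  rw [h2, h1]
  unfold GP
  have h3 : (q : ℝ) * (x / q) = x := by field_simp
  rw [h3]
  simp only [Int.cast_zero, zero_div, add_zero]
  constructor
  · intro h
    have h4 : e x / q < 0 := by linarith
    by_contra h5
    push Not at h5
    have : 0 ≤ e x / q := div_nonneg h5 hq0.le
    linarith
  · intro h
    have h4 : e x / q < 0 := div_neg_of_neg_of_pos h hq0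
    linarith

end PlusNAux

open PlusNAux

theorem plus_nf {F : ℝ → ℝ} (hF : Pos F) {q r : ℕ} {p t : ℤ} (hq : 0 < q) (hrt : (r : ℤ) * p - t * q = 1) {a : ℝ}
    (ha : F^[q] a = a + p) {e : ℝ → ℝ} (he : Continuous e) (he1 : ∀ x, e (x + 1) = e x) (he0 : e 0 = 0)
    (hm : StrictMono fun x => x + e x)
    (hs : ∀ x ∈ Icc (0 : ℝ) 1, 0 < e x ↔
      0 < F^[q] (a + (F^[r] a - t - a) * x) - p - (a + (F^[r] a - t - a) * x))
    (hs' : ∀ x ∈ Icc (0 : ℝ) 1, e x < 0 ↔
      F^[q] (a + (F^[r] a - t - a) * x) - p - (a + (F^[r] a - t - a) * x) < 0) :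
    ∃ Ψ, Pos Ψ ∧ ∀ x, Ψ (F x) = GP q p e (Ψ x) := by
  have hq0 : (0 : ℝ) < q := by exact_mod_cast hq
  have hR : Pos (GP q 0 e) := pos_GP hq 0 he he1 hm
  have hG : Pos (GP q p e) := pos_GP hq p he he1 hm
  have hlt := lt_step hF hq hrt ha a
  obtain ⟨l, hl⟩ : ∃ l, l = F^[r] a - t - a := ⟨_, rfl⟩
  rw [← hl] at hs hs'
  have hl0 : 0 < l := by rw [hl]; linarith
  have hb : F^[r] a - t = a + l := by rw [hl]; ring
  have hbq : F^[q] (a + l) = a + l + p := by
    rw [← hb, (hF.iter q).sub_int, ← Function.iterate_add_apply, add_comm q r, Function.iterate_add_apply, ha,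
      (hF.iter r).add_int]
    ring
  have hrtR : (r : ℝ) * p - t * q = 1 := by exact_mod_cast hrt
  let A : ℝ ≃o ℝ := (Af_mono hF q p hl0 (a := a)).orderIsoOfSurjective _ (Af_surj hF q p hl0)
  let B : ℝ ≃o ℝ := (Bf_mono hq hR).orderIsoOfSurjective _ (Bf_surj hq hR)
  have hA : ∀ x, A x = (F^[q] (a + l * x) - p - a) / l := fun x => rfl
  have hB : ∀ x, B x = q * (GP q 0 e)^[q] (x / q) := fun x => rfl
  have hA0 : A 0 = 0 := by
    rw [hA, mul_zero, add_zero, ha]
    simp
  have hA1 : A 1 = 1 := by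
    rw [hA, mul_one, hbq]
    field_simp
    ring
  have hB0 : B 0 = 0 := by
    rw [hB, zero_div, R_iter_zero he0, mul_zero]
  have hB1 : B 1 = 1 := by
    rw [hB]
    have h1 := R_iter_add hq he1 0 1 q
    rw [R_iter_zero he0] at h1
    simp only [Int.cast_one, zero_add] at h1
    rw [h1]
    field_simp
  have hAlt : ∀ x ∈ Icc (0 : ℝ) 1, x < A x ↔ 0 < e x := by
    intro x hx
    rw [hs x hx, hA, lt_div_iff₀ hl0]
    constructor
    · intro h; linarith
    · intro h; linarith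
  have hAgt : ∀ x ∈ Icc (0 : ℝ) 1, A x < x ↔ e x < 0 := by
    intro x hx
    rw [hs' x hx, hA, div_lt_iff₀ hl0]
    constructor
    · intro h; linarith
    · intro h; linarith
  obtain ⟨η₀, hc0, hm0, h00, h01, hcj⟩ := conj_of_sign A B hA0 hA1 hB0 hB1
    (fun x hx => (hAlt x hx).trans (lt_Bf hq hR x).symm) (fun x hx => (hAgt x hx).trans (Bf_lt hq hR x).symm)
  have hmap : ∀ x ∈ Icc a (a + l), (x - a) / l ∈ Icc (0 : ℝ) 1 := by
    intro x hx
    refine ⟨div_nonneg (by linarith [hx.1]) hl0.le, ?_⟩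
    rw [div_le_one hl0]
    linarith [hx.2]
  refine plus_conj (G := GP q p e) hF hG hq hrt ha (a' := 0) ?_ (η := fun x => η₀ ((x - a) / l) / q) ?_ ?_ ?_ ?_ ?_
  · rw [G_iter hq p he1, R_iter_zero he0]
    field_simp
  · rw [hb]
    refine ContinuousOn.div_const (hc0.comp ?_ hmap) _
    fun_prop
  · rw [hb]
    intro x hx y hy hxy
    have h1 : (x - a) / l < (y - a) / l := div_lt_div_of_pos_right (by linarith) hl0
    exact div_lt_div_of_pos_right (hm0 (hmap x hx) (hmap y hy) h1) hq0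
  · show η₀ ((a - a) / l) / q = 0
    rw [sub_self, zero_div, h00, zero_div]
  · show η₀ ((F^[r] a - t - a) / l) / q = _
    rw [← hl, div_self hl0.ne', h01, G_iter hq p he1, R_iter_zero he0]
    field_simp
    linarith
  · rw [hb]
    intro x hx
    show η₀ ((F^[q] x - p - a) / l) / q = (GP q p e)^[q] (η₀ ((x - a) / l) / q) - p
    have h1 := hcj _ (hmap x hx)
    rw [hA, hB] at h1
    have h2 : a + l * ((x - a) / l) = x := by field_simp; ring
    rw [h2] at h1
    rw [h1, G_iter hq p he1]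
    field_simp
    ring

end Pool.Agent.CIR
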