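import Pool.Agent.Lib.CIR.PlusN
import Pool.Agent.Lib.CIR.Sgn
import Pool.Agent.Lib.CIR.Prd
import Pool.Agent.Lib.CIR.Zer
import Pool.Agent.Lib.CIR.Asm
import Pool.Agent.Lib.CIR.LiftM
import Pool.Agent.Lib.CIR.Desc

/-!
# CIR.PlusR: measurable normal forms, orientation preserving case

PROOF of `measurableSet_plus`: `∃ x, F^[q] x = x + p` is equivalent to `∃ x ∈ Icc 0 1, F^[q] x - x - p = 0` for `F = lf h` `Pos` (`Pos.iter`, `Pos.sub_int`: subtract `⌊x⌋`); `measurable_zero` with `φ h x = (lf h)^[q] x - x - p`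
(continuous in `x` for every `h`: `lf_cont`, `Continuous.iterate`; measurable in `h`: `measurable_lf_iter`), and `measurableSet_pos`.

PROOF of `plus`. (1) Choose `r : ℕ`, `t : ℤ` with `r p - t q = 1`: from `u p + v q = 1` take `r = u + k q ≥ 0` with a large `k` (e.g. `k = |u|`), `t = k p - v`.
(2) Let `W` be the set of `measurableSet_plus`, and `a : H → ℝ` the measurable function of `measurable_zero` for the same `φ`: for `h ∈ W`, `F^[q] (a h) = a h + p`, `F = lf h`. Let `l h = F^[r] (a h) - t - a h` (measurable: `measurable_lf_iter`),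
`d h x = F^[q] (a h + l h * x) - p - (a h + l h * x)`: continuous in `x`, measurable in `h` for fixed `x`.
(3) Take `ef` from `exists_ef`, `e₀ h = ef (d h)`, `e h x = e₀ h (Int.fract x)`. By `periodize` (`C = 1 / 4`) `e h` is smooth with `|deriv (e h) x| ≤ 1 / 4`, `e h (x + 1) = e h x`, `e h 0 = 0`, `x ↦ x + e h x` is strictly increasing (`strictMono_add`).
SIGNS, for `h ∈ W`, `x ∈ Icc 0 1`: for `x ∈ Ioo 0 1`: `Int.fract x = x`, use `exists_ef`. For `x = 0` and `x = 1`: `e h x = 0`, and `d h x = 0` (`d h 0 = F^[q] a - p - a = 0`, `d h 1 = F^[q] b - p - b = 0` with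
`b = a + l = F^[r] a - t`, `F^[q] b = F^[r] (F^[q] a) - t = F^[r] (a + p) - t = b + p`), so both sides of the equivalences are false.
(4) `G h = GP q p (e h)` is `Pos` (`pos_GP`), smooth, with derivative `1 + deriv (e h) (q x) ≥ 3 / 4`; `h ↦ G h x = x + e₀ h (Int.fract (q x)) / q + p / q` is measurable (last part of `exists_ef` with `Ω = H`). `exists_measurable_dif` gives `s`.
For `h ∈ W`, `plus_nf` gives `Ψ`, and `cj_of_lift` (`lft_lf h`, `Lft (s h) (G h)`) gives `Cj h (s h)`.
-/

set_option autoImplicit false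

open Set
open scoped ContDiff Manifold

namespace Pool.Agent.CIR

namespace PlusRAux

/-- The displacement of the `q`-th iterate. -/
noncomputable def ph (q : ℕ) (p : ℤ) (h : H) (x : ℝ) : ℝ := (lf h)^[q] x - x - p

theorem ph_cont (q : ℕ) (p : ℤ) (h : H) : Continuous (ph q p h) := by
  unfold ph
  exact (((lf_cont h).iterate q).sub continuous_id).sub continuous_const

theorem ph_meas (q : ℕ) (p : ℤ) (x : ℝ) : Measurable fun h => ph q p h x := by
  unfold ph
  have h1 : Measurable fun h : H => (lf h)^[q] x :=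
    (measurable_lf_iter q).comp (measurable_id.prodMk measurable_const)
  exact (h1.sub measurable_const).sub measurable_const

theorem ex_iff (q : ℕ) (p : ℤ) {h : H} (hp : Pos (lf h)) :
    (∃ x, (lf h)^[q] x = x + p) ↔ ∃ x ∈ Icc (0 : ℝ) 1, ph q p h x = 0 := by
  constructor
  · rintro ⟨x, hx⟩
    refine ⟨Int.fract x, ⟨Int.fract_nonneg x, (Int.fract_lt_one x).le⟩, ?_⟩
    have e : Int.fract x = x - (⌊x⌋ : ℤ) := rfl
    unfold ph
    rw [e, (hp.iter q).sub_int, hx]
    ring
  · rintro ⟨x, _, hx⟩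
    refine ⟨x, ?_⟩
    unfold ph at hx
    linarith

/-- Integers `r ≥ 0`, `t` with `r p - t q = 1`. -/
theorem exists_rt {q : ℕ} {p : ℤ} (hq : 0 < q) (hc : IsCoprime p (q : ℤ)) :
    ∃ (r : ℕ) (t : ℤ), (r : ℤ) * p - t * q = 1 := by
  obtain ⟨u, v, huv⟩ := hc
  have hq1 : (1 : ℤ) ≤ q := by exact_mod_cast hq
  have h0 : 0 ≤ u + |u| * q := by
    have h1 : |u| * 1 ≤ |u| * q := mul_le_mul_of_nonneg_left hq1 (abs_nonneg u)
    have h2 := neg_abs_le u
    linarith
  refine ⟨(u + |u| * q).toNat, |u| * p - v, ?_⟩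
  rw [Int.toNat_of_nonneg h0]
  linear_combination huv

end PlusRAux

open PlusRAux

theorem measurableSet_plus (q : ℕ) (p : ℤ) :
    MeasurableSet {h : H | Pos (lf h) ∧ ∃ x, (lf h)^[q] x = x + p} := by
  have e : {h : H | Pos (lf h) ∧ ∃ x, (lf h)^[q] x = x + p} =
      {h : H | Pos (lf h)} ∩ {h : H | ∃ x ∈ Icc (0 : ℝ) 1, ph q p h x = 0} := by
    ext h
    constructor
    · rintro ⟨h1, h2⟩
      exact ⟨h1, (ex_iff q p h1).1 h2⟩
    · rintro ⟨h1, h2⟩
      exact ⟨h1, (ex_iff q p h1).2 h2⟩
  rw [e]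
  exact measurableSet_pos.inter (measurable_zero (ph_cont q p) (ph_meas q p)).1

theorem plus {q : ℕ} {p : ℤ} (hq : 0 < q) (hc : IsCoprime p (q : ℤ)) :
    ∃ s : H → Dif, Measurable s ∧ ∀ h : H, Pos (lf h) → (∃ x, (lf h)^[q] x = x + p) → Cj h (s h) := by
  obtain ⟨r, t, hrt⟩ := exists_rt hq hc
  obtain ⟨a, ham, ha⟩ := (measurable_zero (ph_cont q p) (ph_meas q p)).2
  obtain ⟨ef, ef1, ef2, ef3, ef4, ef5⟩ := exists_ef
  have hq0 : (0 : ℝ) < q := by exact_mod_cast hq
  -- the length of the interval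
  set l : H → ℝ := fun h => (lf h)^[r] (a h) - t - a h with hl
  have hlm : Measurable l := by
    have h1 : Measurable fun h : H => (lf h)^[r] (a h) :=
      (measurable_lf_iter r).comp (measurable_id.prodMk ham)
    exact (h1.sub measurable_const).sub ham
  set d : H → ℝ → ℝ := fun h x => (lf h)^[q] (a h + l h * x) - p - (a h + l h * x) with hd
  have hdc : ∀ h, Continuous (d h) := by
    intro h
    have h1 : Continuous fun x => a h + l h * x := by fun_prop
    exact ((((lf_cont h).iterate q).comp h1).sub continuous_const).sub h1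
  have hdm : ∀ x, Measurable fun h => d h x := by
    intro x
    have h1 : Measurable fun h => a h + l h * x := ham.add (hlm.mul_const x)
    have h2 : Measurable fun h : H => (lf h)^[q] (a h + l h * x) :=
      (measurable_lf_iter q).comp (measurable_id.prodMk h1)
    exact (h2.sub measurable_const).sub h1
  set e : H → ℝ → ℝ := fun h x => ef (d h) (Int.fract x) with he
  have hper : ∀ h, ContDiff ℝ ∞ (e h) ∧ ∀ x, |deriv (e h) x| ≤ 1 / 4 := fun h =>
    periodize (ef1 (d h)) (ef3 (d h)) (ef2 (d h))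
  have he1 : ∀ h x, e h (x + 1) = e h x := by
    intro h x
    simp only [he, Int.fract_add_one]
  have he0 : ∀ h, e h 0 = 0 := by
    intro h
    simp only [he, Int.fract_zero]
    exact ef3 (d h) 0 (fun h0 => lt_irrefl _ h0.1)
  have hmono : ∀ h, StrictMono fun x => x + e h x := fun h =>
    strictMono_add ((hper h).1.differentiable (by simp)) (by norm_num : (1 / 4 : ℝ) < 1) (hper h).2
  have hpos : ∀ h, Pos (GP q p (e h)) := fun h =>
    pos_GP hq p (hper h).1.continuous (he1 h) (hmono h)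
  have hcd : ∀ h, ContDiff ℝ ∞ (GP q p (e h)) := by
    intro h
    unfold GP
    exact (contDiff_id.add (((hper h).1.comp (contDiff_const.mul contDiff_id)).div_const _)).add
      contDiff_const
  have hder : ∀ h x, deriv (GP q p (e h)) x ≠ 0 := by
    intro h x
    have h1 : HasDerivAt (e h) (deriv (e h) (q * x)) (q * x) :=
      ((hper h).1.differentiable (by simp)).differentiableAt.hasDerivAt
    have h2 : HasDerivAt (fun x : ℝ => (q : ℝ) * x) q x := by
      simpa using (hasDerivAt_id x).const_mul (q : ℝ)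
    have h3 : HasDerivAt (GP q p (e h)) (1 + deriv (e h) (q * x) * q / q + 0) x :=
      (((hasDerivAt_id x).add ((h1.comp x h2).div_const (q : ℝ))).add (hasDerivAt_const x _))
    rw [h3.deriv, mul_div_cancel_right₀ _ hq0.ne', add_zero]
    have h4 := abs_le.1 ((hper h).2 (q * x))
    have h5 := h4.1
    intro h6
    linarith
  have hGm : ∀ x, Measurable fun h => GP q p (e h) x := by
    intro x
    unfold GP
    have h1 : Measurable fun h => e h (q * x) := ef5 d hdc hdm (Int.fract (q * x))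
    exact ((h1.div_const _).const_add _).add_const _
  obtain ⟨s, hs, hs2⟩ := exists_measurable_dif (measurableSet_plus q p) (fun h => GP q p (e h))
    (fun h _ => ⟨Or.inl (hpos h), hcd h, hder h⟩) hGm
  refine ⟨s, hs, fun h hp hx => ?_⟩
  have hW : h ∈ {h : H | Pos (lf h) ∧ ∃ x, (lf h)^[q] x = x + p} := ⟨hp, hx⟩
  have hah : (lf h)^[q] (a h) = a h + p := by
    have h1 := ha h ((ex_iff q p hp).1 hx)
    unfold ph at h1
    linarith
  -- the end points
  have hd0 : d h 0 = 0 := by
    simp only [hd, mul_zero, add_zero]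
    rw [hah]
    ring
  have hd1 : d h 1 = 0 := by
    have hb : a h + l h * 1 = (lf h)^[r] (a h) - t := by
      simp only [hl]
      ring
    have h1 : (lf h)^[q] ((lf h)^[r] (a h) - t) = (lf h)^[r] (a h) - t + p := by
      rw [(hp.iter q).sub_int, ← Function.iterate_add_apply, Nat.add_comm, Function.iterate_add_apply,
        hah, (hp.iter r).add_int]
      ring
    simp only [hd]
    rw [hb, h1]
    ring
  have hsign : ∀ x ∈ Icc (0 : ℝ) 1, (0 < e h x ↔ 0 < d h x) ∧ (e h x < 0 ↔ d h x < 0) := by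
    intro x hx
    rcases hx.1.eq_or_lt with h1 | h1
    · rw [← h1, he0, hd0]
      exact ⟨Iff.rfl, Iff.rfl⟩
    rcases hx.2.eq_or_lt with h2 | h2
    · have h3 : e h 1 = 0 := by
        have := he1 h 0
        rw [zero_add] at this
        rw [this, he0]
      rw [h2, h3, hd1]
      exact ⟨Iff.rfl, Iff.rfl⟩
    · have h3 : Int.fract x = x := Int.fract_eq_self.2 ⟨h1.le, h2⟩
      simp only [he, h3]
      exact ef4 (d h) (hdc h) x ⟨h1, h2⟩
  obtain ⟨Ψ, hΨ, hΨ2⟩ := plus_nf hp hq hrt hah (hper h).1.continuous (he1 h) (he0 h) (hmono h)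
    (fun x hx => (hsign x hx).1) (fun x hx => (hsign x hx).2)
  exact cj_of_lift (lft_lf h) (hs2 h hW) (Or.inl hΨ) hΨ2

end Pool.Agent.CIR
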