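import Mathlib

/-!
# CIR.Ret: closest return times of an irrational rotation

PROOF. Let `ε` be the minimum of `|j τ - round (j τ)|` over `1 ≤ j ≤ N + 1`; `ε > 0` (`τ` irrational), `ε ≤ 1 / 2`, and `|j τ - k| ≥ ε` for all `1 ≤ j ≤ N + 1`, `k : ℤ` (`round_le`). By Dirichlet's theorem (`Real.exists_int_int_abs_mul_sub_le` or
`Real.exists_nat_abs_mul_sub_round_le`) there are `n ≥ 1`, `m` with `|n τ - m| < ε`. Let `n` be the least `n ≥ 1` for which such an `m` exists (`Nat.find`). Then `n > N + 1`, and for `0 < j < n` and every `k`, `|j τ - k| ≥ ε > |n τ - m|`.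
-/

set_option autoImplicit false

open Set

namespace Pool.Agent.CIR

theorem exists_return {τ : ℝ} (hτ : Irrational τ) (N : ℕ) :
    ∃ n : ℕ, N < n ∧ ∃ m : ℤ, |n * τ - m| < 1 ∧ ∀ j : ℕ, 0 < j → j < n → ∀ k : ℤ, |n * τ - m| < |j * τ - k| := by
  classical
  obtain ⟨j₀, hj₀, hmin⟩ := Finset.exists_min_image (Finset.Icc 1 (N + 1))
    (fun j : ℕ => |(j : ℝ) * τ - round ((j : ℝ) * τ)|) ⟨1, by simp⟩
  rw [Finset.mem_Icc] at hj₀
  set ε : ℝ := |(j₀ : ℝ) * τ - round ((j₀ : ℝ) * τ)| with hε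
  have hεpos : 0 < ε := by
    rw [hε, abs_pos, sub_ne_zero]
    have h1 : Irrational ((j₀ : ℝ) * τ) := hτ.natCast_mul (by omega)
    exact h1.ne_int _
  have hεhalf : ε ≤ 1 / 2 := abs_sub_round _
  have hge : ∀ j : ℕ, 0 < j → j ≤ N + 1 → ∀ k : ℤ, ε ≤ |(j : ℝ) * τ - k| := by
    intro j hj hjN k
    have h1 := hmin j (Finset.mem_Icc.2 ⟨hj, hjN⟩)
    exact h1.trans (round_le _ _)
  have hex : ∃ n : ℕ, 0 < n ∧ ∃ m : ℤ, |(n : ℝ) * τ - m| < ε := by
    obtain ⟨M, hM⟩ := exists_nat_gt (1 / ε)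
    have hMpos : 0 < M := by
      have h1 : (0 : ℝ) < M := lt_trans (by positivity) hM
      exact_mod_cast h1
    obtain ⟨k, hk, _, hk2⟩ := Real.exists_nat_abs_mul_sub_round_le τ hMpos
    refine ⟨k, hk, round ((k : ℝ) * τ), lt_of_le_of_lt hk2 ?_⟩
    rw [div_lt_iff₀ (by positivity)]
    rw [div_lt_iff₀ hεpos] at hM
    nlinarith
  obtain ⟨hn, m, hm⟩ := Nat.find_spec hex
  have hN : N + 1 < Nat.find hex := by
    by_contra hc
    push Not at hc
    exact absurd hm (not_lt.2 (hge _ hn hc m))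
  refine ⟨Nat.find hex, by omega, m, lt_of_lt_of_le hm (by linarith), ?_⟩
  intro j hj hjn k
  have h1 := Nat.find_min hex hjn
  push Not at h1
  exact lt_of_lt_of_le hm (h1 hj k)

end Pool.Agent.CIR
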