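import Pool.Agent.Lib.CIR.Bas

/-!
# CIR.SmoA: smooth maps of the line and smooth maps of the circle

LOCAL INVERSE of `E`: for `x₀ : ℝ` let `sec z = x₀ + (Complex.log ((z : ℂ) / (E x₀ : ℂ))).im / (2 π)` for `z : Circle`. `E (sec z) = z` for all `z`; `sec (E x) = x` for `|x - x₀| < 1/2`; `sec` is smooth (`ContMDiffAt`) at
`z = E x₀`: the coercion `Circle → ℂ` is smooth (`contMDiff_coe_sphere`; the charted space of the circle is the one of the sphere; see Mathlib.Geometry.Manifold.Instances.Sphere and its section on `Circle`), and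
`w ↦ (Complex.log (w / E x₀)).im` is `ContDiffAt ℝ ∞` at `w = E x₀` (`Complex.contDiffAt_log` on the slit plane, restrict scalars, `ContDiffAt.contMDiffAt`). `E` is smooth: `contMDiff_circleExp` composed with `x ↦ 2 π x`.

PROOF of `contMDiff_of_lift`: at `z₀ = E x₀`, near `z₀` we have `f z = f (E (sec z)) = E (F (sec z))`, a composition of smooth maps. (All models: `𝓘(ℝ, EuclideanSpace ℝ (Fin 1))` on the circle, `𝓘(ℝ, ℝ)` on the line.)
PROOF of `contDiff_of_contMDiff`: near `x₀`, with `sec` the local inverse at `F x₀`: `F x = sec (E (F x)) = sec (f (E x))` for `x` near `x₀` (because `|F x - F x₀| < 1/2` by continuity), a composition of smooth maps;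
so `F` is `ContMDiffAt`, i.e. `ContDiffAt`.
-/

set_option autoImplicit false

open Set
open scoped ContDiff Manifold

namespace Pool.Agent.CIR

namespace SmoAAux

/-- The local inverse of `E` at `x₀`. -/
noncomputable def sec (x₀ : ℝ) (z : Circle) : ℝ := x₀ + (Complex.log ((z : ℂ) / (E x₀ : ℂ))).im / (2 * Real.pi)

theorem E_sec (x₀ : ℝ) (z : Circle) : E (sec x₀ z) = z := by
  have h1 : (Complex.log ((z : ℂ) / (E x₀ : ℂ))).im = Complex.arg ((z / E x₀ : Circle) : ℂ) := by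
    rw [Complex.log_im, Circle.coe_div]
  unfold sec
  rw [h1, E_add]
  have h2 : E (Complex.arg ((z / E x₀ : Circle) : ℂ) / (2 * Real.pi)) = z / E x₀ := by
    unfold E
    have h3 : (2 * Real.pi) * (Complex.arg ((z / Circle.exp (2 * Real.pi * x₀) : Circle) : ℂ) / (2 * Real.pi)) =
        Complex.arg ((z / Circle.exp (2 * Real.pi * x₀) : Circle) : ℂ) := by
      have : Real.pi ≠ 0 := Real.pi_ne_zero
      field_simp
    rw [h3, Circle.exp_arg]
  rw [h2]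
  exact mul_div_cancel _ _

theorem sec_E {x₀ x : ℝ} (h : |x - x₀| < 1 / 2) : sec x₀ (E x) = x := by
  have hpi : 0 < Real.pi := Real.pi_pos
  rw [abs_lt] at h
  have h1 : ((E x : Circle) : ℂ) / (E x₀ : ℂ) = Complex.exp (((2 * Real.pi * (x - x₀) : ℝ) : ℂ) * Complex.I) := by
    rw [← Circle.coe_div, ← E_sub]
    unfold E
    rw [Circle.coe_exp]
  have h2 : (Complex.log (((E x : Circle) : ℂ) / (E x₀ : ℂ))).im = 2 * Real.pi * (x - x₀) := by
    rw [h1, Complex.log_exp]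
    · simp
    · rw [Complex.im_ofReal_mul, Complex.I_im, mul_one]
      nlinarith
    · rw [Complex.im_ofReal_mul, Complex.I_im, mul_one]
      nlinarith
  unfold sec
  rw [h2]
  field_simp
  ring

theorem contMDiff_E : ContMDiff 𝓘(ℝ, ℝ) 𝓘(ℝ, EuclideanSpace ℝ (Fin 1)) ∞ E := by
  have h1 : ContMDiff 𝓘(ℝ, ℝ) 𝓘(ℝ, ℝ) ∞ (fun x : ℝ => 2 * Real.pi * x) := by
    apply ContDiff.contMDiff
    fun_prop
  exact contMDiff_circleExp.comp h1

attribute [local instance] finrank_real_complex_fact'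

theorem contMDiffAt_sec (x₀ : ℝ) : ContMDiffAt 𝓘(ℝ, EuclideanSpace ℝ (Fin 1)) 𝓘(ℝ, ℝ) ∞ (sec x₀) (E x₀) := by
  have h1 : ContMDiff 𝓘(ℝ, EuclideanSpace ℝ (Fin 1)) 𝓘(ℝ, ℂ) ∞ (fun z : Circle => (z : ℂ)) := contMDiff_coe_sphere
  have hne : ((E x₀ : Circle) : ℂ) ≠ 0 := Circle.coe_ne_zero _
  have h2 : ContDiffAt ℝ ∞ (fun w : ℂ => x₀ + (Complex.log (w / (E x₀ : ℂ))).im / (2 * Real.pi)) ((E x₀ : Circle) : ℂ) := by
    have h3 : ContDiffAt ℂ ∞ (fun w : ℂ => Complex.log (w / (E x₀ : ℂ))) ((E x₀ : Circle) : ℂ) := by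
      have h6 : ContDiffAt ℂ ∞ Complex.log (((E x₀ : Circle) : ℂ) / (E x₀ : ℂ)) := by
        rw [div_self hne]
        exact Complex.contDiffAt_log Complex.one_mem_slitPlane
      have h7 : ContDiffAt ℂ ∞ (fun w : ℂ => w / (E x₀ : ℂ)) ((E x₀ : Circle) : ℂ) :=
        contDiffAt_id.div_const _
      exact ContDiffAt.comp (g := Complex.log) (f := fun w : ℂ => w / (E x₀ : ℂ)) _ h6 h7
    have h4 : ContDiffAt ℝ ∞ (fun w : ℂ => Complex.log (w / (E x₀ : ℂ))) ((E x₀ : Circle) : ℂ) := h3.restrict_scalars ℝ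
    have h5 : ContDiffAt ℝ ∞ (fun w : ℂ => (Complex.log (w / (E x₀ : ℂ))).im) ((E x₀ : Circle) : ℂ) :=
      Complex.imCLM.contDiff.contDiffAt.comp _ h4
    exact contDiffAt_const.add (h5.div_const _)
  exact h2.contMDiffAt.comp (E x₀) h1.contMDiffAt

end SmoAAux

theorem contMDiff_of_lift {f : Circle → Circle} {F : ℝ → ℝ} (hF : ContDiff ℝ ∞ F) (h : Lft f F) :
    ContMDiff 𝓘(ℝ, EuclideanSpace ℝ (Fin 1)) 𝓘(ℝ, EuclideanSpace ℝ (Fin 1)) ∞ f := by
  intro z₀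
  obtain ⟨x₀, rfl⟩ := E_surj z₀
  have h1 : f = fun z => E (F (SmoAAux.sec x₀ z)) := by
    funext z
    rw [h, SmoAAux.E_sec]
  rw [h1]
  exact (SmoAAux.contMDiff_E.comp hF.contMDiff).contMDiffAt.comp (E x₀) (SmoAAux.contMDiffAt_sec x₀)

theorem contDiff_of_contMDiff {f : Circle → Circle} {F : ℝ → ℝ} (hF : Continuous F) (h : Lft f F)
    (hf : ContMDiff 𝓘(ℝ, EuclideanSpace ℝ (Fin 1)) 𝓘(ℝ, EuclideanSpace ℝ (Fin 1)) ∞ f) : ContDiff ℝ ∞ F := by
  rw [contDiff_iff_contDiffAt]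
  intro x₀
  have h1 : ∀ᶠ x in nhds x₀, SmoAAux.sec (F x₀) (f (E x)) = F x := by
    have h2 : ∀ᶠ x in nhds x₀, |F x - F x₀| < 1 / 2 := by
      have h3 := Metric.continuous_iff'.1 hF x₀ (1 / 2) (by norm_num)
      simpa only [Real.dist_eq] using h3
    filter_upwards [h2] with x hx
    rw [← h, SmoAAux.sec_E hx]
  have h4 : ContMDiffAt 𝓘(ℝ, ℝ) 𝓘(ℝ, ℝ) ∞ (fun x => SmoAAux.sec (F x₀) (f (E x))) x₀ := by
    have h5 : ContMDiffAt 𝓘(ℝ, EuclideanSpace ℝ (Fin 1)) 𝓘(ℝ, ℝ) ∞ (SmoAAux.sec (F x₀)) (f (E x₀)) := by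
      rw [← h]
      exact SmoAAux.contMDiffAt_sec (F x₀)
    exact ContMDiffAt.comp (g := SmoAAux.sec (F x₀)) (f := fun x => f (E x)) x₀ h5
      (hf.comp SmoAAux.contMDiff_E).contMDiffAt
  rw [contMDiffAt_iff_contDiffAt] at h4
  exact h4.congr_of_eventuallyEq (h1.mono fun _ hx => hx.symm)

end Pool.Agent.CIR
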