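import Pool.Agent.Lib.CIR.Lift
import Pool.Agent.Lib.CIR.Desc
import Pool.Agent.Lib.CIR.SmoA

/-!
# CIR.Smo: smooth lifts and diffeomorphisms

PROOF of `exists_dif`: `exists_hom` gives `h : H` with `Lft h F`. The inverse `F'` of `F` is smooth: `F` is a homeomorphism of `ℝ` with nonvanishing derivative (`Homeomorph.contDiff_symm_deriv`,
or `ContDiffAt.to_localInverse`), and it is a lift of `h.symm`. `contMDiff_of_lift` for `h` and for `h.symm`.
PROOF of `contDiff_lift`: `contDiff_of_contMDiff` for `F`. For the derivative: let `G = lf (f.symm)` (a continuous lift of the inverse, `exists_lift` applied to `f.symm.toHomeomorph`), it is smooth too; `x ↦ G (F x)` is a continuous lift of the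
identity, so `G (F x) = x + m` (`lift_unique`), and the chain rule gives `deriv G (F x) * deriv F x = 1`.
PROOF of `posneg_lift`: `F` differs from `lf (f.toHomeomorph)` by an integer constant (`lift_unique`).
-/

set_option autoImplicit false

open Set
open scoped ContDiff Manifold

namespace Pool.Agent.CIR

namespace SmoAux

theorem exists_homeo {F : ℝ → ℝ} (hF : Pos F ∨ Neg F) : ∃ e : ℝ ≃ₜ ℝ, ∀ x, e x = F x := by
  rcases hF with h | h
  · exact ⟨h.oi.toHomeomorph, fun x => rfl⟩
  · refine ⟨h.neg.oi.toHomeomorph.trans (Homeomorph.neg ℝ), fun x => ?_⟩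
    show -(-F x) = F x
    ring

end SmoAux

open SmoAux in
theorem exists_dif {F : ℝ → ℝ} (hF : Pos F ∨ Neg F) (hs : ContDiff ℝ ∞ F) (hd : ∀ x, deriv F x ≠ 0) :
    ∃ f : Dif, Lft f F := by
  obtain ⟨h, hL⟩ := exists_hom hF
  obtain ⟨e, he⟩ := exists_homeo hF
  have heF : (e : ℝ → ℝ) = F := funext he
  have hdf : Differentiable ℝ F := hs.differentiable (by simp)
  have hs' : ContDiff ℝ ∞ (e.symm : ℝ → ℝ) := by
    refine e.contDiff_symm_deriv (f' := deriv F) hd (fun x => ?_) ?_
    · rw [heF]
      exact (hdf x).hasDerivAt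
    · rw [heF]
      exact hs
  have hL' : Lft (h.symm : Circle → Circle) (e.symm : ℝ → ℝ) := by
    intro x
    rw [Homeomorph.eq_symm_apply, ← hL, ← he, Homeomorph.apply_symm_apply]
  exact ⟨{ toEquiv := h.toEquiv
           contMDiff_toFun := contMDiff_of_lift hs hL
           contMDiff_invFun := contMDiff_of_lift hs' hL' }, hL⟩

theorem posneg_lift (f : Dif) {F : ℝ → ℝ} (hF : Continuous F) (h : Lft f F) : Pos F ∨ Neg F := by
  obtain ⟨m, hm⟩ := lift_unique (h := f) (lf_cont f.toHomeomorph) hF (lft_lf f.toHomeomorph) h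
  have hFe : F = fun x => lf f.toHomeomorph x + m := funext hm
  rcases (lf_spec f.toHomeomorph).1 with h1 | h1
  · left
    rw [hFe]
    exact h1.add_const m
  · right
    have h2 := (h1.neg.add_const (-(m : ℝ))).neg
    rw [hFe]
    have h3 : (fun x => lf f.toHomeomorph x + (m : ℝ)) =
        fun x => -(-lf f.toHomeomorph x + -(m : ℝ)) := by
      funext x
      ring
    rw [h3]
    exact h2

theorem contDiff_lift (f : Dif) {F : ℝ → ℝ} (hF : Continuous F) (h : Lft f F) :
    ContDiff ℝ ∞ F ∧ ∀ x, deriv F x ≠ 0 := by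
  have hs : ContDiff ℝ ∞ F := contDiff_of_contMDiff hF h f.contMDiff
  refine ⟨hs, fun x hx => ?_⟩
  have hG : ContDiff ℝ ∞ (lf f.symm.toHomeomorph) :=
    contDiff_of_contMDiff (f := f.symm) (lf_cont _) (lft_lf _) f.symm.contMDiff
  have hGL : Lft (f.symm : Circle → Circle) (lf f.symm.toHomeomorph) := lft_lf _
  have hcomp : Lft (fun z => f.symm (f z)) (fun x => lf f.symm.toHomeomorph (F x)) := hGL.comp h
  have hid : Lft (fun z => f.symm (f z)) (fun x => x) := by
    intro x
    show E x = f.symm (f (E x))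
    rw [f.symm_apply_apply]
  obtain ⟨m, hm⟩ := lift_unique continuous_id ((lf_cont f.symm.toHomeomorph).comp hF) hid hcomp
  have d1 : HasDerivAt F (deriv F x) x := (hs.differentiable (by simp) x).hasDerivAt
  have d2 : HasDerivAt (lf f.symm.toHomeomorph) (deriv (lf f.symm.toHomeomorph) (F x)) (F x) :=
    (hG.differentiable (by simp) (F x)).hasDerivAt
  have d3 := d2.comp x d1
  have d4 : HasDerivAt (fun x : ℝ => x + (m : ℝ)) 1 x := (hasDerivAt_id x).add_const _
  have e1 : (lf f.symm.toHomeomorph ∘ F) = fun x => x + (m : ℝ) := funext hm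
  rw [e1] at d3
  have h5 := d3.unique d4
  rw [hx, mul_zero] at h5
  exact zero_ne_one h5

end Pool.Agent.CIR
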