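import Pool.Agent.Lib.CIR.Defs

/-!
# CIR.TopP: the homeomorphisms of the circle form a Polish group

Everything works for any compact metric space in place of the circle.

PROOF of `isTopologicalGroup`: the topology is induced by `h ↦ (h, h⁻¹) ∈ C(Circle, Circle) × C(Circle, Circle)`; composition `C(Y, Z) × C(X, Y) → C(X, Z)` is continuous for `Y` locally compact
(search `ContinuousMap` + `comp` + `Continuous` in Topology/CompactOpen, `ContinuousMap.continuous_comp'`-like or `Continuous.compCM`), so `h ↦ h⁻¹` (swap) and `(h, k) ↦ (h * k, (h * k)⁻¹)` are continuous
(`continuous_induced_rng`). (Group structure on `Circle ≃ₜ Circle` from Mathlib: `(h * k) z = h (k z)`, `h⁻¹ = h.symm`.)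
PROOF of `polishSpace`: the map `h ↦ (h, h⁻¹)` is a closed embedding into the Polish space `C(Circle, Circle) × C(Circle, Circle)` (`C(Circle, Circle)` is Polish: complete metric and second countable, instances for compact
metrizable domain exist in Mathlib): it is injective and inducing, the range is `{(a, b) | a.comp b = id ∧ b.comp a = id}`, closed. `Topology.IsClosedEmbedding.polishSpace`.
-/

set_option autoImplicit false

open Set
open scoped ContDiff Manifold

namespace Pool.Agent.CIR

namespace TopPAux

/-- The map `h ↦ (h, h⁻¹)`. -/
noncomputable def emb (h : H) : C(Circle, Circle) × C(Circle, Circle) :=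
  ((⟨h, h.continuous⟩ : C(Circle, Circle)), (⟨h.symm, h.symm.continuous⟩ : C(Circle, Circle)))

theorem emb_inducing : Topology.IsInducing emb := ⟨rfl⟩

theorem continuous_emb : Continuous emb := emb_inducing.continuous

theorem emb_injective : Function.Injective emb := by
  intro h k hk
  have h1 : (emb h).1 = (emb k).1 := by rw [hk]
  ext z
  have := DFunLike.congr_fun h1 z
  exact congrArg Subtype.val this

theorem continuous_fst_emb : Continuous fun h : H => (⟨h, h.continuous⟩ : C(Circle, Circle)) :=
  continuous_fst.comp continuous_emb

theorem continuous_snd_emb :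
    Continuous fun h : H => (⟨h.symm, h.symm.continuous⟩ : C(Circle, Circle)) :=
  continuous_snd.comp continuous_emb

theorem range_emb : Set.range emb = {p : C(Circle, Circle) × C(Circle, Circle) |
    p.1.comp p.2 = ContinuousMap.id Circle ∧ p.2.comp p.1 = ContinuousMap.id Circle} := by
  ext p
  constructor
  · rintro ⟨h, rfl⟩
    exact ⟨by ext z; simp [emb], by ext z; simp [emb]⟩
  · rintro ⟨h1, h2⟩
    refine ⟨⟨⟨p.1, p.2, fun z => DFunLike.congr_fun h2 z, fun z => DFunLike.congr_fun h1 z⟩,
      p.1.continuous, p.2.continuous⟩, ?_⟩
    rfl

theorem isClosed_range : IsClosed (Set.range emb) := by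
  rw [range_emb]
  refine IsClosed.inter ?_ ?_
  · exact isClosed_eq (continuous_fst.compCM continuous_snd) continuous_const
  · exact isClosed_eq (continuous_snd.compCM continuous_fst) continuous_const

end TopPAux

open TopPAux

theorem isTopologicalGroup : IsTopologicalGroup H := by
  have h1 : Continuous fun p : H × H => p.1 * p.2 := by
    refine emb_inducing.continuous_iff.2 ?_
    refine Continuous.prodMk ?_ ?_
    · exact (continuous_fst_emb.comp continuous_fst).compCM (continuous_fst_emb.comp continuous_snd)
    · exact (continuous_snd_emb.comp continuous_snd).compCM (continuous_snd_emb.comp continuous_fst)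
  have h2 : Continuous fun p : H => p⁻¹ := by
    refine emb_inducing.continuous_iff.2 ?_
    exact Continuous.prodMk continuous_snd_emb continuous_fst_emb
  exact { continuous_mul := h1, continuous_inv := h2 }

theorem polishSpace : PolishSpace H := by
  have h1 : TopologicalSpace.IsCompletelyMetrizableSpace C(Circle, Circle) := by
    refine @MetricSpace.toIsCompletelyMetrizableSpace _ (ContinuousMap.instMetricSpace Circle) ?_
    exact inferInstanceAs
      (@CompleteSpace C(Circle, Circle) ContinuousMap.compactConvergenceUniformSpace)
  have h2 : PolishSpace C(Circle, Circle) := inferInstance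
  have h3 : PolishSpace (C(Circle, Circle) × C(Circle, Circle)) := inferInstance
  exact Topology.IsClosedEmbedding.polishSpace
    (f := emb) ⟨⟨emb_inducing, emb_injective⟩, isClosed_range⟩

/-- The evaluation is jointly continuous. -/
theorem continuous_apply_uncurry : Continuous fun p : H × Circle => p.1 p.2 := by
  have h1 : Continuous fun p : C(Circle, Circle) × Circle => p.1 p.2 := continuous_eval
  exact h1.comp ((continuous_fst_emb.comp continuous_fst).prodMk continuous_snd)

end Pool.Agent.CIR
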